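import Pool.Agent.K7x.EQ.Dist

/-!
# The distributions of the data of a block, second part
-/

set_option autoImplicit false
set_option linter.unusedSectionVars false

namespace Pool.Agent.K7x.EQ

open Finset H568R2 Pool.Agent.H676 Pool.Agent.H9x.RT

/-- replacing the second and the third factor of a distribution -/
theorem comb {G B C : Type*} [Fintype G] [Fintype B] [Fintype C] {P0 : G → ℝ} {PW : G → B → ℝ}
    {P2 : C → ℝ} {UB : B → ℝ} {UC : C → ℝ} (h0 : ∀ a, 0 ≤ P0 a) (h01 : ∑ a, P0 a = 1)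
    (hW : ∀ a b, 0 ≤ PW a b) (hW1 : ∀ a, ∑ b, PW a b = 1)
    (hC : ∀ c, 0 ≤ UC c) (hC1 : ∑ c, UC c = 1) {H : G → B → C → ℝ} {δ : ℝ}
    (h1 : ∀ a c, |∑ b, PW a b * H a b c - ∑ b, UB b * H a b c| ≤ δ)
    (h2 : ∀ a b, |∑ c, P2 c * H a b c - ∑ c, UC c * H a b c| ≤ δ) :
    |∑ a, ∑ b, ∑ c, P0 a * (PW a b * P2 c) * H a b c -
      ∑ a, ∑ b, ∑ c, P0 a * (UB b * UC c) * H a b c| ≤ 2 * δ := by
  have e1 : ∑ a, ∑ b, ∑ c, P0 a * (PW a b * P2 c) * H a b c -
      ∑ a, ∑ b, ∑ c, P0 a * (UB b * UC c) * H a b c =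
      (∑ a, P0 a * ∑ b, PW a b * (∑ c, P2 c * H a b c - ∑ c, UC c * H a b c)) +
      ∑ a, P0 a * ∑ c, UC c * (∑ b, PW a b * H a b c - ∑ b, UB b * H a b c) := by
    rw [← sum_sub_distrib, ← sum_add_distrib]
    refine sum_congr rfl fun a _ => ?_
    have e2 : ∑ b, ∑ c, P0 a * (PW a b * P2 c) * H a b c =
        P0 a * ∑ b, PW a b * ∑ c, P2 c * H a b c := by
      rw [mul_sum]
      refine sum_congr rfl fun b _ => ?_
      rw [mul_sum, mul_sum]
      exact sum_congr rfl fun c _ => by ring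
    have e3 : ∑ b, ∑ c, P0 a * (UB b * UC c) * H a b c =
        P0 a * ∑ c, UC c * ∑ b, UB b * H a b c := by
      rw [sum_comm, mul_sum]
      refine sum_congr rfl fun c _ => ?_
      rw [mul_sum, mul_sum]
      exact sum_congr rfl fun b _ => by ring
    have e4 : ∑ b, PW a b * ∑ c, UC c * H a b c = ∑ c, UC c * ∑ b, PW a b * H a b c := by
      simp only [mul_sum]
      rw [sum_comm]
      exact sum_congr rfl fun c _ => sum_congr rfl fun b _ => by ring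
    rw [e2, e3]
    simp only [mul_sub, sum_sub_distrib]
    rw [e4]
    ring
  rw [e1]
  have b1 : |∑ a, P0 a * ∑ b, PW a b * (∑ c, P2 c * H a b c - ∑ c, UC c * H a b c)| ≤ δ := by
    refine (abs_sum_le_sum_abs _ _).trans ?_
    have h3 : ∀ a, |P0 a * ∑ b, PW a b * (∑ c, P2 c * H a b c - ∑ c, UC c * H a b c)| ≤
        P0 a * δ := by
      intro a
      rw [abs_mul, abs_of_nonneg (h0 a)]
      refine mul_le_mul_of_nonneg_left ((abs_sum_le_sum_abs _ _).trans ?_) (h0 a)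
      have h4 : ∀ b, |PW a b * (∑ c, P2 c * H a b c - ∑ c, UC c * H a b c)| ≤ PW a b * δ := by
        intro b
        rw [abs_mul, abs_of_nonneg (hW a b)]
        exact mul_le_mul_of_nonneg_left (h2 a b) (hW a b)
      refine (sum_le_sum fun b _ => h4 b).trans ?_
      rw [← sum_mul, hW1, one_mul]
    refine (sum_le_sum fun a _ => h3 a).trans ?_
    rw [← sum_mul, h01, one_mul]
  have b2 : |∑ a, P0 a * ∑ c, UC c * (∑ b, PW a b * H a b c - ∑ b, UB b * H a b c)| ≤ δ := by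
    refine (abs_sum_le_sum_abs _ _).trans ?_
    have h3 : ∀ a, |P0 a * ∑ c, UC c * (∑ b, PW a b * H a b c - ∑ b, UB b * H a b c)| ≤
        P0 a * δ := by
      intro a
      rw [abs_mul, abs_of_nonneg (h0 a)]
      refine mul_le_mul_of_nonneg_left ((abs_sum_le_sum_abs _ _).trans ?_) (h0 a)
      have h4 : ∀ c, |UC c * (∑ b, PW a b * H a b c - ∑ b, UB b * H a b c)| ≤ UC c * δ := by
        intro c
        rw [abs_mul, abs_of_nonneg (hC c)]
        exact mul_le_mul_of_nonneg_left (h1 a c) (hC c)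
      refine (sum_le_sum fun c _ => h4 c).trans ?_
      rw [← sum_mul, hC1, one_mul]
    refine (sum_le_sum fun a _ => h3 a).trans ?_
    rw [← sum_mul, h01, one_mul]
  refine (abs_add_le _ _).trans ?_
  linarith

/-- functions on a disjoint union -/
theorem sum_fun_sum {α β : Type*} [Fintype α] [Fintype β] [DecidableEq α] [DecidableEq β]
    (F : (α ⊕ β → Bool) → ℝ) : ∑ z, F z = ∑ a : α → Bool, ∑ b : β → Bool, F (Sum.elim a b) := by
  rw [← (Equiv.sumArrowEquivProdArrow α β Bool).symm.sum_comp, Fintype.sum_prod_type]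
  rfl

section

variable {I : Type*} [Fintype I] [DecidableEq I]

theorem ml_unif (F : (I → Bool) → ℝ) :
    ml F 0 = ∑ a, (1 / 2 ^ Fintype.card I : ℝ) * F a := by
  rw [ml_zero, ← mul_sum]
  ring

theorem sum_unif : ∑ _a : I → Bool, (1 / 2 ^ Fintype.card I : ℝ) = 1 := by
  rw [sum_const, card_univ, nsmul_eq_mul]
  simp

end

/-- the number of qubits of the second mask -/
abbrev m2e (u : ℕ) : ℕ := 24 * u * (1024 * u + 1) + 4

/-- the positions of the data at the size `u` -/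
abbrev Iu (u : ℕ) : Type := Ig (8 * u * 2) (8 * u) (m2e u)

/-- the amplitude, doubled -/
noncomputable def va (u : ℕ) (z : Iu u → Bool) : ℝ := Am (512 * u) ((fo z + m1 z) / 2) + m2 z

theorem m1_eq {u : ℕ} (z : Iu u → Bool) {W : ℤ}
    (h : ssum univ (fun p => z (.inr (.inl p))) = W) : m1 z = W / 2 ^ (24 * u) := by
  unfold m1
  rw [← h]
  unfold ssum
  push_cast
  have e : 8 * u * 2 + 8 * u = 24 * u := by ring
  rw [e]
  congr 1
  exact sum_congr rfl fun p _ => (sgi_cast _).symm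

theorem m2_eq {u : ℕ} (z : Iu u → Bool) {W : ℤ}
    (h : ssum univ (fun p => z (.inr (.inr p))) = W) : m2 z = W / 2 ^ (m2e u) := by
  unfold m2
  rw [← h]
  unfold ssum
  push_cast
  congr 1
  exact sum_congr rfl fun p _ => (sgi_cast _).symm

theorem small_k {u : ℕ} (hu : 1 ≤ u) : ((1024 : ℝ) * u + 1) ^ 2 ≤ 2 ^ (24 * u) := by
  have h1 : 1024 * u + 1 ≤ 2 ^ (12 * u) := by
    have h2 : u < 2 ^ u := Nat.lt_two_pow_self
    calc 1024 * u + 1 ≤ 2 ^ 11 * u := by omega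
      _ ≤ 2 ^ 11 * 2 ^ u := Nat.mul_le_mul_left _ h2.le
      _ = 2 ^ (11 + u) := by rw [pow_add]
      _ ≤ 2 ^ (12 * u) := Nat.pow_le_pow_right (by norm_num) (by omega)
  have h3 : ((1024 : ℝ) * u + 1) ≤ 2 ^ (12 * u) := by exact_mod_cast h1
  have h4 : (2 : ℝ) ^ (24 * u) = (2 ^ (12 * u)) ^ 2 := by rw [← pow_mul]; congr 1; ring
  rw [h4]
  exact pow_le_pow_left₀ (by positivity) h3 2

open Classical in
/-- **The two distributions.** -/
theorem exists_dist2 {u t : ℕ} (hu : 1 ≤ u) {p Λ : ℝ} (hp0 : 0 < p) (hp1 : p ≤ 1)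
    (hΛp : (1 + (t : ℝ)) ^ 2 ≤ Λ * p) (hΛ : 16 * Λ ≤ 2 ^ (4 * u)) :
    ∃ P Q : (Iu u → Bool) → ℝ,
      (∀ a, 0 ≤ P a) ∧ ∑ a, P a = 1 ∧ (∀ a, P a ≠ 0 → va u a = 1) ∧
      (∀ a, 0 ≤ Q a) ∧ ∑ a, Q a = 1 ∧ (∀ a, Q a ≠ 0 → va u a = 0) ∧
      ∀ (h : (Iu u → Bool) → Bool) (L β : ℝ), 1 ≤ L →
        (∀ c, ∀ ρ, lv 2 (br (rs (fun a => h (Sum.elim a c)) ρ)) 0 ≤ L) →
        (∀ a c, Ex (wq p) (fun ρ : Restr ((Fin (8 * u * 2) → Bool) × (Fin (8 * u) → Bool)) =>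
          if ¬ DTr t (rs (fun b => h (Sum.elim a (Sum.elim b c))) ρ) then (1 : ℝ) else 0) ≤ β) →
        (∀ a b, Ex (wq p) (fun ρ : Restr (Fin (m2e u) → Bool) =>
          if ¬ DTr t (rs (fun c => h (Sum.elim a (Sum.elim b c))) ρ) then (1 : ℝ) else 0) ≤ β) →
        |∑ a, P a * br h a - ∑ a, Q a * br h a| ≤
          4 * (26 * Λ / 2 ^ (4 * u) + β) + (L + 9) / 2 ^ (8 * u) := by
  set X := Fin (8 * u * 2) → Bool with hX
  set Y := (Fin (8 * u * 2) → Bool) × (Fin (8 * u) → Bool) with hY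
  set Z := Fin (m2e u) → Bool with hZ
  have huR : (1 : ℝ) ≤ u := by exact_mod_cast hu
  have hcY : Fintype.card Y = 2 ^ (4 * (6 * u)) := by
    simp only [Y, Fintype.card_prod, Fintype.card_fun, Fintype.card_bool, Fintype.card_fin]
    rw [← pow_add]
    congr 1
    ring
  have hcZ : Fintype.card Z = 2 ^ (4 * (6 * u * (1024 * u + 1) + 1)) := by
    simp only [Z, Fintype.card_fun, Fintype.card_bool, Fintype.card_fin]
    congr 1
    unfold m2e
    ring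
  -- the dyadic number
  have hk1 : 1 ≤ 512 * u := by omega
  have hke : Even (512 * u) := ⟨256 * u, by ring⟩
  obtain ⟨τi, hτ0, hτ1, hτ2, hA1, hA2⟩ := exists_tau (m := 24 * u) hk1 hke
  set σ : ℝ := Real.sin (Real.pi / (2 * (2 * ((512 * u : ℕ) : ℝ) + 1))) with hσ
  set τ : ℝ := (τi : ℝ) / 2 ^ (24 * u) with hτ
  have hpi := Real.pi_pos
  have hσ0 : 0 < σ := by
    refine Real.sin_pos_of_pos_of_lt_pi (by positivity) ?_
    rw [div_lt_iff₀ (by positivity)]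
    have : (0 : ℝ) ≤ ((512 * u : ℕ) : ℝ) := by positivity
    nlinarith
  have hσ1 : 2 * σ ≤ 1 / (16 * ((8 * u * 2 : ℕ) : ℝ)) := by
    have h1 : σ ≤ Real.pi / (2 * (2 * ((512 * u : ℕ) : ℝ) + 1)) := Real.sin_le (by positivity)
    have h2 : Real.pi ≤ 3.15 := Real.pi_lt_d2.le
    have h3 : 2 * (Real.pi / (2 * (2 * ((512 * u : ℕ) : ℝ) + 1))) ≤
        1 / (16 * ((8 * u * 2 : ℕ) : ℝ)) := by
      push_cast
      rw [mul_div_assoc', div_le_div_iff₀ (by positivity) (by positivity)]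
      nlinarith
    linarith
  set η : ℝ := 1 / 2 ^ (4 * u) with hη
  have hη0 : 0 < η := by positivity
  have hη1 : η ≤ 1 := by
    rw [hη, div_le_one (by positivity)]
    exact one_le_pow₀ (by norm_num)
  have hη2 : (2 : ℝ) ^ (8 * u * 2) * η ^ 2 = 2 ^ (8 * u) := by
    rw [hη, div_pow, one_pow, ← pow_mul, mul_one_div, div_eq_iff (by positivity), ← pow_add]
    congr 1
    ring
  have h8u : (256 : ℝ) ≤ 2 ^ (8 * u) := by
    have : (2 : ℝ) ^ 8 ≤ 2 ^ (8 * u) := pow_le_pow_right₀ (by norm_num) (by omega)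
    linarith
  obtain ⟨P0, Q0, hP0, hP01, hP0s, hQ0, hQ01, hQ0s, hPQ⟩ := exists_conc (l := 8 * u * 2) (by omega)
    (ε := 2 * σ) (η := η) (by positivity) hσ1 hη0 hη1 (by
      rw [hη2, div_lt_one (by positivity)]
      linarith)
  -- the sums of the masks
  have hS := fun a => Fo_int (u := u) hu a
  choose Sf hSf using hS
  set bd : ℝ := 2 * 2 ^ (4 * (6 * u)) / 2 ^ (4 * u) with hbd
  have hbd' : bd = 2 * 2 ^ (20 * u) := by
    rw [hbd, div_eq_iff (by positivity), mul_assoc, ← pow_add]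
    congr 2
    ring
  have h20 : (2 : ℝ) ^ (24 * u) * η = 2 ^ (20 * u) := by
    rw [hη, mul_one_div, div_eq_iff (by positivity), ← pow_add]
    congr 1
    ring
  have h24 : (0 : ℝ) < 2 ^ (24 * u) := by positivity
  have h20' : (1 : ℝ) ≤ 2 ^ (20 * u) := one_le_pow₀ (by norm_num)
  have h20'' : (2 : ℝ) ≤ 2 ^ (20 * u) := by
    have : (2 : ℝ) ^ 1 ≤ 2 ^ (20 * u) := pow_le_pow_right₀ (by norm_num) (by omega)
    linarith
  have mask : ∀ s : ℤ, (∃ r : ℤ, s = 2 * r) → |(s : ℝ)| ≤ bd → ∃ PW : (Y → Bool) → ℝ,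
      (∀ b, 0 ≤ PW b) ∧ ∑ b, PW b = 1 ∧ (∀ b, PW b ≠ 0 → ssum univ b = s) ∧
      ∀ (h : (Y → Bool) → Bool) (β : ℝ),
        Ex (wq p) (fun ρ : Restr Y => if ¬ DTr t (rs h ρ) then (1 : ℝ) else 0) ≤ β →
        |∑ b, PW b * br h b - ml (br h) 0| ≤ 26 * Λ / 2 ^ (4 * u) + β :=
    fun s hs hs' => mask_num hcY (by omega) hp0 hp1 hΛp hΛ hs hs' (by omega)
  have maskf : ∀ f : ((Fin (8 * u * 2) → Bool) ⊕ (Fin (8 * u * 2) → Bool) → Bool) → ℤ,
      ∃ PW : ((Fin (8 * u * 2) → Bool) ⊕ (Fin (8 * u * 2) → Bool) → Bool) → (Y → Bool) → ℝ,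
      (∀ a b, 0 ≤ PW a b) ∧ (∀ a, ∑ b, PW a b = 1) ∧
      (∀ a b, |((2 * f a : ℤ) : ℝ)| ≤ bd → PW a b ≠ 0 → ssum univ b = 2 * f a) ∧
      ∀ (a) (h : (Y → Bool) → Bool) (β : ℝ),
        Ex (wq p) (fun ρ : Restr Y => if ¬ DTr t (rs h ρ) then (1 : ℝ) else 0) ≤ β →
        |∑ b, PW a b * br h b - ml (br h) 0| ≤ 26 * Λ / 2 ^ (4 * u) + β := by
    intro f
    have h1 : ∀ a, ∃ PW : (Y → Bool) → ℝ, (∀ b, 0 ≤ PW b) ∧ ∑ b, PW b = 1 ∧
        (∀ b, |((2 * f a : ℤ) : ℝ)| ≤ bd → PW b ≠ 0 → ssum univ b = 2 * f a) ∧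
        ∀ (h : (Y → Bool) → Bool) (β : ℝ),
        Ex (wq p) (fun ρ : Restr Y => if ¬ DTr t (rs h ρ) then (1 : ℝ) else 0) ≤ β →
        |∑ b, PW b * br h b - ml (br h) 0| ≤ 26 * Λ / 2 ^ (4 * u) + β := by
      intro a
      by_cases ha : |((2 * f a : ℤ) : ℝ)| ≤ bd
      · obtain ⟨PW, h1, h2, h3, h4⟩ := mask (2 * f a) ⟨_, rfl⟩ ha
        exact ⟨PW, h1, h2, fun b _ hb => h3 b hb, h4⟩
      · obtain ⟨PW, h1, h2, h3, h4⟩ := mask 0 ⟨0, rfl⟩ (by simp; positivity)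
        exact ⟨PW, h1, h2, fun b hb _ => absurd hb ha, h4⟩
    choose PW h1 h2 h3 h4 using h1
    exact ⟨PW, h1, h2, h3, h4⟩
  obtain ⟨PW, hPW, hPW1, hPWs, hPWc⟩ := maskf fun a => τi - Sf a
  obtain ⟨QW, hQW, hQW1, hQWs, hQWc⟩ := maskf fun a => -Sf a
  -- the second mask
  have mask2 : ∀ s : ℤ, (∃ r : ℤ, s = 2 * r) →
      |(s : ℝ)| ≤ 2 * 2 ^ (4 * (6 * u * (1024 * u + 1) + 1)) / 2 ^ (4 * u) →
      ∃ PW : (Z → Bool) → ℝ,
      (∀ b, 0 ≤ PW b) ∧ ∑ b, PW b = 1 ∧ (∀ b, PW b ≠ 0 → ssum univ b = s) ∧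
      ∀ (h : (Z → Bool) → Bool) (β : ℝ),
        Ex (wq p) (fun ρ : Restr Z => if ¬ DTr t (rs h ρ) then (1 : ℝ) else 0) ≤ β →
        |∑ b, PW b * br h b - ml (br h) 0| ≤ 26 * Λ / 2 ^ (4 * u) + β :=
    fun s hs hs' => mask_num hcZ (by nlinarith) hp0 hp1 hΛp hΛ hs hs' (by omega)
  obtain ⟨ai, hai⟩ := Am_int (m := 24 * u) τi (512 * u)
  have he1 : 24 * u * (2 * (512 * u) + 1) = 24 * u * (1024 * u + 1) := by ring
  rw [he1] at hai
  set E : ℕ := 24 * u * (1024 * u + 1) with hE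
  have hm2e : m2e u = E + 4 := rfl
  have h4E : 4 * (6 * u * (1024 * u + 1) + 1) = E + 4 := by rw [hE]; ring
  have hs2 : ((2 ^ (E + 4) - 16 * ai : ℤ) : ℝ) = 2 ^ (E + 4) * (1 - Am (512 * u) τ) := by
    rw [hai, pow_add]
    push_cast
    have : (0 : ℝ) < 2 ^ E := by positivity
    field_simp
    ring
  obtain ⟨P2, hP2, hP21, hP2s, hP2c⟩ := mask2 (2 ^ (E + 4) - 16 * ai)
    ⟨2 ^ (E + 3) - 8 * ai, by rw [pow_succ 2 (E + 3)]; ring⟩ (by
      rw [hs2, h4E, abs_mul, abs_of_pos (by positivity : (0 : ℝ) < 2 ^ (E + 4)),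
        abs_of_nonneg (by linarith)]
      have h1 : 1 - Am (512 * u) τ ≤ 2 / 2 ^ (4 * u) := by
        refine hA2.trans ?_
        have h2 : (2 * ((512 * u : ℕ) : ℝ) + 1) ^ 2 ≤ 2 ^ (24 * u) := by
          have := small_k hu
          push_cast
          have e : 2 * (512 * (u : ℝ)) + 1 = 1024 * u + 1 := by ring
          rw [e]
          exact this
        rw [div_le_div_iff₀ (by positivity) (by positivity)]
        have h3 : (2 : ℝ) ^ (4 * u) ≤ 2 ^ (24 * u) := pow_le_pow_right₀ (by norm_num) (by omega)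
        calc 2 * (2 * ((512 * u : ℕ) : ℝ) + 1) ^ 2 * 2 ^ (4 * u) ≤
            2 * 2 ^ (24 * u) * 2 ^ (24 * u) := by
              refine mul_le_mul ?_ h3 (by positivity) (by positivity)
              linarith
          _ = 2 * (2 ^ (24 * u)) ^ 2 := by ring
      calc (2 : ℝ) ^ (E + 4) * (1 - Am (512 * u) τ) ≤ 2 ^ (E + 4) * (2 / 2 ^ (4 * u)) :=
            mul_le_mul_of_nonneg_left h1 (by positivity)
        _ = 2 * 2 ^ (E + 4) / 2 ^ (4 * u) := by ring)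
  obtain ⟨Q2, hQ2, hQ21, hQ2s, hQ2c⟩ := mask2 0 ⟨0, rfl⟩ (by simp; positivity)
  -- products
  set F1 : (Iu u → Bool) → (X ⊕ X → Bool) := fun z i => z (.inl i) with hF1
  set F2 : (Iu u → Bool) → (Y → Bool) := fun z i => z (.inr (.inl i)) with hF2
  set F3 : (Iu u → Bool) → (Z → Bool) := fun z i => z (.inr (.inr i)) with hF3
  have hdec : ∀ (P0 : (X ⊕ X → Bool) → ℝ) (PW : (X ⊕ X → Bool) → (Y → Bool) → ℝ)
      (P2 : (Z → Bool) → ℝ) (G : (Iu u → Bool) → ℝ),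
      ∑ z, P0 (F1 z) * (PW (F1 z) (F2 z) * P2 (F3 z)) * G z =
      ∑ a, ∑ b, ∑ c, P0 a * (PW a b * P2 c) * G (Sum.elim a (Sum.elim b c)) := by
    intro P0 PW P2 G
    rw [sum_fun_sum]
    refine sum_congr rfl fun a _ => ?_
    rw [sum_fun_sum]
    rfl
  have hsum1 : ∀ (P0 : (X ⊕ X → Bool) → ℝ) (PW : (X ⊕ X → Bool) → (Y → Bool) → ℝ)
      (P2 : (Z → Bool) → ℝ), ∑ a, P0 a = 1 → (∀ a, ∑ b, PW a b = 1) → ∑ c, P2 c = 1 →
      ∑ z, P0 (F1 z) * (PW (F1 z) (F2 z) * P2 (F3 z)) = 1 := by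
    intro P0 PW P2 h1 h2 h3
    have h4 := hdec P0 PW P2 fun _ => 1
    simp only [mul_one] at h4
    rw [h4, ← h1]
    refine sum_congr rfl fun a _ => ?_
    have : ∀ b, ∑ c, P0 a * (PW a b * P2 c) = P0 a * PW a b := by
      intro b
      have e : ∀ c, P0 a * (PW a b * P2 c) = P0 a * PW a b * P2 c := fun c => by ring
      rw [sum_congr rfl fun c _ => e c, ← mul_sum, h3, mul_one]
    rw [sum_congr rfl fun b _ => this b, ← mul_sum, h2, mul_one]
  have hval : ∀ (z : Iu u → Bool) (w : ℤ), |((2 * (w - Sf (F1 z)) : ℤ) : ℝ)| ≤ bd →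
      ssum univ (F2 z) = 2 * (w - Sf (F1 z)) → (fo z + m1 z) / 2 = w / 2 ^ (24 * u) := by
    intro z w _ h1
    rw [m1_eq z h1]
    have h2 : fo z = 2 * Sf (F1 z) / 2 ^ (24 * u) := by
      rw [eq_div_iff h24.ne', mul_comm]
      exact hSf (F1 z)
    rw [h2]
    push_cast
    field_simp
    ring
  refine ⟨fun z => P0 (F1 z) * (PW (F1 z) (F2 z) * P2 (F3 z)),
    fun z => Q0 (F1 z) * (QW (F1 z) (F2 z) * Q2 (F3 z)),
    fun z => mul_nonneg (hP0 _) (mul_nonneg (hPW _ _) (hP2 _)), hsum1 P0 PW P2 hP01 hPW1 hP21,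
    fun z hz => ?_, fun z => mul_nonneg (hQ0 _) (mul_nonneg (hQW _ _) (hQ2 _)),
    hsum1 Q0 QW Q2 hQ01 hQW1 hQ21, fun z hz => ?_, fun h L β hL hlv hb1 hb2 => ?_⟩
  · have z1 : P0 (F1 z) ≠ 0 := left_ne_zero_of_mul hz
    have z2 : PW (F1 z) (F2 z) ≠ 0 := left_ne_zero_of_mul (right_ne_zero_of_mul hz)
    have z3 : P2 (F3 z) ≠ 0 := right_ne_zero_of_mul (right_ne_zero_of_mul hz)
    have hbound : |((2 * (τi - Sf (F1 z)) : ℤ) : ℝ)| ≤ bd := by
      have h1 := hP0s _ z1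
      have h2 : ((2 * (τi - Sf (F1 z)) : ℤ) : ℝ) =
          2 ^ (24 * u) * (2 * τ) - 2 ^ (24 * u) * Fo (Hm (8 * u * 2)) (F1 z) := by
        rw [hSf, hτ]
        push_cast
        field_simp
      have h3 : |2 * τ - Fo (Hm (8 * u * 2)) (F1 z)| ≤ 2 * (1 / 2 ^ (24 * u)) + η := by
        rw [abs_le] at h1 ⊢
        constructor <;> linarith [h1.1, h1.2]
      rw [h2, ← mul_sub, abs_mul, abs_of_pos h24, hbd']
      calc (2 : ℝ) ^ (24 * u) * |2 * τ - Fo (Hm (8 * u * 2)) (F1 z)| ≤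
          2 ^ (24 * u) * (2 * (1 / 2 ^ (24 * u)) + η) := mul_le_mul_of_nonneg_left h3 h24.le
        _ = 2 + 2 ^ (20 * u) := by
          rw [mul_add, h20]
          field_simp
        _ ≤ 2 * 2 ^ (20 * u) := by linarith
    unfold va
    rw [hval z τi hbound (hPWs _ _ hbound z2), m2_eq z (hP2s _ z3), hm2e, hs2]
    rw [← hτ]
    field_simp
    ring
  · have z1 : Q0 (F1 z) ≠ 0 := left_ne_zero_of_mul hz
    have z2 : QW (F1 z) (F2 z) ≠ 0 := left_ne_zero_of_mul (right_ne_zero_of_mul hz)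
    have z3 : Q2 (F3 z) ≠ 0 := right_ne_zero_of_mul (right_ne_zero_of_mul hz)
    have hbound : |((2 * (-Sf (F1 z)) : ℤ) : ℝ)| ≤ bd := by
      have h1 := hQ0s _ z1
      have h2 : ((2 * (-Sf (F1 z)) : ℤ) : ℝ) =
          -(2 ^ (24 * u) * Fo (Hm (8 * u * 2)) (F1 z)) := by
        rw [hSf]
        push_cast
        ring
      rw [h2, abs_neg, abs_mul, abs_of_pos h24, hbd']
      calc (2 : ℝ) ^ (24 * u) * |Fo (Hm (8 * u * 2)) (F1 z)| ≤ 2 ^ (24 * u) * η :=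
            mul_le_mul_of_nonneg_left h1 h24.le
        _ = 2 ^ (20 * u) := h20
        _ ≤ 2 * 2 ^ (20 * u) := by linarith
    have h5 := hval z 0 (by simpa using hbound) (by simpa using hQWs _ _ hbound z2)
    unfold va
    rw [h5, m2_eq z (hQ2s _ z3)]
    simp [Am_zero]
  · set UB : (Y → Bool) → ℝ := fun _ => 1 / 2 ^ Fintype.card Y with hUB
    set UC : (Z → Bool) → ℝ := fun _ => 1 / 2 ^ Fintype.card Z with hUC
    have hUB0 : ∀ b, 0 ≤ UB b := fun b => by rw [hUB]; positivity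
    have hUC0 : ∀ b, 0 ≤ UC b := fun b => by rw [hUC]; positivity
    have hUB1 : ∑ b, UB b = 1 := sum_unif
    have hUC1 : ∑ b, UC b = 1 := sum_unif
    set H : (X ⊕ X → Bool) → (Y → Bool) → (Z → Bool) → ℝ := fun a b c =>
      br h (Sum.elim a (Sum.elim b c)) with hH
    set δ : ℝ := 26 * Λ / 2 ^ (4 * u) + β with hδ
    have c1 := comb (H := H) (P0 := P0) (PW := PW) (P2 := P2) (UB := UB) (UC := UC) (δ := δ) hP0
      hP01 hPW hPW1 hUC0 hUC1
      (fun a c => by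
        have := hPWc a (fun b => h (Sum.elim a (Sum.elim b c))) β (hb1 a c)
        rw [ml_unif] at this
        exact this)
      (fun a b => by
        have := hP2c (fun c => h (Sum.elim a (Sum.elim b c))) β (hb2 a b)
        rw [ml_unif] at this
        exact this)
    have c2 := comb (H := H) (P0 := Q0) (PW := QW) (P2 := Q2) (UB := UB) (UC := UC) (δ := δ) hQ0
      hQ01 hQW hQW1 hUC0 hUC1
      (fun a c => by
        have := hQWc a (fun b => h (Sum.elim a (Sum.elim b c))) β (hb1 a c)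
        rw [ml_unif] at this
        exact this)
      (fun a b => by
        have := hQ2c (fun c => h (Sum.elim a (Sum.elim b c))) β (hb2 a b)
        rw [ml_unif] at this
        exact this)
    have c3 : |∑ a, ∑ b, ∑ c, P0 a * (UB b * UC c) * H a b c -
        ∑ a, ∑ b, ∑ c, Q0 a * (UB b * UC c) * H a b c| ≤ (L + 9) / 2 ^ (8 * u) := by
      have e1 : ∀ R : (X ⊕ X → Bool) → ℝ, ∑ a, ∑ b, ∑ c, R a * (UB b * UC c) * H a b c =
          ∑ b, ∑ c, UB b * UC c * ∑ a, R a * H a b c := by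
        intro R
        rw [sum_comm]
        refine sum_congr rfl fun b _ => ?_
        rw [sum_comm]
        refine sum_congr rfl fun c _ => ?_
        rw [mul_sum]
        exact sum_congr rfl fun a _ => by ring
      have e5 : ∑ b, ∑ c, UB b * UC c * ∑ a, P0 a * H a b c -
          ∑ b, ∑ c, UB b * UC c * ∑ a, Q0 a * H a b c =
          ∑ b, ∑ c, UB b * UC c * (∑ a, P0 a * H a b c - ∑ a, Q0 a * H a b c) := by
        rw [← sum_sub_distrib]
        refine sum_congr rfl fun b _ => ?_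
        rw [← sum_sub_distrib]
        exact sum_congr rfl fun c _ => by ring
      rw [e1, e1, e5]
      have e2 : ∀ b c, |∑ a, P0 a * H a b c - ∑ a, Q0 a * H a b c| ≤ (L + 9) / 2 ^ (8 * u) := by
        intro b c
        have h1 := hPQ (fun a => h (Sum.elim a (Sum.elim b c))) L hL (hlv (Sum.elim b c))
        refine h1.trans (le_of_eq ?_)
        have h2 : (Real.sqrt 2) ^ (8 * u * 2) = 2 ^ (8 * u) := by
          rw [mul_comm (8 * u) 2, pow_mul, Real.sq_sqrt (by norm_num)]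
        rw [h2, hη2]
        ring
      refine (abs_sum_le_sum_abs _ _).trans ?_
      have e3 : ∀ b, |∑ c, UB b * UC c * (∑ a, P0 a * H a b c - ∑ a, Q0 a * H a b c)| ≤
          UB b * ((L + 9) / 2 ^ (8 * u)) := by
        intro b
        refine (abs_sum_le_sum_abs _ _).trans ?_
        have e4 : ∀ c, |UB b * UC c * (∑ a, P0 a * H a b c - ∑ a, Q0 a * H a b c)| ≤
            UB b * UC c * ((L + 9) / 2 ^ (8 * u)) := by
          intro c
          rw [abs_mul, abs_of_nonneg (mul_nonneg (hUB0 b) (hUC0 c))]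
          exact mul_le_mul_of_nonneg_left (e2 b c) (mul_nonneg (hUB0 b) (hUC0 c))
        refine (sum_le_sum fun c _ => e4 c).trans (le_of_eq ?_)
        rw [← sum_mul, ← mul_sum, hUC1, mul_one]
      refine (sum_le_sum fun b _ => e3 b).trans (le_of_eq ?_)
      rw [← sum_mul, hUB1, one_mul]
    rw [hdec P0 PW P2 (br h), hdec Q0 QW Q2 (br h)]
    have c1' := abs_le.1 c1
    have c2' := abs_le.1 c2
    have c3' := abs_le.1 c3
    rw [abs_le]
    constructor <;> linarith [c1'.1, c1'.2, c2'.1, c2'.2, c3'.1, c3'.2]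

end Pool.Agent.K7x.EQ
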