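import Pool.Agent.K7x.EQ.Slice
import Pool.Agent.H9x.RT.Pair

/-!
# A distribution on a slice which looks uniform
-/

set_option autoImplicit false
set_option linter.unusedSectionVars false

namespace Pool.Agent.K7x.EQ

open Finset H568R2 Pool.Agent.H676 Pool.Agent.H9x.RT

variable {I : Type*} [Fintype I] [DecidableEq I]

/-- the second moment of a sum -/
theorem Ex_sq {A : Type*} [Fintype A] {w : A → ℝ} (hw : ∑ a, w a = 1) (c : A → ℝ)
    (hc : ∑ a, w a * c a = 0) :
    Ex w (fun ω : I → A => (∑ i, c (ω i)) ^ 2) = Fintype.card I * ∑ a, w a * c a ^ 2 := by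
  have h1 : (fun ω : I → A => (∑ i, c (ω i)) ^ 2) = fun ω => ∑ i, ∑ j, c (ω i) * c (ω j) := by
    funext ω
    rw [sq, sum_mul_sum]
  rw [h1, Ex_sum]
  have h2 : ∀ i : I, Ex w (fun ω : I → A => ∑ j, c (ω i) * c (ω j)) = ∑ a, w a * c a ^ 2 := by
    intro i
    rw [Ex_sum]
    have h3 : ∀ j : I, Ex w (fun ω : I → A => c (ω i) * c (ω j)) =
        if i = j then ∑ a, w a * c a ^ 2 else 0 := by
      intro j
      unfold Ex
      have h4 : ∀ ω : I → A, (∏ l, w (ω l)) * (c (ω i) * c (ω j)) =
          ∏ l, (w (ω l) * ((if l = i then c (ω l) else 1) * (if l = j then c (ω l) else 1))) := by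
        intro ω
        rw [prod_mul_distrib, prod_mul_distrib]
        simp
      rw [sum_congr rfl fun ω _ => h4 ω,
        sum_prod (fun l a => w a * ((if l = i then c a else 1) * (if l = j then c a else 1)))]
      by_cases hij : i = j
      · subst hij
        rw [if_pos rfl, ← mul_prod_erase univ _ (mem_univ i)]
        have h5 : ∏ l ∈ univ.erase i, ∑ a, w a * ((if l = i then c a else 1) *
            (if l = i then c a else 1)) = 1 := by
          refine prod_eq_one fun l hl => ?_
          simp only [if_neg (mem_erase.1 hl).1, mul_one]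
          exact hw
        rw [h5, mul_one]
        exact sum_congr rfl fun a _ => by simp only [if_true]; ring
      · rw [if_neg hij]
        refine prod_eq_zero (mem_univ i) ?_
        simp only [if_true, if_neg hij, mul_one]
        exact hc
    rw [sum_congr rfl fun j _ => h3 j, sum_ite_eq univ i]
    simp
  rw [sum_congr rfl fun i _ => h2 i, sum_const, nsmul_eq_mul, card_univ]

open Classical in
/-- Chebyshev's inequality -/
theorem Ex_cheb {A : Type*} [Fintype A] {w : A → ℝ} (hw0 : ∀ a, 0 ≤ w a) (hw : ∑ a, w a = 1)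
    (c : A → ℝ) (hc : ∑ a, w a * c a = 0) {K : ℝ} (hK : 0 < K) :
    Ex w (fun ω : I → A => if K ≤ |∑ i, c (ω i)| then (1 : ℝ) else 0) ≤
      Fintype.card I * (∑ a, w a * c a ^ 2) / K ^ 2 := by
  have h1 : Ex w (fun ω : I → A => if K ≤ |∑ i, c (ω i)| then (1 : ℝ) else 0) ≤
      Ex w (fun ω : I → A => (1 / K ^ 2) * (∑ i, c (ω i)) ^ 2) := by
    refine Ex_mono hw0 fun ω => ?_
    split_ifs with h
    · rw [div_mul_eq_mul_div, one_mul, le_div_iff₀ (by positivity), one_mul, ← sq_abs (∑ i, c (ω i))]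
      exact pow_le_pow_left₀ hK.le h 2
    · positivity
  refine h1.trans (le_of_eq ?_)
  rw [Ex_smul, Ex_sq hw c hc]
  ring

/-- the free coordinates -/
def stars (ρ : Restr I) : Finset I := univ.filter fun i => ρ i = none

/-- the sum of the fixed signs -/
def fsum (ρ : Restr I) : ℤ := ∑ i, (match ρ i with | none => 0 | some b => sgi b)

theorem ssum_ov (ρ : Restr I) (z : I → Bool) :
    ssum univ (ov ρ z) = fsum ρ + ssum (stars ρ) z := by
  unfold ssum fsum stars
  rw [sum_filter, ← sum_add_distrib]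
  refine sum_congr rfl fun i _ => ?_
  unfold ov
  cases h : ρ i <;> simp

/-- a slice is not empty -/
theorem exists_slice (R : Finset I) {s : ℤ} (hs : |s| ≤ R.card) (hp : ∃ r : ℤ, s = R.card + 2 * r) :
    ∃ a : I → Bool, ssum R a = s := by
  obtain ⟨r, hr⟩ := hp
  have h1 : 0 ≤ -r := by
    have := (abs_le.1 hs).2
    omega
  obtain ⟨q, hq⟩ := Int.eq_ofNat_of_zero_le h1
  have h2 : q ≤ R.card := by
    have := (abs_le.1 hs).1
    omega
  obtain ⟨B, hB, hBc⟩ := exists_subset_card_eq h2
  refine ⟨fun i => decide (i ∈ B), ?_⟩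
  have h3 : ∀ i, sgi (decide (i ∈ B)) = 1 - 2 * (if i ∈ B then 1 else 0) := by
    intro i
    by_cases h : i ∈ B <;> simp [sgi, h]
  unfold ssum
  rw [sum_congr rfl fun i _ => h3 i, sum_sub_distrib, ← mul_sum, sum_ite_mem,
    inter_eq_right.2 hB]
  simp only [sum_const, nsmul_eq_mul, mul_one]
  rw [hBc]
  omega

theorem TS_one_pos {R : Finset I} {s : ℤ} (h : ∃ a : I → Bool, ssum R a = s) :
    0 < TS R s (fun _ => (1 : ℝ)) := by
  obtain ⟨a, ha⟩ := h
  unfold TS
  refine sum_pos' (fun b _ => by split_ifs <;> norm_num) ⟨a, mem_univ a, ?_⟩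
  rw [if_pos ha]
  exact one_pos

theorem card_stars (ρ : Restr I) : ∃ r : ℤ, fsum ρ = (Fintype.card I : ℤ) - (stars ρ).card + 2 * r := by
  have h1 : ∀ ρ : Restr I, ∃ r : ℤ, fsum ρ =
      (∑ i : I, (if ρ i = none then (0 : ℤ) else 1)) + 2 * r := by
    intro ρ
    refine ⟨∑ i : I, (match ρ i with | none => 0 | some b => if b then -1 else 0), ?_⟩
    unfold fsum
    rw [mul_sum, ← sum_add_distrib]
    refine sum_congr rfl fun i _ => ?_
    cases h : ρ i with
    | none => simp
    | some b => cases b <;> simp [sgi]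
  obtain ⟨r, hr⟩ := h1 ρ
  refine ⟨r, ?_⟩
  rw [hr]
  congr 1
  have h2 : (∑ i : I, (if ρ i = none then (0 : ℤ) else 1)) +
      ∑ i : I, (if ρ i = none then (1 : ℤ) else 0) = Fintype.card I := by
    rw [← sum_add_distrib]
    have : ∀ i : I, ((if ρ i = none then (0 : ℤ) else 1) + if ρ i = none then (1 : ℤ) else 0) = 1 := by
      intro i; split_ifs <;> rfl
    rw [sum_congr rfl fun i _ => this i]
    simp
  have h3 : ∑ i : I, (if ρ i = none then (1 : ℤ) else 0) = (stars ρ).card := by
    unfold stars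
    rw [card_filter]
    push_cast
    rfl
  rw [h3] at h2
  omega

open Classical in
/-- **The distribution of a mask.** -/
theorem mask_dist {p : ℝ} (hp0 : 0 < p) (hp1 : p ≤ 1) {t : ℕ} {κ K : ℝ} {s : ℤ}
    (hpar : ∃ r : ℤ, s = Fintype.card I + 2 * r) (hK : 0 < K) (hκ0 : 0 ≤ κ) (hκ1 : κ ≤ 1)
    (hcond : |(s : ℝ)| + K + t ≤ κ * (p * Fintype.card I / 2 - t))
    {e : ℝ} (he : 4 / (p * Fintype.card I) + Fintype.card I / K ^ 2 ≤ e) (he1 : e < 1) :
    ∃ P : (I → Bool) → ℝ, (∀ a, 0 ≤ P a) ∧ ∑ a, P a = 1 ∧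
      (∀ a, P a ≠ 0 → ssum univ a = s) ∧
      ∀ (h : (I → Bool) → Bool) (β : ℝ),
        Ex (wq p) (fun ρ : Restr I => if ¬ DTr t (rs h ρ) then (1 : ℝ) else 0) ≤ β →
        |∑ a, P a * br h a - ml (br h) 0| ≤ 2 * e + β + t * κ := by
  set M : ℝ := (Fintype.card I : ℝ) with hM
  have hM0 : 0 < M := by
    by_contra hcon
    have h1 : M = 0 := le_antisymm (not_lt.1 hcon) (by rw [hM]; positivity)
    rw [h1] at hcond
    have h2 : 0 ≤ |(s : ℝ)| := abs_nonneg _
    have h3 : (0 : ℝ) ≤ t := by positivity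
    have h4 : 0 ≤ κ * t := by positivity
    have h5 : κ * (p * 0 / 2 - t) = -(κ * t) := by ring
    rw [h5] at hcond
    linarith
  have hwq0 : ∀ a, 0 ≤ wq p a := wq_nonneg hp0.le hp1
  have hpM : 0 < p * M := by positivity
  -- the good restrictions
  set G : Restr I → Prop := fun ρ => p * M / 2 ≤ ((stars ρ).card : ℝ) ∧ |(fsum ρ : ℝ)| ≤ K with hG
  have hbad : ∑ ρ : Restr I, (if G ρ then 0 else ∏ i, wq p (ρ i)) ≤ e := by
    have h1 := Ex_cheb (I := I) hwq0 (wq_sum p) (fun a => match a with | none => 1 - p | some _ => -p)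
      (by rw [Fintype.sum_option, Fintype.sum_bool]; simp only [wq]; ring)
      (K := p * M / 2) (by positivity)
    have h2 := Ex_cheb (I := I) hwq0 (wq_sum p)
      (fun a => match a with | none => 0 | some b => sg b)
      (by rw [Fintype.sum_option, Fintype.sum_bool]; simp only [wq, sg]; norm_num)
      (K := K) hK
    have e1 : ∀ ρ : Restr I, ∑ i, (fun a : Option Bool => match a with
        | none => 1 - p | some _ => -p) (ρ i) = ((stars ρ).card : ℝ) - p * M := by
      intro ρ
      have : ∀ i, (fun a : Option Bool => match a with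
        | none => 1 - p | some _ => -p) (ρ i) = (if ρ i = none then (1 : ℝ) else 0) - p := by
        intro i
        cases ρ i <;> simp
      rw [sum_congr rfl fun i _ => this i, sum_sub_distrib]
      unfold stars
      rw [card_filter]
      push_cast
      simp [hM]
      ring
    have e2 : ∀ ρ : Restr I, ∑ i, (fun a : Option Bool => match a with
        | none => (0 : ℝ) | some b => sg b) (ρ i) = (fsum ρ : ℝ) := by
      intro ρ
      unfold fsum
      push_cast
      refine sum_congr rfl fun i _ => ?_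
      cases ρ i with
      | none => simp
      | some b => simp only; rw [← sgi_cast]
    simp only [e1] at h1
    simp only [e2] at h2
    have v1 : (∑ a, wq p a * (fun a : Option Bool => match a with
        | none => 1 - p | some _ => -p) a ^ 2) ≤ p := by
      rw [Fintype.sum_option, Fintype.sum_bool]
      simp only [wq]
      nlinarith
    have v2 : (∑ a, wq p a * (fun a : Option Bool => match a with
        | none => (0 : ℝ) | some b => sg b) a ^ 2) ≤ 1 := by
      rw [Fintype.sum_option, Fintype.sum_bool]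
      simp only [wq, sg]
      norm_num
      linarith
    have b1 : M * (∑ a, wq p a * (fun a : Option Bool => match a with
        | none => 1 - p | some _ => -p) a ^ 2) / (p * M / 2) ^ 2 ≤ 4 / (p * M) := by
      rw [div_le_div_iff₀ (by positivity) hpM]
      have := mul_le_mul_of_nonneg_left v1 hM0.le
      have h5 : 0 < p * M := hpM
      nlinarith
    have b2 : M * (∑ a, wq p a * (fun a : Option Bool => match a with
        | none => (0 : ℝ) | some b => sg b) a ^ 2) / K ^ 2 ≤ M / K ^ 2 := by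
      refine div_le_div_of_nonneg_right ?_ (by positivity)
      calc _ ≤ M * 1 := mul_le_mul_of_nonneg_left v2 hM0.le
        _ = M := mul_one _
    refine le_trans ?_ he
    refine le_trans ?_ (add_le_add (h1.trans b1) (h2.trans b2))
    unfold Ex
    rw [← sum_add_distrib]
    refine sum_le_sum fun ρ _ => ?_
    have hW : 0 ≤ ∏ i, wq p (ρ i) := prod_nonneg fun i _ => hwq0 _
    by_cases hg : G ρ
    · rw [if_pos hg]
      refine add_nonneg (mul_nonneg hW ?_) (mul_nonneg hW ?_) <;> beta_reduce <;> split_ifs <;>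
        norm_num
    · rw [if_neg hg, ← mul_add]
      refine le_mul_of_one_le_right hW ?_
      beta_reduce
      by_cases c1 : p * M / 2 ≤ ((stars ρ).card : ℝ)
      · have c2 : ¬ |(fsum ρ : ℝ)| ≤ K := fun c2 => hg ⟨c1, c2⟩
        rw [if_pos (le_of_lt (not_le.1 c2))]
        split_ifs <;> norm_num
      · rw [if_pos (by
          rw [abs_of_neg (by have := not_le.1 c1; linarith)]
          have := not_le.1 c1
          linarith)]
        split_ifs <;> norm_num
  obtain ⟨W, hW0, hW1, hWG, hW⟩ := cond_exists (fun ρ : Restr I => ∏ i, wq p (ρ i))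
    (fun ρ => prod_nonneg fun i _ => hwq0 _)
    (by have := Ex_const (I := I) (wq_sum p) 1; unfold Ex at this; simpa using this) G
    (by convert hbad) he1
  -- the slices of the good restrictions
  have hgood : ∀ ρ, G ρ → t ≤ (stars ρ).card ∧
      |((s - fsum ρ : ℤ) : ℝ)| + (t : ℝ) ≤ κ * ((stars ρ).card - t) ∧
      0 < TS (stars ρ) (s - fsum ρ) (fun _ => (1 : ℝ)) := by
    rintro ρ ⟨c1, c2⟩
    have c3 : |((s - fsum ρ : ℤ) : ℝ)| ≤ |(s : ℝ)| + K := by
      push_cast
      exact (abs_sub _ _).trans (by linarith)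
    have c4 : |((s - fsum ρ : ℤ) : ℝ)| + (t : ℝ) ≤ κ * ((stars ρ).card - t) := by
      have : κ * (p * M / 2 - t) ≤ κ * ((stars ρ).card - t) :=
        mul_le_mul_of_nonneg_left (by linarith) hκ0
      linarith
    have c5 : (t : ℝ) ≤ (stars ρ).card := by
      by_contra hcon
      have h1 : ((stars ρ).card : ℝ) - t < 0 := by linarith [not_le.1 hcon]
      have h2 : κ * ((stars ρ).card - t) ≤ 0 := mul_nonpos_of_nonneg_of_nonpos hκ0 h1.le
      have h3 : 0 ≤ |(s : ℝ)| := abs_nonneg _
      have h4 : κ * (p * M / 2 - t) ≤ κ * ((stars ρ).card - t) :=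
        mul_le_mul_of_nonneg_left (by linarith) hκ0
      have h5 : (0 : ℝ) ≤ t := by positivity
      linarith
    refine ⟨by exact_mod_cast c5, c4, TS_one_pos (exists_slice _ ?_ ?_)⟩
    · have h1 : |((s - fsum ρ : ℤ) : ℝ)| ≤ (stars ρ).card := by
        have h2 : κ * ((stars ρ).card - t) ≤ 1 * ((stars ρ).card - t) :=
          mul_le_mul_of_nonneg_right hκ1 (by linarith)
        have h5 : (0 : ℝ) ≤ t := by positivity
        linarith
      have h2 : ((|s - fsum ρ| : ℤ) : ℝ) ≤ (((stars ρ).card : ℤ) : ℝ) := by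
        push_cast at h1 ⊢
        exact h1
      exact_mod_cast h2
    · obtain ⟨r, hr⟩ := hpar
      obtain ⟨q, hq⟩ := card_stars ρ
      exact ⟨r - q, by rw [hr, hq]; ring⟩
  set N : Restr I → ℝ := fun ρ => TS (stars ρ) (s - fsum ρ) (fun _ => (1 : ℝ)) with hN
  set P : (I → Bool) → ℝ := fun a => ∑ ρ, W ρ * (TS (stars ρ) (s - fsum ρ)
    (fun z => if ov ρ z = a then (1 : ℝ) else 0) / N ρ) with hP
  have hPF : ∀ F : (I → Bool) → ℝ, ∑ a, P a * F a =
      ∑ ρ, W ρ * (TS (stars ρ) (s - fsum ρ) (fun z => F (ov ρ z)) / N ρ) := by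
    intro F
    rw [hP]
    simp only [sum_mul]
    rw [sum_comm]
    refine sum_congr rfl fun ρ _ => ?_
    have h1 : ∑ a, TS (stars ρ) (s - fsum ρ) (fun z => if ov ρ z = a then (1 : ℝ) else 0) * F a =
        TS (stars ρ) (s - fsum ρ) (fun z => F (ov ρ z)) := by
      unfold TS
      simp only [sum_mul]
      rw [sum_comm]
      refine sum_congr rfl fun z _ => ?_
      split_ifs with hz
      · simp
      · simp
    rw [← h1, sum_div, mul_sum]
    exact sum_congr rfl fun a _ => by ring
  refine ⟨P, fun a => ?_, ?_, fun a ha => ?_, fun h β hβ => ?_⟩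
  · rw [hP]
    refine sum_nonneg fun ρ _ => mul_nonneg (hW0 ρ) (div_nonneg (TS_nonneg fun z => ?_)
      (TS_nonneg fun _ => zero_le_one))
    split_ifs <;> norm_num
  · have h1 := hPF (fun _ => 1)
    simp only [mul_one] at h1
    rw [h1]
    refine Eq.trans (sum_congr rfl fun ρ _ => ?_) hW1
    by_cases hρ : W ρ = 0
    · rw [hρ, zero_mul]
    · have := (hgood ρ (hWG ρ hρ)).2.2
      rw [hN]
      simp only
      rw [div_self this.ne', mul_one]
  · by_contra hcon
    apply ha
    rw [hP]
    refine sum_eq_zero fun ρ _ => ?_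
    have h1 : TS (stars ρ) (s - fsum ρ) (fun z => if ov ρ z = a then (1 : ℝ) else 0) = 0 := by
      unfold TS
      refine sum_eq_zero fun z _ => ?_
      by_cases h2 : ssum (stars ρ) z = s - fsum ρ
      · rw [if_pos h2]
        beta_reduce
        rw [if_neg]
        intro h3
        apply hcon
        rw [← h3, ssum_ov, h2]
        ring
      · rw [if_neg h2]
    rw [h1, zero_div, mul_zero]
  · have hb0 : ∀ ρ : Restr I, 0 ≤ ml (br (rs h ρ)) 0 := fun ρ => (ml_br_mem _).1
    have hb1 : ∀ ρ : Restr I, ml (br (rs h ρ)) 0 ≤ 1 := fun ρ => (ml_br_mem _).2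
    have h1 := hW (fun ρ => ml (br (rs h ρ)) 0) hb0 hb1
    have h2 := hW (fun ρ => if ¬ DTr t (rs h ρ) then (1 : ℝ) else 0)
      (fun ρ => by split_ifs <;> norm_num) (fun ρ => by split_ifs <;> norm_num)
    have h3 : ∑ ρ : Restr I, (∏ i, wq p (ρ i)) * ml (br (rs h ρ)) 0 = ml (br h) 0 := by
      have h4 := avg_restr p (0 : I → ℝ) ∅ (br h)
      have h5 : (fun i => (1 - p) * (0 : I → ℝ) i) = 0 := by funext i; simp
      rw [h5, card_empty, pow_zero, one_mul] at h4
      have h6 : ∀ ρ : Restr I, ∏ i, rwt p (0 : I → ℝ) i (ρ i) = ∏ i, wq p (ρ i) := by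
        intro ρ
        refine prod_congr rfl fun i _ => ?_
        cases ρ i with
        | none => rfl
        | some b => simp only [rwt, wq, Pi.zero_apply, mul_zero, add_zero]; ring
      refine Eq.trans (sum_congr rfl fun ρ _ => ?_) h4
      rw [h6]
      rfl
    rw [h3] at h1
    have h4 : ∑ ρ : Restr I, (∏ i, wq p (ρ i)) * (if ¬ DTr t (rs h ρ) then (1 : ℝ) else 0) ≤ β := hβ
    have h5 : ∀ ρ, |W ρ * (TS (stars ρ) (s - fsum ρ) (br (rs h ρ)) / N ρ) -
        W ρ * ml (br (rs h ρ)) 0| ≤ W ρ * (t * κ + if ¬ DTr t (rs h ρ) then (1 : ℝ) else 0) := by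
      intro ρ
      rw [← mul_sub, abs_mul, abs_of_nonneg (hW0 ρ)]
      by_cases hρ : W ρ = 0
      · rw [hρ]; simp
      · obtain ⟨c1, c2, c3⟩ := hgood ρ (hWG ρ hρ)
        refine mul_le_mul_of_nonneg_left ?_ (hW0 ρ)
        by_cases hd : DTr t (rs h ρ)
        · rw [if_neg (not_not.2 hd), add_zero]
          have h6 := slice_dtr hκ0 t (stars ρ) (s - fsum ρ) (rs h ρ) hd c1 c2
          have h7 : TS (stars ρ) (s - fsum ρ) (br (rs h ρ)) / N ρ - ml (br (rs h ρ)) 0 =
              (TS (stars ρ) (s - fsum ρ) (br (rs h ρ)) - N ρ * ml (br (rs h ρ)) 0) / N ρ := by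
            rw [sub_div, mul_div_cancel_left₀ _ c3.ne']
          rw [h7, abs_div, abs_of_pos (show 0 < N ρ from c3), div_le_iff₀ c3]
          refine h6.trans (le_of_eq ?_)
          rw [mul_comm]
        · rw [if_pos hd]
          have h6 : TS (stars ρ) (s - fsum ρ) (br (rs h ρ)) / N ρ ≤ 1 := by
            rw [div_le_one c3]
            exact TS_mono fun a => by unfold br; split_ifs <;> norm_num
          have h7 : 0 ≤ TS (stars ρ) (s - fsum ρ) (br (rs h ρ)) / N ρ :=
            div_nonneg (TS_nonneg fun a => by unfold br; split_ifs <;> norm_num) c3.le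
          have h8 : 0 ≤ (t : ℝ) * κ := by positivity
          have h9 := hb0 ρ
          have h10 := hb1 ρ
          rw [abs_le]
          constructor <;> linarith
    have h6 : |∑ ρ, W ρ * (TS (stars ρ) (s - fsum ρ) (br (rs h ρ)) / N ρ) -
        ∑ ρ, W ρ * ml (br (rs h ρ)) 0| ≤ t * κ + (β + e) := by
      rw [← sum_sub_distrib]
      refine (abs_sum_le_sum_abs _ _).trans ((sum_le_sum fun ρ _ => h5 ρ).trans ?_)
      simp only [mul_add]
      rw [sum_add_distrib, ← sum_mul, hW1, one_mul]
      have := (abs_le.1 h2).2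
      linarith
    rw [hPF]
    have h7 : ∀ ρ : Restr I, (fun z => br h (ov ρ z)) = br (rs h ρ) := fun ρ => rfl
    simp only [h7]
    have h8 := abs_le.1 h6
    have h9 := abs_le.1 h1
    rw [abs_le]
    constructor <;> linarith [h8.1, h8.2, h9.1, h9.2]

end Pool.Agent.K7x.EQ
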