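import Pool.Agent.K7x.EQ.Gates
import Pool.Agent.H9x.RT.Fam

/-!
# Languages in exact quantum polynomial time
-/

set_option autoImplicit false

namespace Pool.Agent.K7x.EQ

open Finset Pool.Agent.NPC Pool.Agent.H9x.RT Pool.Agent.H9x.Q Pool.Agent.H620R2.Gauge

/-- The language `L` is in `EQP` relative to `A`: some polynomial-time uniform family of quantum
circuits over the Hadamard gate, the phase gate `diag (1, exp (i π / 4))`, the controlled negation
and the oracle gate decides `L` without error. -/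
def IsEQP (A : Oracle) (L : Set (List Bool)) : Prop :=
  ∃ F : QFamily, ∀ x, (x ∈ L → F.acc A x = 1) ∧ (x ∉ L → F.acc A x = 0)

theorem IsEQP.isBQP {A : Oracle} {L : Set (List Bool)} (h : IsEQP A L) : IsBQP A L := by
  obtain ⟨F, hF⟩ := h
  refine ⟨F, fun x => ⟨fun hx => ?_, fun hx => ?_⟩⟩
  · rw [(hF x).1 hx]; norm_num
  · rw [(hF x).2 hx]; norm_num

section

variable {α : Type} [TEnc α]

theorem poly_hg {n p q : α → ℕ} (hn : Poly n) (hp : Poly p) (hq : UPoly q) :
    Poly (fun a => hg (n a) (p a) (q a)) := by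
  unfold hg
  exact NPC.Poly.map (UPoly.range hq) (poly_had (Poly.add (Poly.add (hn.comp (Poly.fst Poly.id))
    (NPC.Poly.const 5)) (Poly.add (hp.comp (Poly.fst Poly.id)) (Poly.snd Poly.id))))

theorem poly_dq {n K : α → ℕ} {pre : α → List Bool} (b₁ b₂ : Bool) (hn : UPoly n)
    (hpre : Poly pre) (hK : UPoly K) :
    Poly (fun a => dq (n a) (pre a) b₁ b₂ (K a)) := by
  unfold dq dqs
  refine Poly.cons (poly_query (Poly.append (NPC.Poly.map hpre (poly_cidx (hn.toPoly.comp
    (Poly.fst Poly.id)) (Poly.snd Poly.id))) (Poly.append (UPoly.range hn) (Poly.cons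
    (poly_cidx hn.toPoly (NPC.Poly.const b₁)) (Poly.cons (poly_cidx hn.toPoly (NPC.Poly.const b₂))
    (NPC.Poly.map (UPoly.range hK) ?_))))) (Poly.add hn.toPoly (NPC.Poly.const 2)))
    (NPC.Poly.const [])
  exact Poly.add (Poly.add (hn.toPoly.comp (Poly.fst Poly.id)) (NPC.Poly.const 5)) (Poly.snd Poly.id)

theorem poly_zq {n K : α → ℕ} {ppre : α → List Bool} (hn : UPoly n)
    (hppre : Poly ppre) (hK : UPoly K) :
    Poly (fun a => zq (n a) (ppre a) (K a)) := by
  unfold zq fq
  refine Poly.cons (poly_query (Poly.append (NPC.Poly.map hppre (poly_cidx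
        (hn.toPoly.comp (Poly.fst Poly.id)) (Poly.snd Poly.id))) (NPC.Poly.map (UPoly.range hK) ?_))
        (Poly.add hn.toPoly (NPC.Poly.const 2))) (NPC.Poly.const [])
  exact Poly.add (Poly.add (hn.toPoly.comp (Poly.fst Poly.id)) (NPC.Poly.const 5)) (Poly.snd Poly.id)

theorem poly_rep' {k : α → ℕ} {C : α → List Gate} (hk : UPoly k) (hC : Poly C) :
    Poly (fun a => rep (k a) (C a)) := by
  unfold rep
  exact Poly.flatMap (F := fun a _ => C a) (UPoly.range hk) (hC.comp (Poly.fst Poly.id))

theorem poly_cAm {k : α → ℕ} {C C' Z : α → List Gate} (hk : UPoly k) (hC : Poly C) (hC' : Poly C')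
    (hZ : Poly Z) : Poly (fun a => cAm (k a) (C a) (C' a) (Z a)) :=
  Poly.append hC (poly_rep' hk (Poly.append hZ (Poly.append hC' (Poly.append hZ hC))))

theorem poly_cAm' {k : α → ℕ} {C C' Z : α → List Gate} (hk : UPoly k) (hC : Poly C) (hC' : Poly C')
    (hZ : Poly Z) : Poly (fun a => cAm' (k a) (C a) (C' a) (Z a)) :=
  Poly.append (poly_rep' hk (Poly.append hC' (Poly.append hZ (Poly.append hC hZ)))) hC'

variable {n l r m k : α → ℕ} {pre ppre : α → List Bool}

theorem upoly_KK (hl : UPoly l) (hr : UPoly r) (hm : UPoly m) :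
    UPoly (fun a => KK (l a) (r a) (m a)) :=
  UPoly.add (UPoly.const 2) (UPoly.add (UPoly.add hl hr) hm)

theorem poly_SB (hn : UPoly n) (hl : UPoly l) (hr : UPoly r) :
    Poly (fun a => hg (n a) 1 (1 + l a + r a)) :=
  poly_hg hn.toPoly (NPC.Poly.const 1) (UPoly.add (UPoly.add (UPoly.const 1) hl) hr)

theorem poly_cU (hn : UPoly n) (hpre : Poly pre) (hl : UPoly l) (hr : UPoly r) (hm : UPoly m) :
    Poly (fun a => cU (n a) (pre a) (l a) (r a) (m a)) := by
  have hK := upoly_KK hl hr hm
  unfold cU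
  exact Poly.append (poly_SB hn hl hr) (Poly.append (poly_dq _ _ hn hpre hK) (Poly.append
    (poly_hg hn.toPoly (NPC.Poly.const 2) hl) (Poly.append (poly_dq _ _ hn hpre hK) (Poly.append
    (poly_dq _ _ hn hpre hK) (poly_SB hn hl hr)))))

theorem poly_cU' (hn : UPoly n) (hpre : Poly pre) (hl : UPoly l) (hr : UPoly r) (hm : UPoly m) :
    Poly (fun a => cU' (n a) (pre a) (l a) (r a) (m a)) := by
  have hK := upoly_KK hl hr hm
  unfold cU'
  exact Poly.append (poly_SB hn hl hr) (Poly.append (poly_dq _ _ hn hpre hK) (Poly.append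
    (poly_dq _ _ hn hpre hK) (Poly.append (poly_hg hn.toPoly (NPC.Poly.const 2) hl) (Poly.append
    (poly_dq _ _ hn hpre hK) (poly_SB hn hl hr)))))

theorem poly_cM (hn : UPoly n) (hpre : Poly pre) (hl : UPoly l) (hr : UPoly r) (hm : UPoly m) :
    Poly (fun a => cM (n a) (pre a) (l a) (r a) (m a)) := by
  have hK := upoly_KK hl hr hm
  have h1 : Poly (fun a => hg (n a) (2 + (l a + r a)) (m a)) := poly_hg hn.toPoly
    (Poly.add (NPC.Poly.const 2) (Poly.add hl.toPoly hr.toPoly)) hm
  unfold cM
  exact Poly.append h1 (Poly.append (poly_dq _ _ hn hpre hK) h1)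

theorem poly_cA (hn : UPoly n) (hpre : Poly pre) (hppre : Poly ppre) (hl : UPoly l) (hr : UPoly r)
    (hm : UPoly m) (hk : UPoly k) :
    Poly (fun a => cA (n a) (pre a) (ppre a) (l a) (r a) (m a) (k a)) := by
  have hZ := poly_zq hn hppre (upoly_KK hl hr hm)
  have h1 : Poly (fun a => hg (n a) 0 1) := poly_hg hn.toPoly (NPC.Poly.const 0) (UPoly.const 1)
  unfold cA
  exact Poly.append h1 (Poly.append (poly_cAm hk (poly_cU hn hpre hl hr hm)
    (poly_cU' hn hpre hl hr hm) hZ) (Poly.append (poly_cM hn hpre hl hr hm) h1))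

theorem poly_cA' (hn : UPoly n) (hpre : Poly pre) (hppre : Poly ppre) (hl : UPoly l) (hr : UPoly r)
    (hm : UPoly m) (hk : UPoly k) :
    Poly (fun a => cA' (n a) (pre a) (ppre a) (l a) (r a) (m a) (k a)) := by
  have hZ := poly_zq hn hppre (upoly_KK hl hr hm)
  have h1 : Poly (fun a => hg (n a) 0 1) := poly_hg hn.toPoly (NPC.Poly.const 0) (UPoly.const 1)
  unfold cA'
  exact Poly.append h1 (Poly.append (poly_cM hn hpre hl hr hm) (Poly.append
    (poly_cAm' hk (poly_cU hn hpre hl hr hm) (poly_cU' hn hpre hl hr hm) hZ) h1))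

theorem poly_cE (hn : UPoly n) (hpre : Poly pre) (hppre : Poly ppre) (hl : UPoly l) (hr : UPoly r)
    (hm : UPoly m) (hk : UPoly k) :
    Poly (fun a => cE (n a) (pre a) (ppre a) (l a) (r a) (m a) (k a)) := by
  have hK := upoly_KK hl hr hm
  have hZ := poly_zq hn hppre hK
  unfold cE
  exact Poly.append (poly_prep hn.toPoly) (Poly.append (poly_cAm (UPoly.const 1)
    (poly_cA hn hpre hppre hl hr hm hk) (poly_cA' hn hpre hppre hl hr hm hk) hZ)
    (poly_fin hn hppre hK))

end

/-- **A criterion for exact quantum polynomial time.** -/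
theorem isEQP_of {A : Oracle} {L : Set (List Bool)} (pre ppre : List Bool → List Bool)
    (j r m k : Polynomial ℕ)
    (hpre : Poly fun u : List Bool => pre u) (hppre : Poly fun u : List Bool => ppre u)
    (hpre' : ∀ u v : List Bool, u.length = v.length → pre u = pre v)
    (hppre' : ∀ u v : List Bool, u.length = v.length → ppre u = ppre v)
    (hA : ∀ (x : List Bool)
      (u : Fin (KK (j.eval x.length * 2) (r.eval x.length) (m.eval x.length)) → Bool),
      A (ppre x ++ List.ofFn u) = true ↔ u = fun _ => false)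
    (hL : ∀ x : List Bool, ∃ z : Ig (j.eval x.length * 2) (r.eval x.length) (m.eval x.length) → Bool,
      (∀ a b (u : Fin (KK (j.eval x.length * 2) (r.eval x.length) (m.eval x.length)) → Bool),
        A (pre x ++ (x ++ (a :: b :: List.ofFn u))) = Cn z a b (u ∘ pos _ _ _)) ∧
      (x ∈ L → Am (k.eval x.length) ((fo z + m1 z) / 2) + m2 z = 1) ∧
      (x ∉ L → Am (k.eval x.length) ((fo z + m1 z) / 2) + m2 z = 0)) :
    IsEQP A L := by
  have hlen : UPoly (fun u : List Bool => u.length) := UPoly.length Poly.id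
  have hj2 : UPoly (fun u : List Bool => j.eval u.length * 2) :=
    UPoly.mul (hlen.eval j) (UPoly.const 2)
  have hp : PolyTime (fun u : List Bool => bits (cE u.length (pre (List.replicate u.length false))
      (ppre (List.replicate u.length false)) (j.eval u.length * 2) (r.eval u.length)
      (m.eval u.length) (k.eval u.length))) := by
    refine polyTime_bits (poly_cE hlen ?_ ?_ hj2 (hlen.eval r) (hlen.eval m) (hlen.eval k))
    · exact hpre.congr fun u => hpre' _ _ (by simp)
    · exact hppre.congr fun u => hppre' _ _ (by simp)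
  refine ⟨⟨fun n => cE n (pre (List.replicate n false)) (ppre (List.replicate n false))
    (j.eval n * 2) (r.eval n) (m.eval n) (k.eval n), hp,
    Polynomial.C 6 + j * Polynomial.C 2 + r + m⟩, fun x => ?_⟩
  obtain ⟨z, hz, hz1, hz0⟩ := hL x
  have hacc : QFamily.acc ⟨fun n => cE n (pre (List.replicate n false))
      (ppre (List.replicate n false)) (j.eval n * 2) (r.eval n) (m.eval n) (k.eval n), hp,
      Polynomial.C 6 + j * Polynomial.C 2 + r + m⟩ A x =
      (Am 1 ((Am (k.eval x.length) ((fo z + m1 z) / 2) + m2 z) / 2)) ^ 2 := by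
    unfold QFamily.acc
    simp only
    rw [hpre' (List.replicate x.length false) x (by simp),
      hppre' (List.replicate x.length false) x (by simp)]
    have hm : x.length + 1 + (Polynomial.C 6 + j * Polynomial.C 2 + r + m).eval x.length =
        x.length + 5 + KK (j.eval x.length * 2) (r.eval x.length) (m.eval x.length) := by
      simp only [Polynomial.eval_add, Polynomial.eval_C, Polynomial.eval_mul, KK]
      ring
    rw [hm]
    exact prob_cE rfl (hA x) hz (k.eval x.length)
  constructor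
  · intro hx
    refine hacc.trans ?_
    rw [hz1 hx, Am_one_half]
    norm_num
  · intro hx
    refine hacc.trans ?_
    rw [hz0 hx, zero_div, Am_one_zero]
    norm_num

end Pool.Agent.K7x.EQ
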