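import Pool.Agent.K7x.EQ.Or

/-!
# Families of oracles with one block
-/

set_option autoImplicit false

namespace Pool.Agent.K7x.EQ

open Pool.Agent.NPC Pool.Agent.H622R2 Pool.Agent.H620R2.Gauge
  Pool.Agent.TH678.ETH Pool.Agent.TH678.SETH Pool.Agent.TH678.RS

open Pool.Agent.H622R2.Exp hiding Dat

open Pool.Agent.H9x.V1 (Ac ac_congr poly_rep poly_cS)

open Pool.Agent.H9x.RT (Dat lev lead frd lead_le frd_rep Kq cut_congr Adm mkp)

/-- the content given by the data -/
def enc (u : ℕ) (z : Iu u → Bool) : List Bool → Bool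
  | a :: b :: v => if h : v.length = KK (8 * u * 2) (8 * u) (m2e u) then
      Cn z a b (fun t => v.get ((pos _ _ _ t).cast h.symm)) else false
  | _ => false

/-- the content is given by the data -/
def Rp (u : ℕ) (c : List Bool → Bool) (z : Iu u → Bool) : Prop :=
  ∀ a b (w : Fin (KK (8 * u * 2) (8 * u) (m2e u)) → Bool),
    c (a :: b :: List.ofFn w) = Cn z a b (w ∘ pos (8 * u * 2) (8 * u) (m2e u))

theorem enc_rp (u : ℕ) (z : Iu u → Bool) : Rp u (enc u z) z := by
  intro a b w
  have h : (List.ofFn w).length = KK (8 * u * 2) (8 * u) (m2e u) := List.length_ofFn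
  simp only [enc]
  rw [dif_pos h]
  congr 1
  funext t
  rw [List.get_ofFn]
  rfl

/-- the data are determined by the content -/
theorem Rp.inj {u : ℕ} {c : List Bool → Bool} {z z' : Iu u → Bool} (h : Rp u c z) (h' : Rp u c z') :
    z = z' := by
  have key : ∀ a b (v : Rg (8 * u * 2) (8 * u) (m2e u) → Bool), Cn z a b v = Cn z' a b v := by
    intro a b v
    have h1 := h a b (v ∘ (pos (8 * u * 2) (8 * u) (m2e u)).symm)
    have h2 := h' a b (v ∘ (pos (8 * u * 2) (8 * u) (m2e u)).symm)
    have h3 : (v ∘ (pos (8 * u * 2) (8 * u) (m2e u)).symm) ∘ pos (8 * u * 2) (8 * u) (m2e u) = v := by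
      funext t
      simp
    rw [h3] at h1 h2
    rw [← h1, h2]
  funext i
  rcases i with (y | y) | (p | q)
  · have := key false false (mkv false false y (fun _ => false) (fun _ => false))
    simpa [Cn, mkv_0, mkv_1, yv_mkv] using this
  · have := key false true (mkv false false y (fun _ => false) (fun _ => false))
    simpa [Cn, mkv_0, mkv_1, yv_mkv] using this
  · have := key true false (mkv false true p.1 p.2 (fun _ => false))
    simpa [Cn, mkv_0, mkv_1, yv_mkv, zv_mkv] using this
  · have := key true true (mkv true false (fun _ => false) (fun _ => false) q)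
    simpa [Cn, mkv_0, y2v_mkv] using this

theorem Cn_cls (u : ℕ) (a b : Bool) (v : Rg (8 * u * 2) (8 * u) (m2e u) → Bool) :
    (∃ i, ∀ z : Iu u → Bool, Cn z a b v = z i) ∨ ∃ c, ∀ z : Iu u → Bool, Cn z a b v = c := by
  cases a <;> cases b
  · by_cases h : v (.inl 0) = false ∧ v (.inl 1) = false
    · exact Or.inl ⟨.inl (.inl (yv v)), fun z => by simp only [Cn]; rw [if_pos h]⟩
    · exact Or.inr ⟨IP (yv v), fun z => by simp only [Cn]; rw [if_neg h]⟩
  · by_cases h : v (.inl 0) = false ∧ v (.inl 1) = false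
    · exact Or.inl ⟨.inl (.inr (yv v)), fun z => by simp only [Cn]; rw [if_pos h]⟩
    · exact Or.inr ⟨IP (yv v), fun z => by simp only [Cn]; rw [if_neg h]⟩
  · by_cases h : v (.inl 0) = false ∧ v (.inl 1) = true
    · exact Or.inl ⟨.inr (.inl (yv v, zv v)), fun z => by simp only [Cn]; rw [if_pos h]⟩
    · exact Or.inr ⟨false, fun z => by simp only [Cn]; rw [if_neg h]⟩
  · by_cases h : v (.inl 0) = true
    · exact Or.inl ⟨.inr (.inr (y2v v)), fun z => by simp only [Cn]; rw [if_pos h]⟩
    · exact Or.inr ⟨false, fun z => by simp only [Cn]; rw [if_neg h]⟩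

theorem enc_cls (u : ℕ) (w : List Bool) :
    (∃ i, ∀ z : Iu u → Bool, enc u z w = z i) ∨ ∃ c, ∀ z : Iu u → Bool, enc u z w = c := by
  rcases w with _ | ⟨a, _ | ⟨b, v⟩⟩
  · exact Or.inr ⟨false, fun z => rfl⟩
  · exact Or.inr ⟨false, fun z => by cases a <;> rfl⟩
  · by_cases h : v.length = KK (8 * u * 2) (8 * u) (m2e u)
    · rcases Cn_cls u a b (fun t => v.get ((pos _ _ _ t).cast h.symm)) with ⟨i, hi⟩ | ⟨c, hc⟩
      · refine Or.inl ⟨i, fun z => ?_⟩
        simp only [enc]
        rw [dif_pos h, hi]
      · refine Or.inr ⟨c, fun z => ?_⟩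
        simp only [enc]
        rw [dif_pos h, hc]
    · right
      refine ⟨false, fun z => ?_⟩
      simp only [enc]
      rw [dif_neg h]

variable {S N : ℕ → Polynomial ℕ} {b : ℕ → ℕ} {g : ℕ → SAlg × Polynomial ℕ}
  {h : ℕ → Alg × Polynomial ℕ}

/-- a family of data in which one block at the level `s` is free, and no truth value of a block at
the higher levels matters -/
structure Fam (S : ℕ → Polynomial ℕ) (l s T : ℕ)
    (F : (Iu l → Bool) → Dat) : Prop where
  low : ∀ c, lev S c < s → ∀ z z', (F z).bl c = (F z').bl c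
  lowf : ∀ s' < s, ∀ z z', (F z).fr s' = (F z').fr s'
  blk : ∀ c, s ≤ lev S c → lev S c ≤ T →
    ((∀ z z', (F z).bl c = (F z').bl c) ∧ (lev S c = s ∨ ∀ z, (F z).bl c true = (F z).bl c false))
      ∨ ∀ z t, (F z).bl c t = enc l z
  fr : ∀ s', s ≤ s' → (∀ z z', (F z).fr s' = (F z').fr s') ∨ ∀ z, (F z).fr s' = enc l z

theorem Fam.adm (hc : Kq g h S N) {l s T : ℕ}
    {F : (Iu l → Bool) → Dat} (hF : Fam S l s T F)
    (hT : ∀ s', s ≤ s' → T < s' ^ (b s' + 1)) :
    Adm s T (fun z => orc S N b g h (F z)) := by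
  have hlow : ∀ q : List Bool, q.length ≤ s → ∀ z z',
      orc S N b g h (F z) q = orc S N b g h (F z') q := fun q hq z z' =>
    orc_loc hc.big (fun c hc' => hF.low c hc' z z') (fun s' hs' => hF.lowf s' hs' z z') _ q rfl hq
  set z₀ : Iu l → Bool := fun _ => false
  refine ⟨fun q hq => ⟨orc S N b g h (F z₀) q, fun z => hlow q hq z z₀⟩, fun q hqT => ?_⟩
  by_cases hp : ∃ p : Ix S N b, q = cI p
  · obtain ⟨p, rfl⟩ := hp
    cases p with
    | far p =>
      left
      refine ⟨orc S N b g h (F z₀) (cI (Ix.far p : Ix S N b)), fun z => ?_⟩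
      have hs : (S p.1.1).eval p.1.2.2.length < s := by
        by_contra hcon
        have h1 := hT _ (not_lt.1 hcon)
        obtain ⟨⟨e, i, y⟩, h2⟩ := p
        have h3 : (S e).eval y.length ^ (b ((S e).eval y.length) + 1) ≤ i := h2
        have h4 : (true :: true :: cS e i y).length ≤ T := hqT
        rw [List.length_cons, List.length_cons, length_cS] at h4
        simp only at h1
        omega
      rw [Bool.eq_iff_iff, orc_on hc.big, orc_on hc.big]
      exact ac_congr fun q hq => hlow q (by omega) z z₀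
    | blk e x w hw =>
      have hl := lt_blk (N := N) (b := b) e x w hw
      have hlT : lev S (e, x) ≤ T := by show (S e).eval x.length ≤ T; omega
      have key : lev S (e, x) ≤ s → ∀ z z', Ac g S e x (orc S N b g h (F z)) ↔
          Ac g S e x (orc S N b g h (F z')) := fun hls z z' =>
        ac_congr fun q hq => hlow q (by have : (S e).eval x.length ≤ s := hls; omega) z z'
      have hval : ∀ z, orc S N b g h (F z) (cI (Ix.blk e x w hw : Ix S N b)) =
          (F z).bl (e, x) (@decide (Ac g S e x (orc S N b g h (F z)))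
            (Classical.propDecidable _)) w := by
        intro z
        rw [Bool.eq_iff_iff, orc_on hc.big]
        rfl
      have key2 : lev S (e, x) ≤ s → (∀ z z', (F z).bl (e, x) = (F z').bl (e, x)) →
          ∃ c, ∀ z, orc S N b g h (F z) (cI (Ix.blk e x w hw : Ix S N b)) = c := by
        intro hls hb
        refine ⟨orc S N b g h (F z₀) (cI (Ix.blk e x w hw : Ix S N b)), fun z => ?_⟩
        rw [hval, hval, hb z z₀]
        have h2 : @decide (Ac g S e x (orc S N b g h (F z))) (Classical.propDecidable _) =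
            @decide (Ac g S e x (orc S N b g h (F z₀))) (Classical.propDecidable _) := by
          rw [decide_eq_decide]
          exact key hls z z₀
        rw [h2]
      by_cases hls : lev S (e, x) < s
      · exact Or.inl (key2 hls.le fun z z' => hF.low _ hls z z')
      · rcases hF.blk (e, x) (not_lt.1 hls) hlT with ⟨h1, h2⟩ | h1
        · left
          rcases h2 with h2 | h2
          · exact key2 h2.le h1
          · refine ⟨(F z₀).bl (e, x) true w, fun z => ?_⟩
            rw [hval, h1 z z₀]
            cases @decide (Ac g S e x (orc S N b g h (F z))) (Classical.propDecidable _)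
            · rw [← h2 z₀]
            · rfl
        · rcases enc_cls l w with ⟨i, hi⟩ | h3
          · right
            left
            exact ⟨i, fun z => by rw [hval, h1, hi]⟩
          · left
            exact ⟨h3.choose, fun z => by rw [hval, h1]; exact h3.choose_spec z⟩
    | np e i x hi =>
      right
      right
      refine ⟨{y | ∃ w : List Bool, w.length ≤ (h e).2.eval x.length ∧ y = pairBits w x}, (h e).1,
        (N e).eval x.length, ?_, ?_, fun z => ?_⟩
      · have h1 : (true :: false :: true :: cS e i x).length =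
            (cI (Ix.np e i x hi : Ix S N b)).length := rfl
        rw [← h1, List.length_cons, List.length_cons, List.length_cons, length_cS]
        omega
      · rintro y ⟨w, hw, rfl⟩
        exact hc.hbig e x w hw
      · rw [orc_on hc.big]
        constructor
        · rintro ⟨w, hw, hw'⟩
          exact ⟨_, ⟨w, hw, rfl⟩, hw'⟩
        · rintro ⟨_, ⟨w, hw, rfl⟩, hw'⟩
          exact ⟨w, hw, hw'⟩
  · push Not at hp
    have hoff : ∀ z, orc S N b g h (F z) q = base (F z) q := fun z => orc_off _ hp
    rcases q with _ | ⟨c₁, _ | ⟨c₂, u⟩⟩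
    · exact Or.inl ⟨false, fun z => by rw [hoff]; rfl⟩
    · exact Or.inl ⟨false, fun z => by rw [hoff]; cases c₁ <;> rfl⟩
    · cases c₁
      · cases c₂
        · exact Or.inl ⟨base (F z₀) (false :: false :: u), fun z => by rw [hoff]; rfl⟩
        · have hfr : ∀ z, orc S N b g h (F z) (false :: true :: u) =
              (F z).fr (lead u) (u.drop (2 * lead u + 1)) := fun z => by rw [hoff]; rfl
          by_cases hls : lead u < s
          · exact Or.inl ⟨(F z₀).fr (lead u) (u.drop (2 * lead u + 1)), fun z => by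
              rw [hfr, hF.lowf _ hls z z₀]⟩
          · rcases hF.fr _ (not_lt.1 hls) with h1 | h1
            · exact Or.inl ⟨(F z₀).fr (lead u) (u.drop (2 * lead u + 1)), fun z => by
                rw [hfr, h1 z z₀]⟩
            · rcases enc_cls l (u.drop (2 * lead u + 1)) with ⟨i, hi⟩ | h3
              · exact Or.inr (Or.inl ⟨i, fun z => by rw [hfr, h1, hi]⟩)
              · exact Or.inl ⟨h3.choose, fun z => by rw [hfr, h1]; exact h3.choose_spec z⟩
      · exact Or.inl ⟨false, fun z => by rw [hoff]; cases c₂ <;> rfl⟩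

/-- **Only one of the two contents matters.** -/
theorem orc_sel (hS : ∀ e n, n + e + 1 ≤ (S e).eval n) (B : ℕ × List Bool → Bool → List Bool → Bool)
    (fr : ℕ → List Bool → Bool) (c : ℕ × List Bool) :
    ∃ t : Bool, ∀ u v : List Bool → Bool,
      orc S N b g h ⟨Function.update B c (mkp u v), fr⟩ =
        orc S N b g h ⟨Function.update B c (mkp (mkp u v t) (mkp u v t)), fr⟩ := by
  obtain ⟨e, x⟩ := c
  refine ⟨@decide (Ac g S e x (orc S N b g h ⟨B, fr⟩)) (Classical.propDecidable _), fun u v => ?_⟩
  set t := @decide (Ac g S e x (orc S N b g h ⟨B, fr⟩)) (Classical.propDecidable _) with ht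
  have htv : ∀ v' : Bool → List Bool → Bool, @decide (Ac g S e x (orc S N b g h
      ⟨Function.update B (e, x) v', fr⟩)) (Classical.propDecidable _) = t := by
    intro v'
    rw [ht, decide_eq_decide]
    refine ac_congr fun q hq => orc_loc hS (n := (S e).eval x.length)
      (D := ⟨Function.update B (e, x) v', fr⟩) (D' := ⟨B, fr⟩) (fun c hc => ?_)
      (fun s _ => rfl) _ q rfl hq
    show Function.update B (e, x) v' c = B c
    rw [Function.update_of_ne]
    rintro rfl
    exact absurd hc (lt_irrefl _)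
  funext q
  generalize hm : q.length = m
  induction m using Nat.strong_induction_on generalizing q with
  | _ m ih =>
    by_cases hp : ∃ p : Ix S N b, q = cI p
    · obtain ⟨p, rfl⟩ := hp
      have hA : ∀ z : List Bool, z.length < (cI p).length →
          orc S N b g h ⟨Function.update B (e, x) (mkp u v), fr⟩ z =
          orc S N b g h ⟨Function.update B (e, x) (mkp (mkp u v t) (mkp u v t)), fr⟩ z :=
        fun z hz => ih z.length (by omega) z rfl
      rw [Bool.eq_iff_iff, orc_on hS, orc_on hS]
      cases p with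
      | far p =>
        exact cont_congr (g := g) (h := h) hS ⟨B, fr⟩ (Ix.far p : Ix S N b) hA
      | blk e' x' w hw =>
        show Function.update B (e, x) (mkp u v) (e', x') (@decide (Ac g S e' x' _)
          (Classical.propDecidable _)) w = true ↔ Function.update B (e, x) (mkp (mkp u v t) (mkp u v t))
          (e', x') (@decide (Ac g S e' x' _) (Classical.propDecidable _)) w = true
        by_cases hc : (e', x') = (e, x)
        · obtain ⟨rfl, rfl⟩ := Prod.mk.inj hc
          rw [Function.update_self, Function.update_self, htv, htv]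
          have : mkp (mkp u v t) (mkp u v t) t = mkp u v t := by
            unfold mkp
            split_ifs <;> rfl
          rw [this]
        · rw [Function.update_of_ne hc, Function.update_of_ne hc]
          have h2 : ∀ A A' : Oracle, (∀ z : List Bool, z.length ≤ (S e').eval x'.length → A z = A' z) →
              @decide (Ac g S e' x' A) (Classical.propDecidable _) =
              @decide (Ac g S e' x' A') (Classical.propDecidable _) := by
            intro A A' hAA
            rw [decide_eq_decide]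
            exact ac_congr hAA
          rw [h2 _ _ fun z hz => hA z (lt_of_le_of_lt hz (lt_blk e' x' w hw))]
      | np e' i x' hi =>
        exact cont_congr (g := g) (h := h) hS ⟨B, fr⟩ (Ix.np e' i x' hi : Ix S N b) hA
    · push Not at hp
      rw [orc_off _ hp, orc_off _ hp]
      rcases q with _ | ⟨c₁, _ | ⟨c₂, u'⟩⟩
      · rfl
      · cases c₁ <;> rfl
      · cases c₁ <;> cases c₂ <;> rfl



open Finset H568R2 Pool.Agent.H676 in
open Pool.Agent.H9x.RT (lv) in
theorem Fam.lv_le (hc : Kq g h S N) {s T J : ℕ}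
    {F : (Iu (us s) → Bool) → Dat} (hF : Fam S (us s) s T F)
    (hT : ∀ s', s ≤ s' → T < s' ^ (b s' + 1)) (hT1 : 1 ≤ T) (hsT : s ≤ T) (hJ : T ≤ s ^ 2 ^ J)
    {M : Alg} {x : List Bool} (hr : M.p.eval x.length ≤ T)
    (hcut : ∀ A : Oracle, M.out (CC.cut T A) x = M.out A x)
    {f : (Iu (us s) → Bool) → Bool}
    (hf : ∀ z, f z = true ↔ M.out (orc S N b g h (F z)) x = some [true])
    (c : ((Fin (8 * us s * 2) → Bool) × (Fin (8 * us s) → Bool)) ⊕ (Fin (m2e (us s)) → Bool) → Bool)
    (ρ₀ : Restr ((Fin (8 * us s * 2) → Bool) ⊕ (Fin (8 * us s * 2) → Bool))) :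
    lv 2 (br (rs (fun a => f (Sum.elim a c)) ρ₀)) 0 ≤ (LQ J T : ℝ) := by
  have h0 : Adm s T (fun a : (Fin (8 * us s * 2) → Bool) ⊕ (Fin (8 * us s * 2) → Bool) → Bool =>
      orc S N b g h (F (Sum.elim a c))) := Adm.comap (hF.adm hc hT)
    (φ := fun a => Sum.elim a c) fun i => by
      rcases i with i | i
      · exact Or.inr ⟨i, fun z => rfl⟩
      · exact Or.inl ⟨c i, fun z => rfl⟩
  have h1 := h0.lv_le (k := kq J T) (J := J) (by unfold kq; omega) hT1 hJ ?_
    (Y := {x}) (M := M) (by rintro y rfl; exact hr) (f := fun a => f (Sum.elim a c)) (by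
      intro z
      rw [hf, ← hcut]
      simp) ρ₀
  · refine h1.trans (le_of_eq ?_)
    unfold LQ
    push_cast
    ring
  · have hcard : Fintype.card ((Fin (8 * us s * 2) → Bool) ⊕ (Fin (8 * us s * 2) → Bool)) =
        2 ^ (8 * us s * 2 + 1) := by
      rw [Fintype.card_sum]
      simp only [Fintype.card_fun, Fintype.card_bool, Fintype.card_fin]
      rw [pow_succ]
      ring
    rw [hcard]
    have h2 : J + 1 ≤ 2 ^ J := Nat.lt_two_pow_self
    calc (J + 1) * 2 ^ (T + 1) * (2 ^ (8 * us s * 2 + 1)) ^ 2 ≤ 2 ^ J * 2 ^ (T + 1) *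
        (2 ^ (8 * us s * 2 + 1)) ^ 2 := Nat.mul_le_mul_right _ (Nat.mul_le_mul_right _ h2)
      _ = 2 ^ (J + (T + 1) + (8 * us s * 2 + 1) * 2) := by rw [← pow_mul, ← pow_add, ← pow_add]
      _ ≤ 2 ^ (kq J T + 1) := by
        refine Nat.pow_le_pow_right (by norm_num) ?_
        unfold kq
        rw [us_eq]
        omega

open Finset H568R2 Pool.Agent.H676 in
open Classical in
theorem Fam.dtr_le (hc : Kq g h S N) {s T J : ℕ} {I : Type} [Fintype I] [DecidableEq I]
    {F : (Iu (us s) → Bool) → Dat} (hF : Fam S (us s) s T F)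
    (hT : ∀ s', s ≤ s' → T < s' ^ (b s' + 1)) (hT1 : 1 ≤ T) (hJ : T ≤ s ^ 2 ^ J)
    {M : Alg} {x : List Bool} (hr : M.p.eval x.length ≤ T)
    (hcut : ∀ A : Oracle, M.out (CC.cut T A) x = M.out A x)
    {f : (Iu (us s) → Bool) → Bool}
    (hf : ∀ z, f z = true ↔ M.out (orc S N b g h (F z)) x = some [true])
    {φ : (I → Bool) → (Iu (us s) → Bool)}
    (hφ : ∀ i, (∃ c, ∀ z, φ z i = c) ∨ ∃ i', ∀ z, φ z i = z i') :
    Ex (wq (pq' J T)) (fun ρ : Restr I =>
      if ¬ DTr (kq J T) (rs (fun a => f (φ a)) ρ) then (1 : ℝ) else 0) ≤ bq J T := by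
  have h0 : Adm s T (fun a : I → Bool => orc S N b g h (F (φ a))) := Adm.comap (hF.adm hc hT) hφ
  exact Adm.dtr_le h0 (k := kq J T) (J := J) (by unfold kq; omega) hT1 hJ
    (Y := {x}) (M := M) (by rintro y rfl; exact hr) (f := fun a => f (φ a)) (by
      intro z
      rw [hf, ← hcut]
      simp)

end Pool.Agent.K7x.EQ
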