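import Pool.Agent.K7x.EQ.Fml

/-!
# One step of the construction
-/

set_option autoImplicit false

namespace Pool.Agent.K7x.EQ

open Pool.Agent.NPC Pool.Agent.H622R2 Pool.Agent.H620R2.Gauge
  Pool.Agent.TH678.ETH Pool.Agent.TH678.SETH Pool.Agent.TH678.RS Finset H568R2 Pool.Agent.H676

open Pool.Agent.H622R2.Exp hiding Dat

open Pool.Agent.H9x.RT (Dat lev lead frd lead_le frd_rep Kq cut_congr Adm mkp UU mem_UU card_lev
  exists_list block_diff hyb EE EC EE_eq EC_le lv)

/-- content of an accepting block -/
def Yes (s : ℕ) (c : List Bool → Bool) : Prop := ∃ z, Rp (us s) c z ∧ va (us s) z = 1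

/-- content of a rejecting block -/
def No (s : ℕ) (c : List Bool → Bool) : Prop := ∃ z, Rp (us s) c z ∧ va (us s) z = 0

theorem not_yes {s : ℕ} {c : List Bool → Bool} (h : No s c) : ¬ Yes s c := by
  rintro ⟨z', h1, h2⟩
  obtain ⟨z, h3, h4⟩ := h
  rw [h3.inj h1, h2] at h4
  norm_num at h4

theorem yes_enc {s : ℕ} {z : Iu (us s) → Bool} (h : va (us s) z = 1) : Yes s (enc (us s) z) :=
  ⟨z, enc_rp _ z, h⟩

theorem no_enc {s : ℕ} {z : Iu (us s) → Bool} (h : va (us s) z = 0) : No s (enc (us s) z) :=
  ⟨z, enc_rp _ z, h⟩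

/-- the sum of all distances -/
theorem sum_dl_le {S : ℕ → Polynomial ℕ} (hS : ∀ e n, n + e + 1 ≤ (S e).eval n) (n T : ℕ) {L : ℝ}
    (hL : 0 ≤ L) : ∑ c ∈ UU S n T, dl (lev S c) L ≤ (T + 1) * (2 * L / 2 ^ n) := by
  classical
  have hmap : ∀ c ∈ UU S n T, lev S c ∈ range (T + 1) := fun c hc => by
    rw [mem_range]
    have := ((mem_UU hS).1 hc).2
    omega
  rw [← sum_fiberwise_of_maps_to hmap]
  have hterm : ∀ s ∈ range (T + 1), ∑ c ∈ (UU S n T).filter (fun c => lev S c = s),
      dl (lev S c) L ≤ 2 * L / 2 ^ n := by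
    intro s _
    by_cases hsn : s < n
    · have : (UU S n T).filter (fun c => lev S c = s) = ∅ := by
        rw [filter_eq_empty_iff]
        intro c hc hcs
        have := ((mem_UU hS).1 hc).1
        omega
      rw [this, sum_empty]
      positivity
    · have h1 : ∑ c ∈ (UU S n T).filter (fun c => lev S c = s), dl (lev S c) L =
          ∑ c ∈ (UU S n T).filter (fun c => lev S c = s), L / 8 ^ s := by
        refine sum_congr rfl fun c hc => ?_
        rw [(mem_filter.1 hc).2, dl]
      rw [h1, sum_const, nsmul_eq_mul]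
      have h2 : ((((UU S n T).filter fun c => lev S c = s).card : ℕ) : ℝ) ≤ 2 ^ (2 * s + 1) := by
        have h3 := card_lev hS n T s
        have h4 : ((UU S n T).filter fun c => lev S c = s).card ≤ 2 ^ (2 * s + 1) := by
          convert h3
        exact_mod_cast h4
      have h3 : (0 : ℝ) ≤ L / 8 ^ s := by positivity
      refine (mul_le_mul_of_nonneg_right h2 h3).trans ?_
      have h4 : (2 : ℝ) ^ (2 * s + 1) * (L / 8 ^ s) = 2 * L / 2 ^ s := by
        have h5 : (8 : ℝ) ^ s = 2 ^ (2 * s) * 2 ^ s := by
          rw [← pow_add, show 2 * s + s = 3 * s by ring, pow_mul]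
          norm_num
        have h6 : (0 : ℝ) < 2 ^ (2 * s) := by positivity
        have h7 : (0 : ℝ) < 2 ^ s := by positivity
        rw [h5, pow_succ]
        field_simp
      rw [h4]
      have h5 : (2 : ℝ) ^ n ≤ 2 ^ s := pow_le_pow_right₀ (by norm_num) (not_lt.1 hsn)
      exact div_le_div_of_nonneg_left (by positivity) (by positivity) h5
  refine (sum_le_sum hterm).trans ?_
  rw [sum_const, card_range, nsmul_eq_mul]
  push_cast
  exact le_rfl

/-- the data are good -/
structure Good (S : ℕ → Polynomial ℕ) (D : Dat) : Prop where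
  bl : ∀ c, Yes (lev S c) (D.bl c true) ∧ No (lev S c) (D.bl c false)
  fr : ∀ s, Yes s (D.fr s) ∨ No s (D.fr s)

variable {S N : ℕ → Polynomial ℕ} {b : ℕ → ℕ} {g : ℕ → SAlg × Polynomial ℕ}
  {h : ℕ → Alg × Polynomial ℕ}

/-- the three parts of the data -/
theorem parts1 {u : ℕ} (a : (Fin (8 * u * 2) → Bool) ⊕ (Fin (8 * u * 2) → Bool) → Bool)
    (c : (Fin (m2e u) → Bool) → Bool) (i : Iu u) :
    (∃ d, ∀ b : (Fin (8 * u * 2) → Bool) × (Fin (8 * u) → Bool) → Bool,
      (Sum.elim a (Sum.elim b c) : Iu u → Bool) i = d) ∨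
      ∃ i', ∀ b : (Fin (8 * u * 2) → Bool) × (Fin (8 * u) → Bool) → Bool,
        (Sum.elim a (Sum.elim b c) : Iu u → Bool) i = b i' := by
  rcases i with i | (i | i)
  · exact Or.inl ⟨a i, fun b => rfl⟩
  · exact Or.inr ⟨i, fun b => rfl⟩
  · exact Or.inl ⟨c i, fun b => rfl⟩

/-- the three parts of the data -/
theorem parts2 {u : ℕ} (a : (Fin (8 * u * 2) → Bool) ⊕ (Fin (8 * u * 2) → Bool) → Bool)
    (b : (Fin (8 * u * 2) → Bool) × (Fin (8 * u) → Bool) → Bool) (i : Iu u) :
    (∃ d, ∀ c : (Fin (m2e u) → Bool) → Bool,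
      (Sum.elim a (Sum.elim b c) : Iu u → Bool) i = d) ∨
      ∃ i', ∀ c : (Fin (m2e u) → Bool) → Bool,
        (Sum.elim a (Sum.elim b c) : Iu u → Bool) i = c i' := by
  rcases i with i | (i | i)
  · exact Or.inl ⟨a i, fun b => rfl⟩
  · exact Or.inl ⟨b i, fun b => rfl⟩
  · exact Or.inr ⟨i, fun b => rfl⟩

open Classical in
/-- closeness of two distributions for suitable functions -/
def Clo (J T s : ℕ) (P Q : (Iu (us s) → Bool) → ℝ) : Prop :=
  s ≤ T → 32 * LQ J T ≤ 2 ^ (4 * us s) → ∀ h : (Iu (us s) → Bool) → Bool,
        (∀ c, ∀ ρ, lv 2 (br (rs (fun a => h (Sum.elim a c)) ρ)) 0 ≤ (LQ J T : ℝ)) →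
        (∀ a c, Ex (wq (pq' J T)) (fun ρ : Restr ((Fin (8 * us s * 2) → Bool) ×
            (Fin (8 * us s) → Bool)) =>
          if ¬ DTr (kq J T) (rs (fun b => h (Sum.elim a (Sum.elim b c))) ρ) then (1 : ℝ) else 0) ≤
            bq J T) →
        (∀ a b, Ex (wq (pq' J T)) (fun ρ : Restr (Fin (m2e (us s)) → Bool) =>
          if ¬ DTr (kq J T) (rs (fun c => h (Sum.elim a (Sum.elim b c))) ρ) then (1 : ℝ) else 0) ≤
            bq J T) →
        |∑ a, P a * br h a - ∑ a, Q a * br h a| ≤ dl s (LQ J T)

theorem clo_fam (hc : Kq g h S N) {s T J : ℕ} {P Q : (Iu (us s) → Bool) → ℝ} (hPQ : Clo J T s P Q)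
    {F : (Iu (us s) → Bool) → Dat} (hF : Fam S (us s) s T F)
    (hT : ∀ s', s ≤ s' → T < s' ^ (b s' + 1)) (hT1 : 1 ≤ T) (hsT : s ≤ T) (hJ : T ≤ s ^ 2 ^ J)
    (hbig : 32 * LQ J T ≤ 2 ^ (4 * us s))
    {M : Alg} {x : List Bool} (hr : M.p.eval x.length ≤ T)
    (hcut : ∀ A : Oracle, M.out (CC.cut T A) x = M.out A x)
    {f : (Iu (us s) → Bool) → Bool}
    (hf : ∀ z, f z = true ↔ M.out (orc S N b g h (F z)) x = some [true]) :
    |∑ a, P a * br f a - ∑ a, Q a * br f a| ≤ dl s (LQ J T) :=
  hPQ hsT hbig f (fun c ρ => hF.lv_le hc hT hT1 hsT hJ hr hcut hf c ρ)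
    (fun a c => hF.dtr_le hc hT hT1 hJ hr hcut hf (parts1 a c))
    (fun a b => hF.dtr_le hc hT hT1 hJ hr hcut hf (parts2 a b))

theorem one_step (hc : Kq g h S N) {n T J : ℕ} (M : Alg) (hn : 1 ≤ n) (hnT : n ≤ T)
    (hJ : T ≤ n ^ 2 ^ J)
    (hgap : ∀ s', n ≤ s' → T < s' ^ (b s' + 1)) (hr : M.p.eval n ≤ T)
    (hcut : ∀ A : Oracle, M.out (CC.cut T A) (List.replicate n false) =
      M.out A (List.replicate n false))
    (hnum : 535 * (T + 1) * LQ J T < 2 ^ n) (D : Dat) (hD : Good S D) :
    ∃ D' : Dat, Good S D' ∧ (∀ c, lev S c < n → D'.bl c = D.bl c) ∧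
      (∀ s < n, D'.fr s = D.fr s) ∧
      ¬ (Yes n (D'.fr n) ↔ M.out (orc S N b g h D') (List.replicate n false) = some [true]) := by
  classical
  by_contra hcon
  push Not at hcon
  set x := List.replicate n false with hx
  have hxl : x.length = n := by simp [hx]
  have hT1 : 1 ≤ T := hn.trans hnT
  choose P Q hP0 hP1 hPG hQ0 hQ1 hQG hPQ using fun s : ℕ => exists_lvl (J := J) hT1 s
  have hbig : ∀ s, n ≤ s → 32 * LQ J T ≤ 2 ^ (4 * us s) := by
    intro s hs
    have h1 : 32 * LQ J T ≤ 535 * (T + 1) * LQ J T :=
      Nat.mul_le_mul_right _ (by omega)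
    have h2 : 2 ^ n ≤ 2 ^ (4 * us s) := Nat.pow_le_pow_right (by norm_num) (by rw [us_eq]; omega)
    omega
  obtain ⟨C, hCn, hCm, hCp, hCs⟩ := exists_list hc.big n T
  set out : Dat → Bool := fun D => decide (M.out (orc S N b g h D) x = some [true]) with hout
  set frn : (Iu (us n) → Bool) → ℕ → List Bool → Bool :=
    fun y => Function.update D.fr n (enc (us n) y) with hfrn
  set φ : (Iu (us n) → Bool) →
    (ℕ × List Bool → Bool → List Bool → Bool) → ℝ :=
    fun y B => if out ⟨B, frn y⟩ then 1 else 0 with hφ
  set F : (ℕ × List Bool → Bool → List Bool → Bool) → ℝ := fun B =>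
    ∑ y, P n y * φ y B - ∑ y, Q n y * φ y B with hF
  set L : ℝ := (LQ J T : ℝ) with hL
  have hL1 : 1 ≤ L := by rw [hL]; exact_mod_cast one_le_LQ hT1
  have hdel : ∀ s, 0 ≤ dl s L := fun s => by
    unfold dl
    positivity
  -- the hybrid argument
  have hhyb := hyb (P := fun c => P (lev S c)) (Q := fun c => Q (lev S c))
    (enc := fun c => enc (us (lev S c))) (fun c => hP0 _) (fun c => hP1 _) (fun c => hQ0 _)
    (fun c => hQ1 _) F (fun c => 2 * dl (lev S c) L) C hCn (by
      intro c C₂ hsuf D' hcol
      have hcC : c ∈ C := hsuf.subset List.mem_cons_self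
      obtain ⟨hc1, hc2⟩ := (hCm c).1 hcC
      have hafter : ∀ c', lev S c < lev S c' → lev S c' ≤ T → c' ∈ C₂ := by
        intro c' h1 h2
        have h3 : c' ∈ C := (hCm c').2 ⟨by omega, h2⟩
        obtain ⟨C₁, hC₁⟩ := hsuf
        rw [← hC₁, List.mem_append] at h3
        rw [← hC₁, List.pairwise_append] at hCp
        rcases h3 with h3 | h3
        · have := hCp.2.2 c' h3 c List.mem_cons_self
          omega
        · rcases List.mem_cons.1 h3 with h3 | h3
          · subst h3
            exact absurd h1 (lt_irrefl _)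
          · exact h3
      have claim : ∀ y, |∑ z, ∑ z', P (lev S c) z * (Q (lev S c) z' *
          φ y (Function.update D' c (mkp (enc (us (lev S c)) z) (enc (us (lev S c)) z')))) -
          ∑ z', Q (lev S c) z' * φ y (Function.update D' c (mkp (enc (us (lev S c)) z')
            (enc (us (lev S c)) z')))| ≤ dl (lev S c) L := by
        intro y
        obtain ⟨t, ht⟩ := orc_sel (N := N) (b := b) (g := g) (h := h) hc.big D' (frn y) c
        set hh : (Iu (us (lev S c)) → Bool) → Bool :=
          fun z => out ⟨Function.update D' c (mkp (enc (us (lev S c)) z)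
            (enc (us (lev S c)) z)), frn y⟩ with hhh
        refine block_diff (hP1 _) (hQ1 _) (H := br hh) (t := t) (hdel _) (fun z z' => ?_)
          (fun z => rfl) ?_
        · show (if out ⟨_, frn y⟩ then (1 : ℝ) else 0) = if hh _ then 1 else 0
          have h1 : out ⟨Function.update D' c (mkp (enc (us (lev S c)) z)
              (enc (us (lev S c)) z')), frn y⟩ = hh (if t then z else z') := by
            rw [hhh, hout]
            simp only
            rw [ht]
            cases t <;> rfl
          rw [h1]
        · refine clo_fam (F := fun z => ⟨Function.update D' c (mkp (enc (us (lev S c)) z)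
            (enc (us (lev S c)) z)), frn y⟩) (b := b) hc (hPQ _) ?_
            (fun s' hs' => hgap s' (by omega)) hT1
            hc2 ?_ (hbig _ hc1) (M := M) (x := x) (by rw [hxl]; exact hr) hcut (f := hh)
            (fun z => ?_)
          · refine ⟨fun c' h1 z z' => ?_, fun s' _ z z' => rfl, fun c' h1 h2 => ?_,
              fun s' _ => Or.inl fun z z' => rfl⟩
            · have hne : c' ≠ c := by rintro rfl; exact absurd h1 (lt_irrefl _)
              show Function.update D' c _ c' = Function.update D' c _ c'
              rw [Function.update_of_ne hne, Function.update_of_ne hne]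
            · by_cases hne : c' = c
              · right
                intro z t
                subst hne
                show Function.update D' c' _ c' t = _
                rw [Function.update_self]
                cases t <;> rfl
              · left
                refine ⟨fun z z' => ?_, ?_⟩
                · show Function.update D' c _ c' = Function.update D' c _ c'
                  rw [Function.update_of_ne hne, Function.update_of_ne hne]
                · rcases h1.eq_or_lt with h3 | h3
                  · exact Or.inl h3.symm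
                  · right
                    intro z
                    show Function.update D' c _ c' true = Function.update D' c _ c' false
                    rw [Function.update_of_ne hne]
                    exact hcol c' (hafter c' h3 h2)
          · exact hJ.trans (Nat.pow_le_pow_left hc1 _)
          · rw [hhh, hout]
            simp only [decide_eq_true_eq]
      -- combine
      set X : ((ℕ × List Bool → Bool → List Bool → Bool) → ℝ) → ℝ := fun G =>
        ∑ z, ∑ z', P (lev S c) z * (Q (lev S c) z' *
          G (Function.update D' c (mkp (enc (us (lev S c)) z) (enc (us (lev S c)) z')))) -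
          ∑ z', Q (lev S c) z' * G (Function.update D' c (mkp (enc (us (lev S c)) z')
            (enc (us (lev S c)) z'))) with hX
      have hlin : ∀ w : (Iu (us n) → Bool) → ℝ,
          X (fun B => ∑ y, w y * φ y B) = ∑ y, w y * X (φ y) := by
        intro w
        rw [hX]
        simp only [mul_sub, mul_sum, sum_sub_distrib]
        congr 1
        · rw [sum_congr rfl fun z _ => sum_comm, sum_comm]
          exact sum_congr rfl fun y _ => sum_congr rfl fun z _ => sum_congr rfl fun z' _ => by ring
        · rw [sum_comm]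
          exact sum_congr rfl fun y _ => sum_congr rfl fun z' _ => by ring
      have hsub : X F = X (fun B => ∑ y, P n y * φ y B) - X (fun B => ∑ y, Q n y * φ y B) := by
        rw [hX, hF]
        simp only [mul_sub, sum_sub_distrib]
        ring
      have hbd : ∀ w : (Iu (us n) → Bool) → ℝ, (∀ y, 0 ≤ w y) →
          ∑ y, w y = 1 → |∑ y, w y * X (φ y)| ≤ dl (lev S c) L := by
        intro w hw hw1
        refine (abs_sum_le_sum_abs _ _).trans ?_
        have h1 : ∀ y, |w y * X (φ y)| ≤ w y * dl (lev S c) L := fun y => by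
          rw [abs_mul, abs_of_nonneg (hw y)]
          exact mul_le_mul_of_nonneg_left (claim y) (hw y)
        refine (sum_le_sum fun y _ => h1 y).trans ?_
        rw [← sum_mul, hw1, one_mul]
      show |X F| ≤ _
      rw [hsub, hlin, hlin]
      have h1 := abs_le.1 (hbd (P n) (hP0 n) (hP1 n))
      have h2 := abs_le.1 (hbd (Q n) (hQ0 n) (hQ1 n))
      rw [abs_le]
      constructor <;> linarith [h1.1, h1.2, h2.1, h2.2]) D.bl
  -- the support
  have hEE : EE (fun c => P (lev S c)) (fun c => Q (lev S c)) (fun c => enc (us (lev S c))) C F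
      D.bl = 1 := by
    refine EE_eq (G := fun c v => Yes (lev S c) (v true) ∧ No (lev S c) (v false))
      (fun c => hP1 _) (fun c => hQ1 _) (fun c z z' hz hz' => ⟨?_, ?_⟩) C D.bl fun B hB hB' => ?_
    · exact yes_enc (hPG _ z hz)
    · exact no_enc (hQG _ z' hz')
    · have hgood : ∀ y, (Yes n (enc (us n) y) ∨ No n (enc (us n) y)) →
          (Yes n (enc (us n) y) ↔ out ⟨B, frn y⟩ = true) := by
        intro y hy
        have h1 := hcon ⟨B, frn y⟩ ⟨fun c => ?_, fun s => ?_⟩ (fun c hc' => ?_) (fun s hs => ?_)
        · have h2 : frn y n = enc (us n) y := by rw [hfrn]; exact Function.update_self ..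
          change Yes n (frn y n) ↔ _ at h1
          rw [h2] at h1
          rw [h1, hout]
          simp only [decide_eq_true_eq]
        · by_cases hcC : c ∈ C
          · exact hB c hcC
          · show Yes _ (B c true) ∧ No _ (B c false)
            rw [hB' c hcC]
            exact hD.bl c
        · by_cases hs : s = n
          · subst hs
            have h2 : frn y s = enc (us s) y := by rw [hfrn]; exact Function.update_self ..
            show Yes s (frn y s) ∨ No s (frn y s)
            rw [h2]
            exact hy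
          · have h2 : frn y s = D.fr s := by rw [hfrn]; exact Function.update_of_ne hs ..
            show Yes s (frn y s) ∨ No s (frn y s)
            rw [h2]
            exact hD.fr s
        · exact hB' c fun h2 => by have := ((hCm c).1 h2).1; omega
        · show frn y s = D.fr s
          rw [hfrn]
          exact Function.update_of_ne (by omega) ..
      have h1 : ∀ y, P n y * φ y B = P n y := by
        intro y
        by_cases hy : P n y = 0
        · rw [hy, zero_mul]
        · have h2 : Yes n (enc (us n) y) := yes_enc (hPG _ y hy)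
          have h3 := (hgood y (Or.inl h2)).1 h2
          rw [hφ]
          simp only [h3, if_true, mul_one]
      have h2 : ∀ y, Q n y * φ y B = 0 := by
        intro y
        by_cases hy : Q n y = 0
        · rw [hy, zero_mul]
        · have h2 : No n (enc (us n) y) := no_enc (hQG _ y hy)
          have h3 : out ⟨B, frn y⟩ = false := by
            by_contra h4
            exact not_yes h2 ((hgood y (Or.inr h2)).2 (by simpa using h4))
          rw [hφ]
          simp only [h3, Bool.false_eq_true, if_false, mul_zero]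
      rw [hF]
      simp only [h1, h2, hP1, sum_const_zero, sub_zero]
  -- the free block
  have hEC : |EC (fun c => Q (lev S c)) (fun c => enc (us (lev S c))) C F D.bl| ≤
      dl n L := by
    refine EC_le (fun c => hQ0 _) (fun c => hQ1 _) C D.bl fun B hB _ => ?_
    show |∑ y, P n y * φ y B - ∑ y, Q n y * φ y B| ≤ _
    refine clo_fam (F := fun y => ⟨B, frn y⟩) (b := b) hc (hPQ n) ?_ hgap hT1 hnT hJ
      (hbig n le_rfl) (M := M) (x := x)
      (by rw [hxl]; exact hr) hcut (f := fun y => out ⟨B, frn y⟩) (fun y => ?_)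
    · refine ⟨fun c' _ z z' => rfl, fun s' hs' z z' => ?_, fun c' h1 h2 => ?_, fun s' hs' => ?_⟩
      · show frn z s' = frn z' s'
        have hne : s' ≠ n := by omega
        rw [hfrn]
        show Function.update D.fr n _ s' = Function.update D.fr n _ s'
        rw [Function.update_of_ne hne, Function.update_of_ne hne]
      · left
        exact ⟨fun z z' => rfl, Or.inr fun z => hB c' ((hCm c').2 ⟨h1, h2⟩)⟩
      · by_cases hs : s' = n
        · right
          intro z
          subst hs
          show frn z s' = _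
          rw [hfrn]
          exact Function.update_self ..
        · left
          intro z z'
          show frn z s' = frn z' s'
          rw [hfrn]
          show Function.update D.fr n _ s' = Function.update D.fr n _ s'
          rw [Function.update_of_ne hs, Function.update_of_ne hs]
    · rw [hout]
      simp only [decide_eq_true_eq]
  -- the contradiction
  rw [hEE, hCs, ← mul_sum] at hhyb
  have h1 := sum_dl_le hc.big n T (by linarith : (0 : ℝ) ≤ L)
  have h3 := abs_le.1 hhyb
  have h4 := abs_le.1 hEC
  have h5 : dl n L ≤ L / 2 ^ n :=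
    div_le_div_of_nonneg_left (by linarith) (by positivity)
      (pow_le_pow_left₀ (by norm_num) (by norm_num) n)
  have h6 : 535 * ((T : ℝ) + 1) * L < 2 ^ n := by rw [hL]; exact_mod_cast hnum
  have h7 : 2 * (((T : ℝ) + 1) * (2 * L / 2 ^ n)) + L / 2 ^ n < 1 := by
    have h8 : 2 * (((T : ℝ) + 1) * (2 * L / 2 ^ n)) + L / 2 ^ n =
        (4 * (T + 1) * L + L) / 2 ^ n := by ring
    rw [h8, div_lt_one (by positivity)]
    have h9 : (0 : ℝ) ≤ T * L := by positivity
    nlinarith
  linarith [h3.1, h3.2, h4.1, h4.2]

end Pool.Agent.K7x.EQ
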