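import Mathlib

/-!
# The amplitudes of amplitude amplification
-/

set_option autoImplicit false

namespace Pool.Agent.K7x.EQ

/-- the coefficients of the two vectors after `j` rounds -/
noncomputable def PQ (x : ℝ) : ℕ → ℝ × ℝ
  | 0 => (1, 0)
  | j + 1 => ((4 * x ^ 2 - 1) * (PQ x j).1 + 2 * x * (PQ x j).2, -(2 * x) * (PQ x j).1 - (PQ x j).2)

/-- the amplitude after `j` rounds -/
noncomputable def Am (j : ℕ) (x : ℝ) : ℝ := x * (PQ x j).1 + (PQ x j).2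

theorem PQ_zero (j : ℕ) : PQ 0 j = ((-1) ^ j, 0) := by
  induction j with
  | zero => simp [PQ]
  | succ j ih =>
    simp only [PQ, ih]
    refine Prod.ext ?_ ?_
    · simp only; ring
    · simp only; ring

theorem Am_zero (j : ℕ) : Am j 0 = 0 := by
  unfold Am
  rw [PQ_zero]
  simp

theorem Am_one_half : Am 1 (1 / 2) = -1 := by
  simp only [Am, PQ]
  norm_num

theorem Am_one_zero : Am 1 0 = 0 := Am_zero 1

theorem PQ_sin (θ : ℝ) : ∀ j : ℕ,
    Real.cos θ * (PQ (Real.sin θ) j).1 = (-1) ^ j * Real.cos ((2 * j + 1) * θ) ∧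
      Real.cos θ * (PQ (Real.sin θ) j).2 = (-1) ^ j * Real.sin ((2 * j) * θ)
  | 0 => by simp [PQ]
  | j + 1 => by
    obtain ⟨h1, h2⟩ := PQ_sin θ j
    have e1 : (2 * ((j + 1 : ℕ) : ℝ) + 1) * θ = (2 * j + 1) * θ + 2 * θ := by push_cast; ring
    have e2 : (2 * ((j + 1 : ℕ) : ℝ)) * θ = (2 * j) * θ + 2 * θ := by push_cast; ring
    have e3 : (2 * (j : ℝ) + 1) * θ = (2 * j) * θ + θ := by ring
    rw [e1, e2, Real.cos_add, Real.sin_add]
    rw [e3, Real.cos_add] at h1 ⊢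
    rw [Real.sin_add]
    have h3 := Real.sin_sq_add_cos_sq θ
    rw [Real.cos_two_mul, Real.sin_two_mul]
    simp only [PQ]
    have hu : (-1 : ℝ) ^ (j + 1) = -(-1) ^ j := by rw [pow_succ]; ring
    rw [hu]
    set C := Real.cos (2 * (j : ℝ) * θ)
    set S := Real.sin (2 * (j : ℝ) * θ)
    set c := Real.cos θ
    set s := Real.sin θ
    set P := (PQ s j).1
    set Q := (PQ s j).2
    set u : ℝ := (-1) ^ j
    constructor
    · have e4 : c * ((4 * s ^ 2 - 1) * P + 2 * s * Q) =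
          (4 * s ^ 2 - 1) * (c * P) + 2 * s * (c * Q) := by ring
      rw [e4, h1, h2]
      have h4 : s ^ 2 = 1 - c ^ 2 := by linarith
      linear_combination (u * (2 * C * c - 4 * S * s)) * h4
    · have e4 : c * (-(2 * s) * P - Q) = -(2 * s) * (c * P) - c * Q := by ring
      rw [e4, h1, h2]
      have h4 : s ^ 2 = 1 - c ^ 2 := by linarith
      linear_combination (2 * u * S) * h4

theorem Am_sin {θ : ℝ} (hθ : Real.cos θ ≠ 0) (j : ℕ) :
    Am j (Real.sin θ) = (-1) ^ j * Real.sin ((2 * j + 1) * θ) := by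
  obtain ⟨h1, h2⟩ := PQ_sin θ j
  have e3 : (2 * (j : ℝ) + 1) * θ = (2 * j) * θ + θ := by ring
  have h3 := Real.sin_sq_add_cos_sq θ
  apply mul_left_cancel₀ hθ
  unfold Am
  rw [mul_add, h2, mul_left_comm, h1, e3, Real.cos_add, Real.sin_add]
  set u : ℝ := (-1) ^ j
  linear_combination (u * Real.sin (2 * (j : ℝ) * θ)) * (-h3)

/-- integrality -/
theorem PQ_int {m : ℕ} {t : ℤ} : ∀ j : ℕ, ∃ a b : ℤ,
    (PQ ((t : ℝ) / 2 ^ m) j).1 = a / 2 ^ (2 * m * j) ∧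
      (PQ ((t : ℝ) / 2 ^ m) j).2 = b / 2 ^ (2 * m * j)
  | 0 => ⟨1, 0, by simp [PQ], by simp [PQ]⟩
  | j + 1 => by
    obtain ⟨a, b, h1, h2⟩ := PQ_int (m := m) (t := t) j
    refine ⟨(4 * t ^ 2 - 2 ^ (2 * m)) * a + 2 * t * 2 ^ m * b,
      -(2 * t) * 2 ^ m * a - 2 ^ (2 * m) * b, ?_, ?_⟩
    · simp only [PQ, h1, h2]
      have e1 : (2 : ℝ) ^ (2 * m * (j + 1)) = 2 ^ (2 * m * j) * (2 ^ m) ^ 2 := by
        rw [← pow_mul, ← pow_add]; congr 1; ring
      have e2 : (2 : ℝ) ^ (2 * m) = (2 ^ m) ^ 2 := by rw [← pow_mul]; congr 1; ring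
      push_cast
      rw [e1, e2]
      field_simp
    · simp only [PQ, h1, h2]
      have e1 : (2 : ℝ) ^ (2 * m * (j + 1)) = 2 ^ (2 * m * j) * (2 ^ m) ^ 2 := by
        rw [← pow_mul, ← pow_add]; congr 1; ring
      have e2 : (2 : ℝ) ^ (2 * m) = (2 ^ m) ^ 2 := by rw [← pow_mul]; congr 1; ring
      push_cast
      rw [e1, e2]
      field_simp

theorem Am_int {m : ℕ} (t : ℤ) (j : ℕ) : ∃ a : ℤ,
    Am j ((t : ℝ) / 2 ^ m) = a / 2 ^ (m * (2 * j + 1)) := by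
  obtain ⟨a, b, h1, h2⟩ := PQ_int (m := m) (t := t) j
  refine ⟨t * a + 2 ^ m * b, ?_⟩
  unfold Am
  rw [h1, h2]
  have e1 : (2 : ℝ) ^ (m * (2 * j + 1)) = 2 ^ (2 * m * j) * 2 ^ m := by
    rw [← pow_add]; congr 1; ring
  push_cast
  rw [e1]
  field_simp

/-- **The dyadic number.** For every even number `k ≥ 1` of rounds the number `sin (π / (2 (2 k + 1)))`
has a dyadic neighbour at which the amplitude is nearly one. -/
theorem exists_tau {k m : ℕ} (hk : 1 ≤ k) (hke : Even k) : ∃ t : ℤ, 0 ≤ t ∧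
    (t : ℝ) / 2 ^ m ≤ Real.sin (Real.pi / (2 * (2 * k + 1))) ∧
    Real.sin (Real.pi / (2 * (2 * k + 1))) ≤ (t : ℝ) / 2 ^ m + 1 / 2 ^ m ∧
    Am k ((t : ℝ) / 2 ^ m) ≤ 1 ∧
    1 - Am k ((t : ℝ) / 2 ^ m) ≤ 2 * (2 * (k : ℝ) + 1) ^ 2 / (2 ^ m) ^ 2 := by
  have hpi := Real.pi_pos
  have hkr : (1 : ℝ) ≤ k := by exact_mod_cast hk
  set θ : ℝ := Real.pi / (2 * (2 * k + 1)) with hθ
  have hθ0 : 0 < θ := by positivity
  have hθ1 : θ ≤ Real.pi / 6 := by
    rw [hθ]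
    exact div_le_div_of_nonneg_left hpi.le (by norm_num) (by linarith)
  have hs0 : 0 < Real.sin θ := Real.sin_pos_of_pos_of_lt_pi hθ0 (by linarith)
  set t : ℤ := ⌊Real.sin θ * 2 ^ m⌋ with ht
  have hm : (0 : ℝ) < 2 ^ m := by positivity
  have ht0 : 0 ≤ t := Int.floor_nonneg.2 (by positivity)
  have ht0' : (0 : ℝ) ≤ t := by exact_mod_cast ht0
  have h1 : (t : ℝ) / 2 ^ m ≤ Real.sin θ := by
    rw [div_le_iff₀ hm]
    exact Int.floor_le _
  have h2 : Real.sin θ ≤ (t : ℝ) / 2 ^ m + 1 / 2 ^ m := by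
    rw [← add_div, le_div_iff₀ hm]
    exact (Int.lt_floor_add_one _).le
  set τ : ℝ := (t : ℝ) / 2 ^ m with hτ
  have hτ0 : 0 ≤ τ := by positivity
  have hτ1 : τ ≤ 1 := h1.trans (Real.sin_le_one θ)
  set φ : ℝ := Real.arcsin τ with hφ
  have hφs : Real.sin φ = τ := Real.sin_arcsin (by linarith) hτ1
  have hφ0 : 0 ≤ φ := Real.arcsin_nonneg.2 hτ0
  have hφθ : φ ≤ θ := by
    rw [hφ]
    refine (Real.arcsin_le_arcsin h1).trans ?_
    rw [Real.arcsin_sin (by linarith) (by linarith)]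
  have hcφ : Real.cos φ ≠ 0 := by
    have : 0 < Real.cos φ := Real.cos_pos_of_mem_Ioo ⟨by linarith, by linarith⟩
    exact this.ne'
  have hA : Am k τ = Real.cos ((2 * k + 1) * (θ - φ)) := by
    rw [← hφs, Am_sin hcφ, hke.neg_one_pow, one_mul]
    have e1 : (2 * (k : ℝ) + 1) * θ = Real.pi / 2 := by
      rw [hθ]
      field_simp
    have e2 : (2 * (k : ℝ) + 1) * φ = Real.pi / 2 - (2 * k + 1) * (θ - φ) := by
      rw [mul_sub, e1]; ring
    rw [e2, Real.sin_pi_div_two_sub]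
  refine ⟨t, ht0, h1, h2, ?_, ?_⟩
  · rw [hA]
    exact Real.cos_le_one _
  · rw [hA]
    have h3 : 1 - Real.cos ((2 * k + 1) * (θ - φ)) ≤ ((2 * k + 1) * (θ - φ)) ^ 2 / 2 := by
      have := Real.one_sub_sq_div_two_le_cos (x := (2 * (k : ℝ) + 1) * (θ - φ))
      linarith
    -- the angle
    have h4 : (θ - φ) / 2 ≤ Real.sin θ - Real.sin φ := by
      have e1 : Real.sin θ - Real.sin φ = 2 * Real.sin ((θ - φ) / 2) * Real.cos ((θ + φ) / 2) :=
        Real.sin_sub_sin θ φ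
      rw [e1]
      have h5 : 0 ≤ (θ - φ) / 2 := by linarith
      have h6 : (θ - φ) / 2 ≤ Real.pi / 2 := by linarith
      have h7 : 2 / Real.pi * ((θ - φ) / 2) ≤ Real.sin ((θ - φ) / 2) := Real.mul_le_sin h5 h6
      have h8 : Real.cos (Real.pi / 6) ≤ Real.cos ((θ + φ) / 2) :=
        Real.cos_le_cos_of_nonneg_of_le_pi (by linarith) (by linarith) (by linarith)
      rw [Real.cos_pi_div_six] at h8
      have h9 : (17 : ℝ) / 10 ≤ Real.sqrt 3 := by
        rw [Real.le_sqrt (by norm_num) (by norm_num)]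
        norm_num
      have h10 : Real.pi ≤ 3.15 := Real.pi_lt_d2.le
      have h11 : 2 / 3.15 ≤ 2 / Real.pi := div_le_div_of_nonneg_left (by norm_num) hpi h10
      have h12 : (2 / 3.15 : ℝ) * ((θ - φ) / 2) ≤ Real.sin ((θ - φ) / 2) :=
        (mul_le_mul_of_nonneg_right h11 h5).trans h7
      have h13 : (0 : ℝ) ≤ Real.sin ((θ - φ) / 2) := le_trans (by positivity) h12
      have h14 : (17 : ℝ) / 20 ≤ Real.cos ((θ + φ) / 2) := by linarith
      nlinarith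
    rw [hφs] at h4
    have h5 : θ - φ ≤ 2 / 2 ^ m := by
      have : (2 : ℝ) / 2 ^ m = 2 * (1 / 2 ^ m) := by ring
      rw [this]
      linarith
    have h6 : (θ - φ) ^ 2 ≤ (2 / 2 ^ m) ^ 2 := pow_le_pow_left₀ (by linarith) h5 2
    refine h3.trans ?_
    rw [mul_pow]
    have h7 := mul_le_mul_of_nonneg_left h6 (sq_nonneg (2 * (k : ℝ) + 1))
    have h8 : (2 * (k : ℝ) + 1) ^ 2 * (2 / 2 ^ m) ^ 2 / 2 = 2 * (2 * (k : ℝ) + 1) ^ 2 / (2 ^ m) ^ 2 := by
      field_simp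
    rw [← h8]
    linarith

end Pool.Agent.K7x.EQ
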