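import Pool.Agent.H9x.RT.Pair

/-!
# Two distributions with concentrated forrelation
-/

set_option autoImplicit false
set_option linter.unusedSectionVars false

namespace Pool.Agent.K7x.EQ

open Finset H568R2 Pool.Agent.H676 Pool.Agent.H9x.RT

variable {X : Type*} [Fintype X] [DecidableEq X] {H : X → X → ℝ} {γ : ℝ}

open Classical in
/-- the forrelation is concentrated -/
theorem wD_conc [Nonempty X] (hH : Orth H γ) {ε δ η : ℝ} {T : ℕ} (hε : 0 < ε) (hε1 : ε ≤ 1)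
    (hη : 0 < η) (hs : Small (Wf H) δ) (hT : T * δ ^ 2 = ε) :
    ∑ a, (if |Fo H a - ε| ≤ η then (0 : ℝ) else 1) * wD (Wf H) δ T a ≤
      4 * (Fintype.card X : ℝ) * Real.exp (-(1 / (8 * ε))) +
        1 / η ^ 2 * (3 / Fintype.card X) := by
  have hN1 : 1 ≤ Fintype.card X := Fintype.card_pos
  have hN : (1 : ℝ) ≤ Fintype.card X := by exact_mod_cast hN1
  rw [sum_wD]
  have h1 : ∀ v, Cube v → ml (fun a => if |Fo H a - ε| ≤ η then (0 : ℝ) else 1) v ≤
      (if ∀ i, |v i| ≤ 1 / 2 then (0 : ℝ) else 1) + (1 / η ^ 2) *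
      ((if ∀ i, |v i| ≤ 1 / 2 then (ml (Fo H) v + (0 : ℕ) * δ ^ 2 - ε) ^ 2 +
        (0 : ℕ) * (δ ^ 2 / Fintype.card X) else 0) + 2 / Fintype.card X) := by
    intro v hv
    by_cases hb : ∀ i, |v i| ≤ 1 / 2
    · rw [if_pos hb, if_pos hb]
      have h2 : ml (fun a => if |Fo H a - ε| ≤ η then (0 : ℝ) else 1) v ≤
          ml (fun a => (1 / η ^ 2) * (Fo H a ^ 2 + ((-(2 * ε)) * Fo H a + ε ^ 2))) v := by
        refine ml_mono (fun a => ?_) hv
        have h3 : Fo H a ^ 2 + ((-(2 * ε)) * Fo H a + ε ^ 2) = (Fo H a - ε) ^ 2 := by ring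
        rw [h3]
        split_ifs with h4
        · positivity
        · have h5 : η ^ 2 ≤ |Fo H a - ε| ^ 2 :=
            pow_le_pow_left₀ hη.le (not_le.1 h4).le 2
          rw [sq_abs] at h5
          rw [div_mul_eq_mul_div, one_mul, le_div_iff₀ (by positivity), one_mul]
          exact h5
      refine h2.trans ?_
      rw [ml_smul, ml_add', ml_add', ml_smul, ml_const]
      have h3 := ml_Fo_sq hH hv
      rw [zero_add]
      refine mul_le_mul_of_nonneg_left ?_ (by positivity)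
      push_cast
      nlinarith
    · rw [if_neg hb, if_neg hb]
      have h2 : ml (fun a => if |Fo H a - ε| ≤ η then (0 : ℝ) else 1) v ≤ ml (fun _ => 1) v :=
        ml_mono (fun a => by split_ifs <;> norm_num) hv
      rw [ml_const] at h2
      have h3 : (0 : ℝ) ≤ (1 / η ^ 2) * (0 + 2 / Fintype.card X) := by positivity
      linarith
  have h2 := Sn_mono hs T h1 0 cube_zero
  refine h2.trans ?_
  rw [Sn_add T, Sn_smul T, Sn_add T, Sn_const]
  have h3 := Sn_sq hH hs ε T 0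
  have h4 := Sn_out (W := Wf H) hs (gram_row hH) (lam := 1 / (2 * ε)) (by positivity) T
  have h5 : Real.exp (T * ((1 / (2 * ε) * δ) ^ 2 / 2)) * (Fintype.card (X ⊕ X) *
      (2 * Real.exp (-(1 / (2 * ε)) / 2))) = 4 * (Fintype.card X : ℝ) * Real.exp (-(1 / (8 * ε))) := by
    have h6 : (T : ℝ) * ((1 / (2 * ε) * δ) ^ 2 / 2) = 1 / (8 * ε) := by
      calc (T : ℝ) * ((1 / (2 * ε) * δ) ^ 2 / 2) = (T * δ ^ 2) * (1 / (8 * ε ^ 2)) := by ring
        _ = 1 / (8 * ε) := by rw [hT]; field_simp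
    have h7 : Real.exp (-(1 / (8 * ε))) = Real.exp (1 / (8 * ε)) *
        Real.exp (-(1 / (2 * ε)) / 2) := by
      rw [← Real.exp_add]
      congr 1
      field_simp
      ring
    rw [h6, h7, Fintype.card_sum]
    push_cast
    ring
  rw [h5] at h4
  have h8 : (((T + 0 : ℕ) : ℝ) * δ ^ 2 - ε) ^ 2 + ((T + 0 : ℕ) : ℝ) * (δ ^ 2 / (Fintype.card X : ℝ)) ≤
      1 / Fintype.card X := by
    rw [add_zero, hT, sub_self]
    have : (T : ℝ) * (δ ^ 2 / (Fintype.card X : ℝ)) = (T * δ ^ 2) / Fintype.card X := by ring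
    rw [this, hT]
    have h9 : ε / (Fintype.card X : ℝ) ≤ 1 / Fintype.card X :=
      div_le_div_of_nonneg_right hε1 (by positivity)
    linarith
  have h9 := h3.trans h8
  have h10 : (3 : ℝ) / Fintype.card X = 1 / Fintype.card X + 2 / Fintype.card X := by ring
  rw [h10]
  refine add_le_add h4 (mul_le_mul_of_nonneg_left ?_ (by positivity))
  simp only
  linarith

open Classical in
/-- **Two distributions with concentrated forrelation.** -/
theorem exists_conc {l : ℕ} (hl : 1 ≤ l) {ε η : ℝ} (hε0 : 0 < ε) (hε1 : ε ≤ 1 / (16 * l))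
    (hη : 0 < η) (hη1 : η ≤ 1) (hq : 7 / (2 ^ l * η ^ 2) < 1) :
    ∃ P Q : ((Fin l → Bool) ⊕ (Fin l → Bool) → Bool) → ℝ,
      (∀ a, 0 ≤ P a) ∧ ∑ a, P a = 1 ∧ (∀ a, P a ≠ 0 → |Fo (Hm l) a - ε| ≤ η) ∧
      (∀ a, 0 ≤ Q a) ∧ ∑ a, Q a = 1 ∧ (∀ a, Q a ≠ 0 → |Fo (Hm l) a| ≤ η) ∧
      ∀ (h : ((Fin l → Bool) ⊕ (Fin l → Bool) → Bool) → Bool) (L : ℝ), 1 ≤ L →
        (∀ ρ, lv 2 (br (rs h ρ)) 0 ≤ L) →
        |∑ a, P a * br h a - ∑ a, Q a * br h a| ≤ L / Real.sqrt 2 ^ l + 9 / (2 ^ l * η ^ 2) := by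
  have hl1 : (1 : ℝ) ≤ l := by exact_mod_cast hl
  have hH := orth_Hm l
  have hcard : (Fintype.card (Fin l → Bool) : ℝ) = 2 ^ l := by simp
  have h2l : (0 : ℝ) < 2 ^ l := by positivity
  have hε2 : ε ≤ 1 := hε1.trans (by
    rw [div_le_one (by positivity)]
    linarith)
  have hη2 : η ^ 2 ≤ 1 := pow_le_one₀ hη.le hη1
  have hq' : (0 : ℝ) < 2 ^ l * η ^ 2 := by positivity
  obtain ⟨T, δ, h0, h1, hs, hT, hτ⟩ := walk_exists hH hε0 (τ := 1 / 2 ^ l) (by positivity)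
  have hgood := wD_conc hH hε0 hε2 hη hs hT
  have hexp : 4 * (Fintype.card (Fin l → Bool) : ℝ) * Real.exp (-(1 / (8 * ε))) +
      1 / η ^ 2 * (3 / Fintype.card (Fin l → Bool)) ≤ 7 / (2 ^ l * η ^ 2) := by
    rw [hcard]
    have e1 : (l : ℝ) * 2 ≤ 1 / (8 * ε) := by
      rw [le_div_iff₀ (by positivity)]
      rw [le_div_iff₀ (by positivity)] at hε1
      linarith
    have e0 : Real.exp (-(1 / (8 * ε))) ≤ Real.exp (-((l : ℝ) * 2)) := Real.exp_le_exp.2 (by linarith)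
    have e2 : 1 / η ^ 2 * (3 / (2 : ℝ) ^ l) = 3 / (2 ^ l * η ^ 2) := by
      field_simp
    have e3 : (2 : ℝ) ^ l * 2 ^ l ≤ Real.exp 2 ^ l := by
      rw [← mul_pow]
      refine pow_le_pow_left₀ (by norm_num) ?_ l
      have h5 := Real.add_one_le_exp (1 : ℝ)
      have h6 : Real.exp 2 = Real.exp 1 * Real.exp 1 := by
        rw [← Real.exp_add]; norm_num
      rw [h6]
      nlinarith
    have e4 : 4 * (2 : ℝ) ^ l * Real.exp (-((l : ℝ) * 2)) ≤ 4 / 2 ^ l := by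
      rw [Real.exp_neg, Real.exp_nat_mul, ← div_eq_mul_inv, div_le_div_iff₀ (by positivity)
        (by positivity)]
      nlinarith
    have e5 : 4 / (2 : ℝ) ^ l ≤ 4 / (2 ^ l * η ^ 2) :=
      div_le_div_of_nonneg_left (by norm_num) hq' (mul_le_of_le_one_right h2l.le hη2)
    have e6 : 7 / ((2 : ℝ) ^ l * η ^ 2) = 4 / (2 ^ l * η ^ 2) + 3 / (2 ^ l * η ^ 2) := by ring
    have e7 : 4 * (2 : ℝ) ^ l * Real.exp (-(1 / (8 * ε))) ≤
        4 * (2 : ℝ) ^ l * Real.exp (-((l : ℝ) * 2)) :=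
      mul_le_mul_of_nonneg_left e0 (by positivity)
    rw [e2, e6]
    linarith
  obtain ⟨P, hP0, hP1, hPG, hP⟩ := cond_exists (wD (Wf (Hm l)) δ T) (wD_nonneg hs T)
    (sum_wD_one T) (fun a => |Fo (Hm l) a - ε| ≤ η)
    (p := 7 / (2 ^ l * η ^ 2)) (by
      refine le_trans (le_of_eq ?_) (hgood.trans hexp)
      refine sum_congr rfl fun a _ => ?_
      split_ifs <;> simp) hq
  set U : ((Fin l → Bool) ⊕ (Fin l → Bool) → Bool) → ℝ := fun _ =>
    1 / 2 ^ Fintype.card ((Fin l → Bool) ⊕ (Fin l → Bool)) with hU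
  have hUs : ∀ F : ((Fin l → Bool) ⊕ (Fin l → Bool) → Bool) → ℝ, ∑ a, U a * F a = ml F 0 := by
    intro F
    rw [ml_zero, sum_div]
    exact sum_congr rfl fun a _ => by rw [hU]; ring
  have hq2 : 1 / (2 ^ l * η ^ 2) < 1 := lt_of_le_of_lt
    (div_le_div_of_nonneg_right (by norm_num) hq'.le) hq
  obtain ⟨Q, hQ0, hQ1, hQG, hQ⟩ := cond_exists U (fun a => by rw [hU]; positivity)
    (by
      have := hUs (fun _ => 1)
      rw [ml_const] at this
      simpa using this) (fun a => |Fo (Hm l) a| ≤ η)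
    (p := 1 / (2 ^ l * η ^ 2)) (by
      have h5 := unif_good hH hη
      rw [← hUs, hcard] at h5
      refine le_trans (le_of_eq ?_) h5
      refine sum_congr rfl fun a _ => ?_
      split_ifs <;> simp) hq2
  refine ⟨P, Q, hP0, hP1, hPG, hQ0, hQ1, hQG, fun h L hL1 hL => ?_⟩
  have hb0 : ∀ a, 0 ≤ br h a := fun a => by unfold br; split_ifs <;> norm_num
  have hb1 : ∀ a, br h a ≤ 1 := fun a => by unfold br; split_ifs <;> norm_num
  have h5 := abs_le.1 (hP (br h) hb0 hb1)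
  have h6 := abs_le.1 (hQ (br h) hb0 hb1)
  have h7 := abs_le.1 (wD_close hH h0 h1 hs hT hτ h (by linarith : (0 : ℝ) ≤ L) hL)
  rw [hUs] at h6
  have e1 : ∑ a, wD (Wf (Hm l)) δ T a * br h a = ∑ a, br h a * wD (Wf (Hm l)) δ T a :=
    sum_congr rfl fun a _ => mul_comm _ _
  rw [e1] at h5
  have h8 : ε * (1 / Real.sqrt 2 ^ l * (4 * L)) + 1 / 2 ^ l + 7 / (2 ^ l * η ^ 2) +
      1 / (2 ^ l * η ^ 2) ≤ L / Real.sqrt 2 ^ l + 9 / (2 ^ l * η ^ 2) := by
    have hs2 : 0 < Real.sqrt 2 ^ l := pow_pos sqrt2_pos l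
    have h9 : ε * (1 / Real.sqrt 2 ^ l * (4 * L)) ≤ L / Real.sqrt 2 ^ l := by
      have h10 : ε ≤ 1 / 4 := hε1.trans (one_div_le_one_div_of_le (by norm_num) (by linarith))
      have h11 : ε * (1 / Real.sqrt 2 ^ l * (4 * L)) = (4 * ε) * (L / Real.sqrt 2 ^ l) := by ring
      rw [h11]
      exact mul_le_of_le_one_left (by positivity) (by linarith)
    have h12 : 1 / (2 : ℝ) ^ l ≤ 1 / (2 ^ l * η ^ 2) :=
      div_le_div_of_nonneg_left (by norm_num) hq' (mul_le_of_le_one_right h2l.le hη2)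
    have e6 : 9 / ((2 : ℝ) ^ l * η ^ 2) = 7 / (2 ^ l * η ^ 2) + 1 / (2 ^ l * η ^ 2) +
      1 / (2 ^ l * η ^ 2) := by ring
    rw [e6]
    linarith
  rw [abs_le]
  constructor <;> linarith [h5.1, h5.2, h6.1, h6.2, h7.1, h7.2]

end Pool.Agent.K7x.EQ
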