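import Pool.Agent.K7x.EQ.Val

/-!
# The amplitude computed by the circuit, second part
-/

set_option autoImplicit false
set_option linter.unusedSectionVars false

namespace Pool.Agent.K7x.EQ

open Finset Pool.Agent.H9x.RT

/-- the value of a self-dual bent function -/
def IPs {j : ℕ} (y : Fin (j * 2) → Bool) : ℤ :=
  ∏ p : Fin j, if (cpy y p 0 && cpy y p 1) = true then -1 else 1

/-- a self-dual bent function -/
def IP {j : ℕ} (y : Fin (j * 2) → Bool) : Bool := decide (IPs y = -1)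

theorem IPs_cases {j : ℕ} (y : Fin (j * 2) → Bool) : IPs y = 1 ∨ IPs y = -1 := by
  unfold IPs
  refine prod_induction _ (fun a : ℤ => a = 1 ∨ a = -1) ?_ (Or.inl rfl) ?_
  · rintro a b (rfl | rfl) (rfl | rfl) <;> norm_num
  · intro p _
    split_ifs
    · exact Or.inr rfl
    · exact Or.inl rfl

theorem sgc_IP {j : ℕ} (y : Fin (j * 2) → Bool) : sgc (IP y) = (IPs y : ℂ) := by
  unfold IP sgc
  rcases IPs_cases y with h | h
  · rw [h]; simp
  · rw [h]; simp

/-- the function is self-dual -/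
theorem wal_IP {j : ℕ} (y : Fin (j * 2) → Bool) :
    ∑ y' : Fin (j * 2) → Bool, (∏ i, hk (y i) (y' i)) * sgc (IP y') = sgc (IP y) := by
  set b : (Fin 2 → Bool) → ℂ := fun v => if (v 0 && v 1) = true then -1 else 1 with hb
  have h1 : ∀ y : Fin (j * 2) → Bool, sgc (IP y) = ∏ p : Fin j, b (cpy y p) := by
    intro y
    rw [sgc_IP, IPs]
    push_cast
    rfl
  have h2 : wal b = b := by
    funext v
    unfold wal
    rw [← (finTwoArrowEquiv Bool).symm.sum_comp, Fintype.sum_prod_type, Fintype.sum_bool,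
      Fintype.sum_bool, Fintype.sum_bool]
    have h2 : s2 ≠ 0 := s2_ne
    have h3 : s2 ^ 2 = 2 := by rw [sq]; exact s2_sq
    simp only [Fin.prod_univ_two, finTwoArrowEquiv_symm_apply, hb, hk, Matrix.cons_val_zero,
      Matrix.cons_val_one]
    cases v 0 <;> cases v 1 <;>
      simp only [Bool.and_true, Bool.and_false, Bool.and_self, if_true, Bool.false_eq_true,
        if_false] <;> field_simp <;> rw [h3] <;> norm_num
  have h3 := congrFun (wal_cpy (k := j) (l := 2) b) y
  rw [h2, ← h1] at h3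
  rw [← h3]
  unfold wal
  exact sum_congr rfl fun y' _ => by rw [h1]; ring

/-- the positions of the data of a block -/
abbrev Ig (l r m : ℕ) : Type :=
  ((Fin l → Bool) ⊕ (Fin l → Bool)) ⊕ (((Fin l → Bool) × (Fin r → Bool)) ⊕ (Fin m → Bool))

instance instFintypeIg (l r m : ℕ) : Fintype (Ig l r m → Bool) := @Pi.instFintype _ _ _ _ _

variable {j r m : ℕ}

/-- the answers given by a block -/
def Cn (z : Ig (j * 2) r m → Bool) : Bool → Bool → (Rg (j * 2) r m → Bool) → Bool
  | false, false, v =>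
      if v (.inl 0) = false ∧ v (.inl 1) = false then z (.inl (.inl (yv v))) else IP (yv v)
  | false, true, v =>
      if v (.inl 0) = false ∧ v (.inl 1) = false then z (.inl (.inr (yv v))) else IP (yv v)
  | true, false, v =>
      if v (.inl 0) = false ∧ v (.inl 1) = true then z (.inr (.inl (yv v, zv v))) else false
  | true, true, v => if v (.inl 0) = true then z (.inr (.inr (y2v v))) else false

/-- the first map -/
noncomputable def Uo (D : Bool → Bool → (Rg (j * 2) r m → Bool) → Bool) :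
    ((Rg (j * 2) r m → Bool) → ℂ) →ₗ[ℂ] ((Rg (j * 2) r m → Bool) → ℂ) :=
  pw SB ∘ₗ ph (D true false) ∘ₗ ph (D false true) ∘ₗ pw SL ∘ₗ ph (D false false) ∘ₗ pw SB

/-- its inverse -/
noncomputable def Uo' (D : Bool → Bool → (Rg (j * 2) r m → Bool) → Bool) :
    ((Rg (j * 2) r m → Bool) → ℂ) →ₗ[ℂ] ((Rg (j * 2) r m → Bool) → ℂ) :=
  ((((pw SB ∘ₗ ph (D false false)) ∘ₗ pw SL) ∘ₗ ph (D false true)) ∘ₗ ph (D true false)) ∘ₗ pw SB

theorem ap_U (D : Bool → Bool → (Rg (j * 2) r m → Bool) → Bool) : AP (Uo D) (Uo' D) :=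
  (((((ap_pw SB).comp (ap_ph (D false false))).comp (ap_pw SL)).comp (ap_ph (D false true))).comp
    (ap_ph (D true false))).comp (ap_pw SB)

/-- the second map -/
noncomputable def Mo (D : Bool → Bool → (Rg (j * 2) r m → Bool) → Bool) :
    ((Rg (j * 2) r m → Bool) → ℂ) →ₗ[ℂ] ((Rg (j * 2) r m → Bool) → ℂ) :=
  pw SM ∘ₗ ph (D true true) ∘ₗ pw SM

theorem ap_M (D : Bool → Bool → (Rg (j * 2) r m → Bool) → Bool) : AP (Mo D) (Mo D) :=
  ((ap_pw SM).comp (ap_ph (D true true))).comp (ap_pw SM)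

/-- the whole map -/
noncomputable def Ao (D : Bool → Bool → (Rg (j * 2) r m → Bool) → Bool) (k : ℕ) :
    ((Rg (j * 2) r m → Bool) → ℂ) →ₗ[ℂ] ((Rg (j * 2) r m → Bool) → ℂ) :=
  pw SC ∘ₗ Mo D ∘ₗ am (Uo D) (Uo' D) k ∘ₗ pw SC

/-- its inverse -/
noncomputable def Ao' (D : Bool → Bool → (Rg (j * 2) r m → Bool) → Bool) (k : ℕ) :
    ((Rg (j * 2) r m → Bool) → ℂ) →ₗ[ℂ] ((Rg (j * 2) r m → Bool) → ℂ) :=
  ((pw SC ∘ₗ am' (Uo D) (Uo' D) k) ∘ₗ Mo D) ∘ₗ pw SC

theorem ap_A (D : Bool → Bool → (Rg (j * 2) r m → Bool) → Bool) (k : ℕ) :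
    AP (Ao D k) (Ao' D k) :=
  ((((ap_pw SC).comp ((ap_U D).am k)).comp (ap_M D))).comp (ap_pw SC)

/-- the first mean -/
noncomputable def m1 (z : Ig (j * 2) r m → Bool) : ℝ :=
  (∑ p : (Fin (j * 2) → Bool) × (Fin r → Bool), sg (z (.inr (.inl p)))) / 2 ^ (j * 2 + r)

/-- the second mean -/
noncomputable def m2 (z : Ig (j * 2) r m → Bool) : ℝ :=
  (∑ q : Fin m → Bool, sg (z (.inr (.inr q)))) / 2 ^ m

/-- the forrelation -/
noncomputable def fo (z : Ig (j * 2) r m → Bool) : ℝ := Fo (Hm (j * 2)) fun i => z (.inl i)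

theorem sgc_sg (b : Bool) : sgc b = ((sg b : ℝ) : ℂ) := by
  cases b <;> simp [sgc, sg]

theorem sgc_sq (b : Bool) : sgc b * sgc b = 1 := by
  cases b <;> simp [sgc]

theorem prod_hk_Hm {l : ℕ} (y y' : Fin l → Bool) : ∏ i, hk (y i) (y' i) = ((Hm l y y' : ℝ) : ℂ) := by
  unfold Hm
  have h1 : ∀ i, hk (y i) (y' i) = ((chi (y i) (y' i) : ℝ) : ℂ) / s2 := by
    intro i
    unfold hk chi
    split_ifs <;> simp
  rw [prod_congr rfl fun i _ => h1 i, prod_div_distrib, prod_const, card_univ, Fintype.card_fin]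
  push_cast
  rfl

theorem kap_sq (l r : ℕ) : ((1 / s2) ^ (1 + l + r) * (1 / s2) ^ (1 + l + r) : ℂ) =
    1 / 2 ^ (1 + l + r) := by
  rw [← mul_pow, div_mul_div_comm, s2_sq, one_mul, div_pow, one_pow]

/-- **The amplitude of the first map.** -/
theorem U_val (z : Ig (j * 2) r m → Bool) {D : Bool → Bool → (Rg (j * 2) r m → Bool) → Bool}
    (hD : ∀ a b v, D a b v = Cn z a b v) :
    Uo D (ev z0) z0 = (((fo z + m1 z) / 2 : ℝ) : ℂ) := by
  set φ := ph (D true false) (ph (D false true) (pw SL (ph (D false false) (pw SB (ev z0))))) with hφ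
  have h1 : Uo D (ev z0) z0 = ip (pw SB (ev z0)) φ := by
    rw [(ap_pw SB).adj, ip_ev]
    rfl
  set κ : ℂ := (1 / s2) ^ (1 + j * 2 + r) with hκ
  have hz0 : (ev z0 : (Rg (j * 2) r m → Bool) → ℂ) = eb (j * 2) r m false := by
    unfold eb
    rw [z0_eq]
  have h2 : ip (pw SB (ev z0)) φ = ∑ p : Bool × (Fin (j * 2) → Bool) × (Fin r → Bool),
      κ * φ (mkv false p.1 p.2.1 p.2.2 z0) := by
    symm
    refine Fintype.sum_of_injective (fun p : Bool × (Fin (j * 2) → Bool) × (Fin r → Bool) =>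
      (mkv false p.1 p.2.1 p.2.2 z0 : Rg (j * 2) r m → Bool)) ?_ _ _ ?_ ?_
    · rintro ⟨c, y, z⟩ ⟨c', y', z'⟩ h
      obtain ⟨_, h2, h3, h4, _⟩ := mkv_inj h
      simp only at h2 h3 h4
      rw [h2, h3, h4]
    · intro v hv
      rw [hz0, ← mkv_eta v, pw_SB, if_neg, zero_mul]
      rintro ⟨h3, h4⟩
      apply hv
      refine ⟨(v (.inl 1), yv v, zv v), ?_⟩
      show mkv false _ _ _ z0 = v
      rw [← h3, ← h4, mkv_eta]
    · rintro ⟨c, y, z⟩
      simp only
      rw [hz0, pw_SB, if_pos ⟨rfl, rfl⟩]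
  have h3 : ∀ (c : Bool) (y : Fin (j * 2) → Bool) (s : Fin r → Bool),
      φ (mkv false c y s z0) = (if c then ((sg (z (.inr (.inl (y, s)))) : ℝ) : ℂ) else
        ∑ y', ((Hm (j * 2) y y' : ℝ) : ℂ) * (((sg (z (.inl (.inl y'))) : ℝ) : ℂ) *
          ((sg (z (.inl (.inr y))) : ℝ) : ℂ))) * κ := by
    intro c y s
    rw [hφ, ph_apply, ph_apply, pw_SL]
    simp only [ph_apply, hD, hz0, pw_SB, and_self, if_true, ← hκ]
    cases c with
    | true =>
      have e1 : Cn z true false (mkv false true y s z0) = z (.inr (.inl (y, s))) := by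
        simp [Cn, mkv_0, mkv_1, yv_mkv, zv_mkv]
      have e2 : Cn z false true (mkv false true y s z0) = IP y := by
        simp [Cn, mkv_1, yv_mkv]
      have e3 : ∀ y', Cn z false false (mkv false true y' s z0) = IP y' := fun y' => by
        simp [Cn, mkv_1, yv_mkv]
      simp only [e1, e2, e3, if_true]
      have e4 : ∑ y' : Fin (j * 2) → Bool, (∏ i, hk (y i) (y' i)) * (sgc (IP y') * κ) =
          sgc (IP y) * κ := by
        rw [← wal_IP y, sum_mul]
        exact sum_congr rfl fun y' _ => by ring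
      rw [e4, ← sgc_sg]
      calc _ = sgc (z (.inr (.inl (y, s)))) * (sgc (IP y) * sgc (IP y)) * κ := by ring
        _ = _ := by rw [sgc_sq, mul_one]
    | false =>
      have e1 : Cn z true false (mkv false false y s z0) = false := by
        simp [Cn, mkv_1]
      have e2 : Cn z false true (mkv false false y s z0) = z (.inl (.inr y)) := by
        simp [Cn, mkv_0, mkv_1, yv_mkv]
      have e3 : ∀ y', Cn z false false (mkv false false y' s z0) = z (.inl (.inl y')) := fun y' => by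
        simp [Cn, mkv_0, mkv_1, yv_mkv]
      simp only [e1, e2, e3, Bool.false_eq_true, if_false]
      rw [mul_sum, mul_sum, sum_mul]
      refine sum_congr rfl fun y' _ => ?_
      rw [prod_hk_Hm, ← sgc_sg, ← sgc_sg]
      simp only [sgc, Bool.false_eq_true, if_false]
      ring
  rw [h1, h2, Fintype.sum_prod_type, Fintype.sum_bool]
  simp only [h3, if_true, Bool.false_eq_true, if_false]
  have e1 : ∑ p : (Fin (j * 2) → Bool) × (Fin r → Bool),
      κ * (((sg (z (.inr (.inl (p.1, p.2)))) : ℝ) : ℂ) * κ) =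
      (((∑ p : (Fin (j * 2) → Bool) × (Fin r → Bool), sg (z (.inr (.inl p)))) /
        2 ^ (1 + j * 2 + r) : ℝ) : ℂ) := by
    push_cast
    rw [sum_div]
    refine sum_congr rfl fun p _ => ?_
    calc _ = ((sg (z (.inr (.inl (p.1, p.2)))) : ℝ) : ℂ) * (κ * κ) := by ring
      _ = _ := by rw [hκ, kap_sq]; ring
  have e2 : ∑ p : (Fin (j * 2) → Bool) × (Fin r → Bool), κ * ((∑ y', ((Hm (j * 2) p.1 y' : ℝ) : ℂ) *
      (((sg (z (.inl (.inl y'))) : ℝ) : ℂ) * ((sg (z (.inl (.inr p.1))) : ℝ) : ℂ))) * κ) =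
      (((2 ^ r * ∑ y, ∑ y', Hm (j * 2) y y' * (sg (z (.inl (.inl y'))) * sg (z (.inl (.inr y))))) /
        2 ^ (1 + j * 2 + r) : ℝ) : ℂ) := by
    rw [Fintype.sum_prod_type]
    simp only [sum_const, card_univ, Fintype.card_fun, Fintype.card_fin, Fintype.card_bool,
      nsmul_eq_mul]
    push_cast
    rw [mul_sum, sum_div]
    refine sum_congr rfl fun y _ => ?_
    generalize (∑ y' : Fin (j * 2) → Bool, ((Hm (j * 2) y y' : ℝ) : ℂ) *
      (((sg (z (.inl (.inl y'))) : ℝ) : ℂ) * ((sg (z (.inl (.inr y))) : ℝ) : ℂ))) = X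
    calc (2 : ℂ) ^ r * (κ * (X * κ)) = 2 ^ r * X * (κ * κ) := by ring
      _ = _ := by rw [hκ, kap_sq]; ring
  rw [e1, e2, ← Complex.ofReal_add]
  congr 1
  unfold fo m1 Fo
  have e3 : ∑ x, ∑ y, Hm (j * 2) x y * (sg (z (.inl (.inl x))) * sg (z (.inl (.inr y)))) =
      ∑ y, ∑ y', Hm (j * 2) y y' * (sg (z (.inl (.inl y'))) * sg (z (.inl (.inr y)))) := by
    rw [sum_comm]
    refine sum_congr rfl fun y _ => sum_congr rfl fun x _ => ?_
    rw [(orth_Hm _).sym x y]
  rw [e3]
  simp only [Fintype.card_fun, Fintype.card_fin, Fintype.card_bool]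
  push_cast
  rw [pow_add, pow_add, pow_add]
  field_simp
  ring

theorem hz0 : (ev z0 : (Rg (j * 2) r m → Bool) → ℂ) = eb (j * 2) r m false := by
  unfold eb
  rw [z0_eq]

/-- the flagged state is fixed -/
theorem U_fix (z : Ig (j * 2) r m → Bool) {D : Bool → Bool → (Rg (j * 2) r m → Bool) → Bool}
    (hD : ∀ a b v, D a b v = Cn z a b v) :
    Uo D (eb (j * 2) r m true) = eb (j * 2) r m true := by
  have h1 : ph (D true false) (ph (D false true) (pw SL (ph (D false false)
      (pw SB (eb (j * 2) r m true))))) = pw SB (eb (j * 2) r m true) := by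
    funext u
    rw [← mkv_eta u, ph_apply, ph_apply, pw_SL]
    simp only [ph_apply, hD, pw_SB]
    generalize u (.inl 1) = c
    generalize zv u = s
    generalize yv u = y
    by_cases h2 : u (.inl 0) = true ∧ y2v u = z0
    · obtain ⟨h2, h3⟩ := h2
      rw [h2, h3]
      simp only [and_self, if_true]
      have e1 : Cn z true false (mkv true c y s z0) = false := by
        simp [Cn, mkv_0]
      have e2 : Cn z false true (mkv true c y s z0) = IP y := by
        simp [Cn, mkv_0, yv_mkv]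
      have e3 : ∀ y', Cn z false false (mkv true c y' s z0) = IP y' := fun y' => by
        simp [Cn, mkv_0, yv_mkv]
      simp only [e1, e2, e3]
      have e4 : ∀ κ : ℂ, ∑ y' : Fin (j * 2) → Bool, (∏ i, hk (y i) (y' i)) * (sgc (IP y') * κ) =
          sgc (IP y) * κ := by
        intro κ
        rw [← wal_IP y, sum_mul]
        exact sum_congr rfl fun y' _ => by ring
      rw [e4]
      generalize (1 / s2 : ℂ) ^ (1 + j * 2 + r) = κ
      calc sgc false * (sgc (IP y) * (sgc (IP y) * κ)) =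
          sgc false * (sgc (IP y) * sgc (IP y)) * κ := by ring
        _ = κ := by rw [sgc_sq]; simp [sgc]
    · simp only [if_neg h2, mul_zero, sum_const_zero]
  show pw SB (ph (D true false) (ph (D false true) (pw SL (ph (D false false)
      (pw SB (eb (j * 2) r m true)))))) = _
  rw [h1, (ap_pw SB).inv]

theorem sup_U (D : Bool → Bool → (Rg (j * 2) r m → Bool) → Bool) : Sup (.inl 0) (Uo D) :=
  ((((((sup_pw rfl).comp (sup_ph _ _)).comp (sup_pw rfl)).comp (sup_ph _ _)).comp (sup_ph _ _)).comp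
    (sup_pw rfl) : Sup (.inl 0 : Rg (j * 2) r m) (pw SB ∘ₗ ph (D true false) ∘ₗ ph (D false true) ∘ₗ
      pw SL ∘ₗ ph (D false false) ∘ₗ pw SB))

theorem sup_U' (D : Bool → Bool → (Rg (j * 2) r m → Bool) → Bool) : Sup (.inl 0) (Uo' D) :=
  Sup.comp (sup_pw rfl) (Sup.comp (sup_ph _ _) (Sup.comp (sup_ph _ _) (Sup.comp (sup_pw rfl)
    (Sup.comp (sup_ph _ _) (sup_pw rfl)))))

theorem pw_SM_eb (b c₂ c : Bool) (y : Fin (j * 2) → Bool) (z : Fin r → Bool) (y₂ : Fin m → Bool) :
    pw SM (eb (j * 2) r m b) (mkv c₂ c y z y₂) =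
      if c₂ = b ∧ c = false ∧ y = z0 ∧ z = z0 then (1 / s2) ^ m else 0 := by
  rw [pw_SM, sum_eq_single z0]
  · unfold eb ev
    have h1 : (∏ i, hk (y₂ i) (z0 i)) = (1 / s2) ^ m := by
      rw [prod_congr rfl fun i _ => hk_false (y₂ i), prod_const, card_univ, Fintype.card_fin]
    rw [h1]
    by_cases h2 : c₂ = b ∧ c = false ∧ y = z0 ∧ z = z0
    · rw [if_pos h2, if_pos (by obtain ⟨h3, h4, h5, h6⟩ := h2; rw [h3, h4, h5, h6]), mul_one]
    · rw [if_neg h2, if_neg, mul_zero]
      intro h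
      obtain ⟨h3, h4, h5, h6, _⟩ := mkv_inj h
      exact h2 ⟨h3, h4, h5, h6⟩
  · intro y' _ hy'
    unfold eb ev
    rw [if_neg, mul_zero]
    intro h
    exact hy' (mkv_inj h).2.2.2.2
  · intro h
    exact absurd (mem_univ _) h

/-- **The amplitude of the whole map.** -/
theorem A_val (z : Ig (j * 2) r m → Bool) {D : Bool → Bool → (Rg (j * 2) r m → Bool) → Bool}
    (hD : ∀ a b v, D a b v = Cn z a b v) (k : ℕ) :
    Ao D k (ev z0) z0 = (((Am k ((fo z + m1 z) / 2) + m2 z) / 2 : ℝ) : ℂ) := by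
  set e₀ := eb (j * 2) r m false with he₀
  set e₁ := eb (j * 2) r m true with he₁
  set φ := am (Uo D) (Uo' D) k e₀ with hφ
  have hz : (ev z0 : (Rg (j * 2) r m → Bool) → ℂ) = e₀ := hz0
  have hU := U_val z hD
  have hφ0 : φ z0 = ((Am k ((fo z + m1 z) / 2) : ℝ) : ℂ) := by
    rw [hφ, ← hz]
    exact am_apply (ap_U D) hU k
  have he10 : e₁ z0 = 0 := by
    rw [he₁]
    unfold eb ev
    rw [if_neg]
    intro h
    have := congrFun h (.inl 0)
    simp [mkv] at this
  have hφ1 : am (Uo D) (Uo' D) k e₁ = e₁ := am_fix (ap_U D) (U_fix z hD) he10 k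
  have hsup : ∀ u : Rg (j * 2) r m → Bool, u (.inl 0) = true → φ u = 0 := by
    refine (sup_U D).am (sup_U' D) k e₀ fun u hu => ?_
    rw [he₀]
    unfold eb ev
    rw [if_neg]
    rintro rfl
    simp [mkv] at hu
  -- the second map on the state without flag
  have hM0 : Mo D φ = φ := by
    have h1 : ph (D true true) (pw SM φ) = pw SM φ := by
      funext u
      rw [ph_apply]
      cases hu : u (.inl 0) with
      | true =>
        rw [sup_pw (c := (.inl 0 : Rg (j * 2) r m)) rfl φ hsup u hu, mul_zero]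
      | false =>
        rw [hD]
        simp [Cn, hu, sgc]
    show pw SM (ph (D true true) (pw SM φ)) = φ
    rw [h1, (ap_pw SM).inv]
  -- the second map on the flagged state
  have hM1 : ∀ b : Bool, ip (eb (j * 2) r m b) (Mo D e₁) =
      if b = true then ((m2 z : ℝ) : ℂ) else 0 := by
    intro b
    have h1 : ip (eb (j * 2) r m b) (Mo D e₁) =
        ip (pw SM (eb (j * 2) r m b)) (ph (D true true) (pw SM e₁)) := by
      rw [(ap_pw SM).adj]
      rfl
    rw [h1]
    have h2 : ip (pw SM (eb (j * 2) r m b)) (ph (D true true) (pw SM e₁)) =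
        ∑ y₂ : Fin m → Bool, (if b = true then ((1 / s2) ^ m * (1 / s2) ^ m) *
          sgc (z (.inr (.inr y₂))) else 0) := by
      symm
      refine Fintype.sum_of_injective (fun y₂ : Fin m → Bool =>
        (mkv true false z0 z0 y₂ : Rg (j * 2) r m → Bool)) ?_ _ _ ?_ ?_
      · intro y y' h
        exact (mkv_inj h).2.2.2.2
      · intro v hv
        rw [ph_apply, ← mkv_eta v, he₁, pw_SM_eb, pw_SM_eb, mkv_eta]
        rw [if_neg (c := _ ∧ _ ∧ _ ∧ _) (α := ℂ) (t := (1 / s2) ^ m) (e := 0) (by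
          rintro ⟨h3, h4, h5, h6⟩
          apply hv
          refine ⟨y2v v, ?_⟩
          show mkv true false z0 z0 (y2v v) = v
          rw [← h3, ← h4, ← h5, ← h6, mkv_eta] : ¬ (v (.inl 0) = true ∧ v (.inl 1) = false ∧
            yv v = z0 ∧ zv v = z0))]
        ring
      · intro y₂
        rw [ph_apply, he₁, pw_SM_eb, pw_SM_eb, hD]
        have e1 : Cn z true true (mkv true false z0 z0 y₂) = z (.inr (.inr y₂)) := by
          simp [Cn, mkv_0, y2v_mkv]
        rw [e1]
        cases b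
        · simp
        · simp only [and_self, if_true]
          ring
    rw [h2]
    cases b with
    | false => simp
    | true =>
      simp only [if_true]
      rw [← mul_sum, ← mul_pow, div_mul_div_comm, s2_sq, one_mul]
      unfold m2
      push_cast
      simp only [← sgc_sg]
      rw [div_pow, one_pow]
      ring
  have h0 : Ao D k (ev z0) z0 = ip (pw SC e₀) (Mo D (am (Uo D) (Uo' D) k (pw SC e₀))) := by
    rw [(ap_pw SC).adj, ← hz, ip_ev]
    rfl
  rw [h0, he₀, pw_SC, ← he₀, ← he₁, map_smul, map_smul, map_add, map_add, ← hφ, hφ1, hM0,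
    ip_smul, ip_comm, ip_smul, ip_comm, ip_add]
  have h2 : ip (e₀ + e₁) φ = φ z0 := by
    rw [ip_comm, ip_add, ip_comm φ e₀, ip_comm φ e₁, ← hz, ip_ev]
    have : ip e₁ φ = 0 := by
      rw [he₁]
      unfold eb
      rw [ip_ev]
      exact hsup _ rfl
    rw [this, add_zero]
  have h3 : ip (e₀ + e₁) (Mo D e₁) = ((m2 z : ℝ) : ℂ) := by
    rw [ip_comm, ip_add, ip_comm _ e₀, ip_comm _ e₁, he₀, he₁, hM1, ← he₁, hM1]
    simp
  rw [h2, h3, hφ0, ← mul_assoc, div_mul_div_comm, s2_sq]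
  push_cast
  ring

end Pool.Agent.K7x.EQ
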