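import Pool.Agent.K7x.EQ.Conc
import Pool.Agent.K7x.EQ.Mask
import Pool.Agent.K7x.EQ.Val2

/-!
# The distributions of the data of a block
-/

set_option autoImplicit false
set_option linter.unusedSectionVars false

namespace Pool.Agent.K7x.EQ

open Finset H568R2 Pool.Agent.H676 Pool.Agent.H9x.RT

section

variable {I : Type*} [Fintype I] [DecidableEq I]

open Classical in
/-- a mask, with simple numbers -/
theorem mask_num {q u t : ℕ} (hcard : Fintype.card I = 2 ^ (4 * q)) (huq : 4 * u ≤ q)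
    {p Λ : ℝ} (hp0 : 0 < p) (hp1 : p ≤ 1) (hΛp : (1 + (t : ℝ)) ^ 2 ≤ Λ * p)
    (hΛ : 16 * Λ ≤ 2 ^ (4 * u)) {s : ℤ} (hpar : ∃ r : ℤ, s = 2 * r)
    (hs : |(s : ℝ)| ≤ 2 * 2 ^ (4 * q) / 2 ^ (4 * u)) (hq : 1 ≤ q) :
    ∃ P : (I → Bool) → ℝ, (∀ a, 0 ≤ P a) ∧ ∑ a, P a = 1 ∧
      (∀ a, P a ≠ 0 → ssum univ a = s) ∧
      ∀ (h : (I → Bool) → Bool) (β : ℝ),
        Ex (wq p) (fun ρ : Restr I => if ¬ DTr t (rs h ρ) then (1 : ℝ) else 0) ≤ β →
        |∑ a, P a * br h a - ml (br h) 0| ≤ 26 * Λ / 2 ^ (4 * u) + β := by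
  set U : ℝ := 2 ^ (4 * u) with hU
  set M : ℝ := 2 ^ (4 * q) with hM
  have hcR : (Fintype.card I : ℝ) = M := by rw [hcard, hM]; push_cast; rfl
  have hU0 : 0 < U := by positivity
  have hM0 : 0 < M := by positivity
  have hU1 : 1 ≤ U := one_le_pow₀ (by norm_num)
  have ht0 : (0 : ℝ) ≤ t := by positivity
  have hΛ1 : 1 ≤ Λ := by
    have h1 : (1 : ℝ) ≤ (1 + (t : ℝ)) ^ 2 := by nlinarith
    have h2 : Λ * p ≤ |Λ| * 1 :=
      (le_abs_self _).trans (by rw [abs_mul, abs_of_pos hp0]; exact mul_le_mul_of_nonneg_left hp1 (abs_nonneg _))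
    have h3 : 1 ≤ |Λ| := by linarith
    rcases le_abs'.1 h3 with h4 | h4
    · nlinarith
    · exact h4
  have hq2 : (U : ℝ) ≤ 2 ^ q := pow_le_pow_right₀ (by norm_num) huq
  have hMq : M = 2 ^ (3 * q) * 2 ^ q := by rw [hM, ← pow_add]; congr 1; ring
  have hM2 : M = (2 ^ q) ^ 4 := by rw [hM, ← pow_mul]; congr 1; ring
  have hqpos : (0 : ℝ) < 2 ^ q := by positivity
  have hq1 : (1 : ℝ) ≤ 2 ^ q := one_le_pow₀ (by norm_num)
  -- the size of `t`
  have ht1 : (t : ℝ) ≤ Λ * p := by nlinarith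
  have htΛ : (t : ℝ) ≤ Λ := ht1.trans (mul_le_of_le_one_right (by linarith) hp1)
  have hMU : U * U ≤ M := by
    have h1 : U * U ≤ 2 ^ q * 2 ^ q := mul_le_mul hq2 hq2 hU0.le hqpos.le
    have h2 : (2 : ℝ) ^ q * 2 ^ q ≤ M := by
      rw [hM2]
      have h3 : (1 : ℝ) ≤ (2 ^ q) ^ 2 := one_le_pow₀ hq1
      calc (2 : ℝ) ^ q * 2 ^ q ≤ (2 ^ q) ^ 2 * (2 ^ q * 2 ^ q) :=
            le_mul_of_one_le_left (by positivity) h3
        _ = (2 ^ q) ^ 4 := by ring
    linarith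
  have hpM : 0 < p * M := by positivity
  have htM : (t : ℝ) ≤ p * M / 4 := by
    have h1 : Λ * p * 4 ≤ p * M := by
      have h2 : 4 * Λ ≤ M := by
        have h3 : U ≤ U * U := le_mul_of_one_le_left hU0.le hU1
        linarith
      calc Λ * p * 4 = p * (4 * Λ) := by ring
        _ ≤ p * M := mul_le_mul_of_nonneg_left h2 hp0.le
    linarith
  set κ : ℝ := 16 / (p * U) with hκ
  have hpU : 0 < p * U := by positivity
  have hpΛ : 1 ≤ Λ * p := by nlinarith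
  have hκ1 : κ ≤ 1 := by
    rw [hκ, div_le_one hpU]
    calc (16 : ℝ) ≤ 16 * (Λ * p) := by linarith
      _ = p * (16 * Λ) := by ring
      _ ≤ p * U := mul_le_mul_of_nonneg_left hΛ hp0.le
  have hκ0 : 0 ≤ κ := by positivity
  have hMU' : M / U ≤ M := by
    rw [div_le_iff₀ hU0]
    exact le_mul_of_one_le_right hM0.le hU1
  have hUM : U ≤ M / U := by
    rw [le_div_iff₀ hU0]
    exact hMU
  have h3q : (2 : ℝ) ^ (3 * q) ≤ M / U := by
    rw [le_div_iff₀ hU0, hMq]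
    exact mul_le_mul_of_nonneg_left hq2 (by positivity)
  refine (fun h0 => ?_) (mask_dist (I := I) hp0 hp1 (t := t) (κ := κ) (K := 2 ^ (3 * q)) (s := s) ?_
    (by positivity) hκ0 hκ1 ?_ (e := 5 * Λ / U) ?_ ?_)
  · obtain ⟨P, h1, h2, h3, h4⟩ := h0
    refine ⟨P, h1, h2, h3, fun h β hβ => (h4 h β hβ).trans ?_⟩
    have h5 : (t : ℝ) * κ ≤ 16 * Λ / U := by
      rw [hκ, mul_div_assoc', div_le_div_iff₀ hpU hU0]
      calc (t : ℝ) * 16 * U ≤ (Λ * p) * 16 * U := by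
            refine mul_le_mul_of_nonneg_right (mul_le_mul_of_nonneg_right ht1 (by norm_num)) hU0.le
        _ = 16 * Λ * (p * U) := by ring
    have h6 : 26 * Λ / U = 2 * (5 * Λ / U) + 16 * Λ / U := by ring
    rw [h6]
    linarith
  · obtain ⟨r, hr⟩ := hpar
    obtain ⟨q', rfl⟩ : ∃ q', q = q' + 1 := ⟨q - 1, by omega⟩
    refine ⟨r - 2 ^ (4 * (q' + 1) - 1), ?_⟩
    rw [hr, hcard]
    have : (2 : ℤ) ^ (4 * (q' + 1)) = 2 * 2 ^ (4 * (q' + 1) - 1) := by
      rw [← pow_succ']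
      congr 1
    push_cast
    rw [this]
    ring
  · rw [hcR]
    have h1 : κ * (p * M / 2 - t) ≥ κ * (p * M / 4) :=
      mul_le_mul_of_nonneg_left (by linarith) hκ0
    have h2 : κ * (p * M / 4) = 4 * (M / U) := by
      rw [hκ]
      field_simp
      norm_num
    have h3 : 2 * 2 ^ (4 * q) / U = 2 * (M / U) := by rw [hM]; ring
    rw [h3] at hs
    have h4 : (t : ℝ) ≤ U := by linarith
    linarith
  · rw [hcR]
    have h1 : 4 / (p * M) ≤ 4 * Λ / U := by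
      rw [div_le_div_iff₀ hpM hU0]
      have h2 : U ≤ M := hUM.trans hMU'
      calc 4 * U ≤ 4 * M := by linarith
        _ ≤ 4 * (Λ * p * M) := by
          have := le_mul_of_one_le_left hM0.le hpΛ
          linarith
        _ = 4 * Λ * (p * M) := by ring
    have h2 : M / (2 ^ (3 * q)) ^ 2 ≤ Λ / U := by
      have h3 : ((2 : ℝ) ^ (3 * q)) ^ 2 = M * (2 ^ q * 2 ^ q) := by
        rw [hM2, ← pow_mul, ← pow_mul, ← pow_add, ← pow_add]
        congr 1
        ring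
      rw [h3, div_le_div_iff₀ (by positivity) hU0]
      have h4 : U ≤ 2 ^ q * 2 ^ q := by
        have := le_mul_of_one_le_left hqpos.le hq1
        linarith
      calc M * U ≤ M * (2 ^ q * 2 ^ q) := mul_le_mul_of_nonneg_left h4 hM0.le
        _ ≤ Λ * (M * (2 ^ q * 2 ^ q)) := le_mul_of_one_le_left (by positivity) hΛ1
    have h3 : 5 * Λ / U = 4 * Λ / U + Λ / U := by ring
    rw [h3]
    linarith
  · rw [div_lt_one hU0]
    linarith

end

/-- a sum of signs -/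
theorem sum_signs {ι : Type*} (s : Finset ι) {f : ι → ℤ} (hf : ∀ i, f i = 1 ∨ f i = -1) :
    ∃ r : ℤ, ∑ i ∈ s, f i = s.card + 2 * r := by
  refine ⟨∑ i ∈ s, (if f i = 1 then 0 else -1), ?_⟩
  rw [mul_sum, card_eq_sum_ones]
  push_cast
  rw [← sum_add_distrib]
  refine sum_congr rfl fun i _ => ?_
  rcases hf i with h | h
  · simp [h]
  · rw [h]; norm_num

/-- the forrelation is a multiple of a power of two -/
theorem Fo_int {u : ℕ} (hu : 1 ≤ u) (a : (Fin (8 * u * 2) → Bool) ⊕ (Fin (8 * u * 2) → Bool) → Bool) :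
    ∃ S : ℤ, (2 : ℝ) ^ (24 * u) * Fo (Hm (8 * u * 2)) a = 2 * S := by
  set c : (Fin (8 * u * 2) → Bool) × (Fin (8 * u * 2) → Bool) → ℤ := fun p =>
    (∏ i, (if (p.1 i && p.2 i) = true then -1 else 1)) * (sgi (a (.inl p.1)) * sgi (a (.inr p.2)))
    with hc
  have hc1 : ∀ p, c p = 1 ∨ c p = -1 := by
    intro p
    have h1 : (∏ i, (if (p.1 i && p.2 i) = true then (-1 : ℤ) else 1)) = 1 ∨
        (∏ i, (if (p.1 i && p.2 i) = true then (-1 : ℤ) else 1)) = -1 := by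
      refine prod_induction _ (fun a : ℤ => a = 1 ∨ a = -1) ?_ (Or.inl rfl) ?_
      · rintro a b (rfl | rfl) (rfl | rfl) <;> norm_num
      · intro p _
        split_ifs
        · exact Or.inr rfl
        · exact Or.inl rfl
    have h2 : ∀ b, sgi b = 1 ∨ sgi b = -1 := by intro b; cases b <;> simp [sgi]
    have h5 : c p = (∏ i, (if (p.1 i && p.2 i) = true then -1 else 1)) *
      (sgi (a (.inl p.1)) * sgi (a (.inr p.2))) := rfl
    rcases h1 with h1 | h1 <;> rcases h2 (a (.inl p.1)) with h3 | h3 <;>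
      rcases h2 (a (.inr p.2)) with h4 | h4 <;> rw [h5, h1, h3, h4] <;> norm_num
  obtain ⟨r, hr⟩ := sum_signs univ hc1
  have hcard : ((univ : Finset ((Fin (8 * u * 2) → Bool) × (Fin (8 * u * 2) → Bool))).card : ℤ) =
      2 * 2 ^ (32 * u - 1) := by
    rw [← pow_succ', card_univ, Fintype.card_prod]
    simp only [Fintype.card_fun, Fintype.card_bool, Fintype.card_fin]
    push_cast
    rw [← pow_add]
    congr 1
    omega
  refine ⟨2 ^ (32 * u - 1) + r, ?_⟩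
  have h1 : Fo (Hm (8 * u * 2)) a = ((∑ p, c p : ℤ) : ℝ) / 2 ^ (24 * u) := by
    have h2 : (Real.sqrt 2) ^ (8 * u * 2) = 2 ^ (8 * u) := by
      rw [mul_comm (8 * u) 2, pow_mul, Real.sq_sqrt (by norm_num)]
    unfold Fo Hm
    rw [h2]
    simp only [Fintype.card_fun, Fintype.card_bool, Fintype.card_fin]
    push_cast
    rw [← Fintype.sum_prod_type' (f := fun x y => (∏ i, chi (x i) (y i)) / 2 ^ (8 * u) *
      (sg (a (.inl x)) * sg (a (.inr y))))]
    have h3 : (2 : ℝ) ^ (24 * u) = 2 ^ (8 * u) * 2 ^ (8 * u * 2) := by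
      rw [← pow_add]; congr 1; ring
    rw [h3, sum_div, sum_div]
    refine sum_congr rfl fun p _ => ?_
    rw [hc]
    push_cast
    rw [sgi_cast, sgi_cast]
    have h4 : ∏ i, chi (p.1 i) (p.2 i) = ∏ i, (if (p.1 i && p.2 i) = true then (-1 : ℝ) else 1) :=
      prod_congr rfl fun i _ => rfl
    rw [h4]
    field_simp
  rw [h1, hr, hcard]
  field_simp
  push_cast
  ring

end Pool.Agent.K7x.EQ
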