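import Pool.Agent.K7x.EQ.Val2
import Pool.Agent.H9x.RT.Acc

/-!
# The circuit
-/

set_option autoImplicit false
set_option linter.unusedSectionVars false

namespace Pool.Agent.K7x.EQ

open Finset Pool.Agent.H9x.RT Pool.Agent.H9x.Q Pool.Agent.H620R2.Gauge

/-- the number of qubits of the register -/
abbrev KK (l r m : ℕ) : ℕ := 2 + (l + r + m)

/-- the positions in the register -/
def pos (l r m : ℕ) : Rg l r m ≃ Fin (KK l r m) :=
  (Equiv.sumCongr (Equiv.refl _) ((Equiv.sumCongr finSumFinEquiv (Equiv.refl _)).trans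
    finSumFinEquiv)).trans finSumFinEquiv

variable {l r m M : ℕ}

theorem pos_c (i : Fin 2) : (pos l r m (.inl i) : ℕ) = i := rfl

theorem pos_y (i : Fin l) : (pos l r m (.inr (.inl (.inl i))) : ℕ) = 2 + i := rfl

theorem pos_z (i : Fin r) : (pos l r m (.inr (.inl (.inr i))) : ℕ) = 2 + (l + i) := rfl

theorem pos_y2 (i : Fin m) : (pos l r m (.inr (.inr i)) : ℕ) = 2 + (l + r + i) := rfl

/-- the state with the amplitudes `a` -/
noncomputable def Ps (n : ℕ) (x : List Bool) (a : (Rg l r m → Bool) → ℂ) : Basis M → ℂ :=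
  Psi n (KK l r m) x fun u => a (u ∘ pos l r m)

/-- the gates act as the map -/
def Imp (A : Oracle) (M n : ℕ) (x : List Bool) (C : List Gate)
    (W : ((Rg l r m → Bool) → ℂ) →ₗ[ℂ] ((Rg l r m → Bool) → ℂ)) : Prop :=
  ∀ a, run A C (Ps n x a : Basis M → ℂ) = Ps n x (W a)

theorem Imp.append {A : Oracle} {n : ℕ} {x : List Bool} {C C' : List Gate}
    {W W' : ((Rg l r m → Bool) → ℂ) →ₗ[ℂ] ((Rg l r m → Bool) → ℂ)} (h : Imp A M n x C W)
    (h' : Imp A M n x C' W') : Imp A M n x (C ++ C') (W' ∘ₗ W) := fun a => by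
  rw [run_append, h, h']
  rfl

/-- Hadamard gates as a transform -/
theorem hds_pw {T : Type*} [Fintype T] [DecidableEq T] {L : List T} (hL : L.Nodup)
    (a : (T → Bool) → ℂ) : hds L a = pw (fun t => decide (t ∈ L)) a := by
  have h1 : a = fun u => ∑ v, a v * ∏ s, (fun z => if z = v s then (1 : ℂ) else 0) (u s) := by
    funext u
    rw [sum_eq_single u]
    · simp
    · intro v _ hv
      have := delta_prod v u
      rw [if_neg (Ne.symm hv)] at this
      simp only
      rw [← this, mul_zero]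
    · intro h
      exact absurd (mem_univ u) h
  conv_lhs => rw [h1]
  rw [hds_sum univ L a (fun v u => ∏ s, (fun z => if z = v s then (1 : ℂ) else 0) (u s))]
  funext u
  rw [pw_apply]
  refine sum_congr rfl fun v _ => ?_
  rw [hds_prod L hL (fun s z => if z = v s then (1 : ℂ) else 0), mul_comm]
  congr 1
  refine prod_congr rfl fun s _ => ?_
  by_cases hs : s ∈ L
  · rw [if_pos hs, hb_delta]
    simp [ks, hs]
  · rw [if_neg hs]
    simp [ks, hs]

theorem pw_comp {T T' : Type*} [Fintype T] [DecidableEq T] [Fintype T'] [DecidableEq T']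
    (e : T' ≃ T) (S : T → Bool) (a : (T' → Bool) → ℂ) (u : T → Bool) :
    pw S (fun v => a (v ∘ e)) u = pw (S ∘ e) a (u ∘ e) := by
  rw [pw_apply, pw_apply]
  refine Fintype.sum_equiv (Equiv.arrowCongr e.symm (Equiv.refl Bool)) _ _ fun v => ?_
  have h1 : (Equiv.arrowCongr e.symm (Equiv.refl Bool)) v = v ∘ e := by
    funext t
    simp [Equiv.arrowCongr]
  rw [h1]
  congr 1
  exact (Fintype.prod_equiv e _ _ fun t => rfl).symm

/-- Hadamard gates on the positions from `p` to `p + q` -/
def hg (n p q : ℕ) : List Gate := (List.range q).map fun t => Gate.had (n + 5 + (p + t))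

theorem imp_hg {A : Oracle} {n : ℕ} {x : List Bool} (hM : n + 5 + KK l r m ≤ M) {p q : ℕ}
    (hpq : p + q ≤ KK l r m) {S : Rg l r m → Bool}
    (hS : ∀ t, S t = true ↔ p ≤ (pos l r m t : ℕ) ∧ (pos l r m t : ℕ) < p + q) :
    Imp A M n x (hg n p q) (pw S) := by
  intro a
  set L : List (Fin (KK l r m)) := (List.finRange q).map (fun i : Fin q =>
    (⟨p + (i : ℕ), by have := i.2; omega⟩ : Fin (KK l r m))) with hL
  have h1 : hg n p q = L.map fun (t : Fin (KK l r m)) => Gate.had (n + 5 + t) := by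
    unfold hg
    rw [hL, List.map_map, ← List.map_coe_finRange_eq_range, List.map_map]
    rfl
  have h2 : L.Nodup := by
    rw [hL]
    refine (List.nodup_finRange q).map fun (i j : Fin q) h => ?_
    have := congrArg Fin.val h
    simp only at this
    exact Fin.ext (by omega)
  have h3 : ∀ t : Fin (KK l r m), t ∈ L ↔ p ≤ (t : ℕ) ∧ (t : ℕ) < p + q := by
    intro t
    rw [hL, List.mem_map]
    constructor
    · rintro ⟨i, _, rfl⟩
      have := i.2
      simp only
      omega
    · rintro ⟨h4, h5⟩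
      exact ⟨⟨t - p, by omega⟩, List.mem_finRange _, Fin.ext (by simp only; omega)⟩
  unfold Ps
  rw [h1, run_hds hM, hds_pw h2]
  congr 1
  funext u
  rw [pw_comp (pos l r m)]
  have h4 : (fun t => decide (t ∈ L)) ∘ pos l r m = S := by
    funext t
    rw [Bool.eq_iff_iff, hS t]
    simp only [Function.comp, decide_eq_true_eq, h3]
  rw [h4]

/-- a question as a phase -/
theorem act_phase {K n : ℕ} {x : List Bool} (hM : n + 5 + K ≤ M) (A : Oracle) {ls : List ℕ}
    (hls : n + 2 ∉ ls) {Q : (Fin K → Bool) → List Bool}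
    (hQ : ∀ z : Basis M, Reg n x z → ls.map (bit z) = Q (cw n K z)) (a : (Fin K → Bool) → ℂ) :
    (Gate.query ls (n + 2)).act A (Psi n K x a : Basis M → ℂ) =
      Psi n K x (fun u => sgc (A (Q u)) * a u) := by
  rw [act_query A hls]
  funext z
  simp only [flipBy]
  by_cases hr : Reg n x z
  · rw [Psi_pos hr, Psi_pos ((reg_put2 _).2 hr), cw_put2, bit_put_self (by omega), hQ z hr]
    unfold mu sgc
    cases bit z (n + 2) <;>
      cases A (Q (cw n K z)) <;> simp <;> ring
  · rw [Psi_neg hr, Psi_neg (fun h => hr ((reg_put2 _).1 h))]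

/-- the qubits with a question about the data -/
def dqs (n : ℕ) (pre : List Bool) (a b : Bool) (K : ℕ) : List ℕ :=
  pre.map (cidx n) ++ (List.range n ++ (cidx n a :: cidx n b ::
    (List.range K).map fun t => n + 5 + t))

/-- a question about the data -/
def dq (n : ℕ) (pre : List Bool) (a b : Bool) (K : ℕ) : List Gate :=
  [Gate.query (dqs n pre a b K) (n + 2)]

/-- the question about the zero string -/
def zq (n : ℕ) (ppre : List Bool) (K : ℕ) : List Gate := [Gate.query (fq n ppre K) (n + 2)]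

theorem dqs_bits {n K : ℕ} {x : List Bool} (hx : x.length = n) {z : Basis M} (h : Reg n x z)
    (pre : List Bool) (a b : Bool) : (dqs n pre a b K).map (bit z) =
      pre ++ (x ++ (a :: b :: List.ofFn (cw n K z))) := by
  unfold dqs
  rw [List.map_append, List.map_append, List.map_cons, List.map_cons, map_bit_cidx h,
    map_bit_x hx h]
  have h1 : ∀ c, bit z (cidx n c) = c := by
    intro c
    have := map_bit_cidx h [c]
    simpa using this
  rw [h1, h1, List.map_map]
  congr 4
  refine List.ext_getElem (by simp) fun i h2 h3 => ?_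
  rw [List.getElem_map, List.getElem_range, List.getElem_ofFn]
  rfl

theorem imp_dq {A : Oracle} {n : ℕ} {x : List Bool} (hx : x.length = n)
    (hM : n + 5 + KK l r m ≤ M) (pre : List Bool) (a b : Bool)
    {D : Bool → Bool → (Rg l r m → Bool) → Bool}
    (hD : ∀ a b (u : Fin (KK l r m) → Bool),
      A (pre ++ (x ++ (a :: b :: List.ofFn u))) = D a b (u ∘ pos l r m)) :
    Imp A M n x (dq n pre a b (KK l r m)) (ph (D a b)) := by
  intro φ
  unfold Ps dq
  simp only [run]
  rw [act_phase hM A (Q := fun u => pre ++ (x ++ (a :: b :: List.ofFn u))) ?_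
    (fun z hz => dqs_bits hx hz pre a b)]
  · congr 1
    funext u
    rw [hD, ph_apply]
  · unfold dqs
    simp only [List.mem_append, List.mem_map, List.mem_cons, List.mem_range, not_or, not_exists,
      not_and, cidx]
    refine ⟨fun b _ => by split_ifs <;> omega, by omega, by split_ifs <;> omega,
      by split_ifs <;> omega, fun i _ => by omega⟩

theorem imp_zq {A : Oracle} {n : ℕ} {x : List Bool}
    (hM : n + 5 + KK l r m ≤ M) {ppre : List Bool}
    (hA : ∀ u : Fin (KK l r m) → Bool, A (ppre ++ List.ofFn u) = true ↔ u = fun _ => false) :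
    Imp A M n x (zq n ppre (KK l r m))
      (zt : ((Rg l r m → Bool) → ℂ) →ₗ[ℂ] ((Rg l r m → Bool) → ℂ)) := by
  intro φ
  unfold Ps zq
  simp only [run]
  rw [act_phase hM A (Q := fun u => ppre ++ List.ofFn u) ?_ (fun z hz => fq_bits hz ppre)]
  · congr 1
    funext u
    unfold zt
    rw [ph_apply]
    congr 2
    rw [Bool.eq_iff_iff, hA, decide_eq_true_eq]
    constructor
    · rintro rfl
      rfl
    · intro h
      funext t
      have := congrFun h ((pos l r m).symm t)
      simpa using this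
  · unfold fq
    simp only [List.mem_append, List.mem_map, List.mem_range, not_or, not_exists,
      not_and, cidx]
    exact ⟨fun b _ => by split_ifs <;> omega, fun i _ => by omega⟩

/-- repetition -/
def rep (k : ℕ) (C : List Gate) : List Gate := (List.range k).flatMap fun _ => C

theorem rep_succ (k : ℕ) (C : List Gate) : rep (k + 1) C = rep k C ++ C := by
  unfold rep
  rw [List.range_succ, List.flatMap_append]
  simp

theorem rep_succ' (k : ℕ) (C : List Gate) : rep (k + 1) C = C ++ rep k C := by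
  induction k with
  | zero => simp [rep]
  | succ k ih =>
    calc rep (k + 1 + 1) C = rep (k + 1) C ++ C := rep_succ _ _
      _ = (C ++ rep k C) ++ C := by rw [ih]
      _ = C ++ (rep k C ++ C) := List.append_assoc ..
      _ = C ++ rep (k + 1) C := by rw [rep_succ k C]

/-- amplification -/
def cAm (k : ℕ) (C C' Z : List Gate) : List Gate := C ++ rep k (Z ++ (C' ++ (Z ++ C)))

/-- inverse amplification -/
def cAm' (k : ℕ) (C C' Z : List Gate) : List Gate := rep k (C' ++ (Z ++ (C ++ Z))) ++ C'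

theorem Imp.am {A : Oracle} {n : ℕ} {x : List Bool} {C C' Z : List Gate}
    {W W' : ((Rg l r m → Bool) → ℂ) →ₗ[ℂ] ((Rg l r m → Bool) → ℂ)} (h : Imp A M n x C W)
    (h' : Imp A M n x C' W')
    (hZ : Imp A M n x Z (zt : ((Rg l r m → Bool) → ℂ) →ₗ[ℂ] ((Rg l r m → Bool) → ℂ))) (k : ℕ) :
    Imp A M n x (cAm k C C' Z) (am W W' k) := by
  have h1 : Imp A M n x (Z ++ (C' ++ (Z ++ C))) (rd W W') := hZ.append (h'.append (hZ.append h))
  have h2 : ∀ k, Imp A M n x (rep k (Z ++ (C' ++ (Z ++ C)))) (rds W W' k) := by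
    intro k
    induction k with
    | zero => intro a; rfl
    | succ k ih =>
      rw [rep_succ]
      exact ih.append h1
  exact h.append (h2 k)

theorem Imp.am' {A : Oracle} {n : ℕ} {x : List Bool} {C C' Z : List Gate}
    {W W' : ((Rg l r m → Bool) → ℂ) →ₗ[ℂ] ((Rg l r m → Bool) → ℂ)} (h : Imp A M n x C W)
    (h' : Imp A M n x C' W')
    (hZ : Imp A M n x Z (zt : ((Rg l r m → Bool) → ℂ) →ₗ[ℂ] ((Rg l r m → Bool) → ℂ))) (k : ℕ) :
    Imp A M n x (cAm' k C C' Z) (am' W W' k) := by
  have h1 : Imp A M n x (C' ++ (Z ++ (C ++ Z))) (rd' W W') := h'.append (hZ.append (h.append hZ))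
  have h2 : ∀ k, Imp A M n x (rep k (C' ++ (Z ++ (C ++ Z)))) (rds' W W' k) := by
    intro k
    induction k with
    | zero => intro a; rfl
    | succ k ih =>
      rw [rep_succ']
      exact h1.append ih
  exact (h2 k).append h'

/-- the first part -/
def cU (n : ℕ) (pre : List Bool) (l r m : ℕ) : List Gate :=
  hg n 1 (1 + l + r) ++ (dq n pre false false (KK l r m) ++ (hg n 2 l ++
    (dq n pre false true (KK l r m) ++ (dq n pre true false (KK l r m) ++ hg n 1 (1 + l + r)))))

/-- the inverse of the first part -/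
def cU' (n : ℕ) (pre : List Bool) (l r m : ℕ) : List Gate :=
  hg n 1 (1 + l + r) ++ (dq n pre true false (KK l r m) ++ (dq n pre false true (KK l r m) ++
    (hg n 2 l ++ (dq n pre false false (KK l r m) ++ hg n 1 (1 + l + r)))))

/-- the second part -/
def cM (n : ℕ) (pre : List Bool) (l r m : ℕ) : List Gate :=
  hg n (2 + (l + r)) m ++ (dq n pre true true (KK l r m) ++ hg n (2 + (l + r)) m)

/-- the whole map -/
def cA (n : ℕ) (pre ppre : List Bool) (l r m k : ℕ) : List Gate :=
  hg n 0 1 ++ (cAm k (cU n pre l r m) (cU' n pre l r m) (zq n ppre (KK l r m)) ++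
    (cM n pre l r m ++ hg n 0 1))

/-- the inverse of the whole map -/
def cA' (n : ℕ) (pre ppre : List Bool) (l r m k : ℕ) : List Gate :=
  hg n 0 1 ++ (cM n pre l r m ++ (cAm' k (cU n pre l r m) (cU' n pre l r m)
    (zq n ppre (KK l r m)) ++ hg n 0 1))

/-- the circuit -/
def cE (n : ℕ) (pre ppre : List Bool) (l r m k : ℕ) : List Gate :=
  prep n ++ (cAm 1 (cA n pre ppre l r m k) (cA' n pre ppre l r m k) (zq n ppre (KK l r m)) ++
    fin n ppre (KK l r m))

theorem imp_SB {A : Oracle} {n : ℕ} {x : List Bool} (hM : n + 5 + KK l r m ≤ M) :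
    Imp A M n x (hg n 1 (1 + l + r)) (pw (SB : Rg l r m → Bool)) := by
  refine imp_hg hM (by unfold KK; omega) fun t => ?_
  rcases t with t | ((t | t) | t)
  · fin_cases t
    · simp [SB, pos_c]
    · simp [SB, pos_c]
  · have := t.2
    simp only [SB, pos_y, true_iff]
    omega
  · have := t.2
    simp only [SB, pos_z, true_iff]
    omega
  · simp only [SB, pos_y2, Bool.false_eq_true, false_iff]
    omega

theorem imp_SL {A : Oracle} {n : ℕ} {x : List Bool} (hM : n + 5 + KK l r m ≤ M) :
    Imp A M n x (hg n 2 l) (pw (SL : Rg l r m → Bool)) := by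
  refine imp_hg hM (by unfold KK; omega) fun t => ?_
  rcases t with t | ((t | t) | t)
  · fin_cases t
    · simp [SL, pos_c]
    · simp [SL, pos_c]
  · have := t.2
    simp only [SL, pos_y, true_iff]
    omega
  · simp only [SL, pos_z, Bool.false_eq_true, false_iff]
    omega
  · simp only [SL, pos_y2, Bool.false_eq_true, false_iff]
    omega

theorem imp_SM {A : Oracle} {n : ℕ} {x : List Bool} (hM : n + 5 + KK l r m ≤ M) :
    Imp A M n x (hg n (2 + (l + r)) m) (pw (SM : Rg l r m → Bool)) := by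
  refine imp_hg hM (by unfold KK; omega) fun t => ?_
  rcases t with t | ((t | t) | t)
  · have := t.2
    simp only [SM, pos_c, Bool.false_eq_true, false_iff]
    omega
  · have := t.2
    simp only [SM, pos_y, Bool.false_eq_true, false_iff]
    omega
  · have := t.2
    simp only [SM, pos_z, Bool.false_eq_true, false_iff]
    omega
  · have := t.2
    simp only [SM, pos_y2, true_iff]
    omega

theorem imp_SC {A : Oracle} {n : ℕ} {x : List Bool} (hM : n + 5 + KK l r m ≤ M) :
    Imp A M n x (hg n 0 1) (pw (SC : Rg l r m → Bool)) := by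
  refine imp_hg hM (by unfold KK; omega) fun t => ?_
  rcases t with t | ((t | t) | t)
  · fin_cases t
    · simp [SC, pos_c]
    · simp [SC, pos_c]
  · simp only [SC, pos_y, Bool.false_eq_true, false_iff]
    omega
  · simp only [SC, pos_z, Bool.false_eq_true, false_iff]
    omega
  · simp only [SC, pos_y2, Bool.false_eq_true, false_iff]
    omega

section

variable {j : ℕ} {A : Oracle} {n : ℕ} {x : List Bool} {pre ppre : List Bool}
  {D : Bool → Bool → (Rg (j * 2) r m → Bool) → Bool}

theorem imp_U (hx : x.length = n) (hM : n + 5 + KK (j * 2) r m ≤ M)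
    (hD : ∀ a b (u : Fin (KK (j * 2) r m) → Bool),
      A (pre ++ (x ++ (a :: b :: List.ofFn u))) = D a b (u ∘ pos (j * 2) r m)) :
    Imp A M n x (cU n pre (j * 2) r m) (Uo D) := by
  intro a
  unfold cU
  rw [run_append, imp_SB hM, run_append, imp_dq hx hM pre _ _ hD, run_append, imp_SL hM,
    run_append, imp_dq hx hM pre _ _ hD, run_append, imp_dq hx hM pre _ _ hD, imp_SB hM]
  rfl

theorem imp_U' (hx : x.length = n) (hM : n + 5 + KK (j * 2) r m ≤ M)
    (hD : ∀ a b (u : Fin (KK (j * 2) r m) → Bool),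
      A (pre ++ (x ++ (a :: b :: List.ofFn u))) = D a b (u ∘ pos (j * 2) r m)) :
    Imp A M n x (cU' n pre (j * 2) r m) (Uo' D) := by
  intro a
  unfold cU'
  rw [run_append, imp_SB hM, run_append, imp_dq hx hM pre _ _ hD, run_append,
    imp_dq hx hM pre _ _ hD, run_append, imp_SL hM,
    run_append, imp_dq hx hM pre _ _ hD, imp_SB hM]
  rfl

theorem imp_M (hx : x.length = n) (hM : n + 5 + KK (j * 2) r m ≤ M)
    (hD : ∀ a b (u : Fin (KK (j * 2) r m) → Bool),
      A (pre ++ (x ++ (a :: b :: List.ofFn u))) = D a b (u ∘ pos (j * 2) r m)) :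
    Imp A M n x (cM n pre (j * 2) r m) (Mo D) := by
  intro a
  unfold cM
  rw [run_append, imp_SM hM, run_append, imp_dq hx hM pre _ _ hD, imp_SM hM]
  rfl

theorem imp_A (hx : x.length = n) (hM : n + 5 + KK (j * 2) r m ≤ M)
    (hA : ∀ u : Fin (KK (j * 2) r m) → Bool, A (ppre ++ List.ofFn u) = true ↔ u = fun _ => false)
    (hD : ∀ a b (u : Fin (KK (j * 2) r m) → Bool),
      A (pre ++ (x ++ (a :: b :: List.ofFn u))) = D a b (u ∘ pos (j * 2) r m)) (k : ℕ) :
    Imp A M n x (cA n pre ppre (j * 2) r m k) (Ao D k) := by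
  intro a
  unfold cA
  rw [run_append, imp_SC hM, run_append, (imp_U hx hM hD).am (imp_U' hx hM hD) (imp_zq hM hA) k,
    run_append, imp_M hx hM hD, imp_SC hM]
  rfl

theorem imp_A' (hx : x.length = n) (hM : n + 5 + KK (j * 2) r m ≤ M)
    (hA : ∀ u : Fin (KK (j * 2) r m) → Bool, A (ppre ++ List.ofFn u) = true ↔ u = fun _ => false)
    (hD : ∀ a b (u : Fin (KK (j * 2) r m) → Bool),
      A (pre ++ (x ++ (a :: b :: List.ofFn u))) = D a b (u ∘ pos (j * 2) r m)) (k : ℕ) :
    Imp A M n x (cA' n pre ppre (j * 2) r m k) (Ao' D k) := by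
  intro a
  unfold cA'
  rw [run_append, imp_SC hM, run_append, imp_M hx hM hD, run_append,
    (imp_U hx hM hD).am' (imp_U' hx hM hD) (imp_zq hM hA) k, imp_SC hM]
  rfl

/-- **The acceptance probability.** -/
theorem prob_cE (hx : x.length = n)
    (hA : ∀ u : Fin (KK (j * 2) r m) → Bool, A (ppre ++ List.ofFn u) = true ↔ u = fun _ => false)
    {z : Ig (j * 2) r m → Bool}
    (hD : ∀ a b (u : Fin (KK (j * 2) r m) → Bool),
      A (pre ++ (x ++ (a :: b :: List.ofFn u))) = Cn z a b (u ∘ pos (j * 2) r m)) (k : ℕ) :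
    prob A (cE n pre ppre (j * 2) r m k) (n + 5 + KK (j * 2) r m) x =
      (Am 1 ((Am k ((fo z + m1 z) / 2) + m2 z) / 2)) ^ 2 := by
  set M := n + 5 + KK (j * 2) r m with hM
  have hzq : Imp A M n x (zq n ppre (KK (j * 2) r m))
      (zt : ((Rg (j * 2) r m → Bool) → ℂ) →ₗ[ℂ] ((Rg (j * 2) r m → Bool) → ℂ)) :=
    imp_zq le_rfl hA
  have h1 := (imp_A (M := M) hx le_rfl hA hD k).am (imp_A' hx le_rfl hA hD k) hzq 1
  have h2 := am_apply (ap_A (Cn z) k) (A_val z (fun _ _ _ => rfl) k) 1
  set W := am (Ao (Cn z) k) (Ao' (Cn z) k) 1 with hW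
  unfold prob cE
  have h3 : run A (prep n ++ (cAm 1 (cA n pre ppre (j * 2) r m k) (cA' n pre ppre (j * 2) r m k)
      (zq n ppre (KK (j * 2) r m)) ++ fin n ppre (KK (j * 2) r m))) (ket (inp M x)) =
      run A (fin n ppre (KK (j * 2) r m)) (Psi n (KK (j * 2) r m) x
        fun u => W (ev z0) (u ∘ pos (j * 2) r m)) := by
    rw [run_append, run_append, run_prep hx hM.symm]
    have h4 : (Psi n (KK (j * 2) r m) x fun u => if u = fun _ => false then (1 : ℂ) else 0) =
        (Ps n x (ev z0 : (Rg (j * 2) r m → Bool) → ℂ) : Basis M → ℂ) := by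
      unfold Ps
      congr 1
      funext u
      unfold ev
      congr 1
      refine propext ⟨fun h => ?_, fun h => ?_⟩
      · rw [h]; rfl
      · funext t
        have := congrFun h ((pos (j * 2) r m).symm t)
        simpa using this
    rw [h4, h1]
    rfl
  rw [h3, prob_fin hM.symm hx, sum_eq_single (fun _ => false)]
  · rw [if_pos ((hA _).2 rfl)]
    have h5 : ((fun _ => false) : Fin (KK (j * 2) r m) → Bool) ∘ pos (j * 2) r m = z0 := rfl
    rw [h5, h2, Complex.norm_real, Real.norm_eq_abs, sq_abs]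
  · intro u _ hu
    rw [if_neg]
    exact fun h => hu ((hA u).1 h)
  · intro h
    exact absurd (mem_univ _) h

end

end Pool.Agent.K7x.EQ
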