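import Pool.Agent.K7x.EQ.Dist2

/-!
# The distributions of one level
-/

set_option autoImplicit false
set_option linter.unusedSectionVars false

namespace Pool.Agent.K7x.EQ

open Finset H568R2 Pool.Agent.H676 Pool.Agent.H9x.RT

/-- the size of the blocks of the level `s` -/
@[irreducible] def us (s : ℕ) : ℕ := s + 5

theorem us_eq (s : ℕ) : us s = s + 5 := by rw [us]

/-- the depth of the decision trees -/
def kq (J T : ℕ) : ℕ := 33 * T + J + 163

/-- the bound for the second level -/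
def LQ (J T : ℕ) : ℕ := (kq J T ^ 2 + 1) * (24 * (T * kq J T)) ^ (2 * (J + 1))

theorem one_le_LQ {J T : ℕ} (hT : 1 ≤ T) : 1 ≤ LQ J T := by
  unfold LQ
  refine Nat.succ_le_of_lt (Nat.mul_pos (by positivity) (Nat.pow_pos ?_))
  have : 1 ≤ kq J T := by unfold kq; omega
  have := Nat.mul_pos hT this
  omega

/-- the bound of the distance -/
noncomputable def dl (s : ℕ) (L : ℝ) : ℝ := L / 8 ^ s

/-- the probability of stars -/
noncomputable def pq' (J T : ℕ) : ℝ := (1 / (24 * ((T * kq J T : ℕ) : ℝ))) ^ (J + 1)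

/-- the bound for the decision trees -/
noncomputable def bq (J T : ℕ) : ℝ := (J + 1) * 2 ^ (T + 1) * (1 / 2) ^ (kq J T + 1)

open Classical in
/-- **The two distributions of one level.** -/
theorem exists_lvl {J T : ℕ} (hT : 1 ≤ T) (s : ℕ) :
    ∃ P Q : (Iu (us s) → Bool) → ℝ,
      (∀ a, 0 ≤ P a) ∧ ∑ a, P a = 1 ∧ (∀ a, P a ≠ 0 → va (us s) a = 1) ∧
      (∀ a, 0 ≤ Q a) ∧ ∑ a, Q a = 1 ∧ (∀ a, Q a ≠ 0 → va (us s) a = 0) ∧
      (s ≤ T → 32 * LQ J T ≤ 2 ^ (4 * (us s)) → ∀ h : (Iu (us s) → Bool) → Bool,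
        (∀ c, ∀ ρ, lv 2 (br (rs (fun a => h (Sum.elim a c)) ρ)) 0 ≤ (LQ J T : ℝ)) →
        (∀ a c, Ex (wq (pq' J T)) (fun ρ : Restr ((Fin (8 * (us s) * 2) → Bool) ×
            (Fin (8 * (us s)) → Bool)) =>
          if ¬ DTr (kq J T) (rs (fun b => h (Sum.elim a (Sum.elim b c))) ρ) then (1 : ℝ) else 0) ≤
            bq J T) →
        (∀ a b, Ex (wq (pq' J T)) (fun ρ : Restr (Fin (m2e (us s)) → Bool) =>
          if ¬ DTr (kq J T) (rs (fun c => h (Sum.elim a (Sum.elim b c))) ρ) then (1 : ℝ) else 0) ≤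
            bq J T) →
        |∑ a, P a * br h a - ∑ a, Q a * br h a| ≤ dl s (LQ J T)) := by
  by_cases hbig : 32 * LQ J T ≤ 2 ^ (4 * (us s))
  · have hk1 : 1 ≤ kq J T := by unfold kq; omega
    have hw1 : 1 ≤ T * kq J T := Nat.succ_le_of_lt (Nat.mul_pos hT hk1)
    have hwR : (1 : ℝ) ≤ ((T * kq J T : ℕ) : ℝ) := by exact_mod_cast hw1
    set w : ℝ := ((T * kq J T : ℕ) : ℝ) with hw
    have hp0 : 0 < pq' J T := by unfold pq'; positivity
    have hp1 : pq' J T ≤ 1 := by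
      unfold pq'
      refine pow_le_one₀ (by positivity) ?_
      rw [div_le_one (by positivity)]
      linarith
    have hLQ : (LQ J T : ℝ) = ((kq J T : ℝ) ^ 2 + 1) * (24 * w) ^ (2 * (J + 1)) := by
      unfold LQ
      rw [hw]
      push_cast
      ring
    have hΛp : (1 + (kq J T : ℝ)) ^ 2 ≤ 2 * (LQ J T : ℝ) * pq' J T := by
      have h1 : 2 * (LQ J T : ℝ) * pq' J T = 2 * ((kq J T : ℝ) ^ 2 + 1) * (24 * w) ^ (J + 1) := by
        rw [hLQ]
        unfold pq'
        rw [← hw, two_mul (J + 1), pow_add, one_div, inv_pow]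
        have : (24 * w) ^ (J + 1) ≠ 0 := by positivity
        field_simp
      rw [h1]
      have h2 : (1 : ℝ) ≤ (24 * w) ^ (J + 1) := one_le_pow₀ (by linarith)
      have h3 : (1 + (kq J T : ℝ)) ^ 2 ≤ 2 * ((kq J T : ℝ) ^ 2 + 1) := by
        nlinarith [sq_nonneg ((kq J T : ℝ) - 1)]
      exact h3.trans (le_mul_of_one_le_right (by positivity) h2)
    obtain ⟨P, Q, h1, h2, h3, h4, h5, h6, h7⟩ := exists_dist2 (u := us s) (t := kq J T)
      (Λ := 2 * (LQ J T : ℝ)) (by rw [us_eq]; omega) hp0 hp1 hΛp (by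
        have : ((32 * LQ J T : ℕ) : ℝ) ≤ ((2 ^ (4 * (us s)) : ℕ) : ℝ) := by exact_mod_cast hbig
        push_cast at this
        linarith)
    refine ⟨P, Q, h1, h2, h3, h4, h5, h6, fun hsT _ h hlv hb1 hb2 => ?_⟩
    have hL1 : (1 : ℝ) ≤ (LQ J T : ℝ) := by exact_mod_cast one_le_LQ hT
    refine (h7 h (LQ J T) (bq J T) hL1 hlv hb1 hb2).trans ?_
    set L : ℝ := (LQ J T : ℝ) with hL
    set U : ℝ := 2 ^ (4 * (us s)) with hU
    have hU0 : 0 < U := by positivity
    have hβ : bq J T ≤ 1 / U := by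
      unfold bq
      have e1 : ((J : ℝ) + 1) ≤ 2 ^ J := by
        have : J + 1 ≤ 2 ^ J := Nat.lt_two_pow_self
        exact_mod_cast this
      have e2 : (1 / 2 : ℝ) ^ (kq J T + 1) = 1 / 2 ^ (kq J T + 1) := by rw [div_pow, one_pow]
      rw [e2, mul_one_div, div_le_div_iff₀ (by positivity) hU0, one_mul]
      calc ((J : ℝ) + 1) * 2 ^ (T + 1) * U ≤ 2 ^ J * 2 ^ (T + 1) * U := by
            refine mul_le_mul_of_nonneg_right (mul_le_mul_of_nonneg_right e1 (by positivity)) hU0.le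
        _ = 2 ^ (J + (T + 1) + 4 * (us s)) := by rw [hU, ← pow_add, ← pow_add]
        _ ≤ 2 ^ (kq J T + 1) := by
          refine pow_le_pow_right₀ (by norm_num) ?_
          unfold kq
          rw [us_eq]
          omega
    have h8 : (L + 9) / 2 ^ (8 * (us s)) ≤ 10 * L / U := by
      have e1 : U ≤ 2 ^ (8 * (us s)) := pow_le_pow_right₀ (by norm_num) (by omega)
      calc (L + 9) / 2 ^ (8 * (us s)) ≤ (L + 9) / U :=
            div_le_div_of_nonneg_left (by linarith) hU0 e1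
        _ ≤ 10 * L / U := div_le_div_of_nonneg_right (by linarith) hU0.le
    have h9 : 4 * (26 * (2 * L) / U + bq J T) + (L + 9) / 2 ^ (8 * (us s)) ≤ 222 * L / U := by
      have e1 : 222 * L / U = 4 * (26 * (2 * L) / U) + 4 * (L / U) + 10 * L / U := by ring
      have e2 : 1 / U ≤ L / U := div_le_div_of_nonneg_right hL1 hU0.le
      rw [e1]
      linarith
    refine h9.trans ?_
    unfold dl
    rw [div_le_div_iff₀ hU0 (by positivity)]
    have e3 : U = 1048576 * (2 ^ s * 8 ^ s) := by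
      rw [hU]
      have : (8 : ℝ) ^ s = 2 ^ (3 * s) := by rw [pow_mul]; norm_num
      rw [this, ← pow_add, show 4 * (us s) = 20 + (s + 3 * s) by rw [us_eq]; ring, pow_add]
      norm_num
    rw [e3]
    have e4 : (1 : ℝ) ≤ 2 ^ s := one_le_pow₀ (by norm_num)
    have e5 : (0 : ℝ) < 8 ^ s := by positivity
    have e6 : (8 : ℝ) ^ s ≤ 2 ^ s * 8 ^ s := le_mul_of_one_le_left e5.le e4
    calc 222 * L * 8 ^ s ≤ 222 * L * (2 ^ s * 8 ^ s) :=
          mul_le_mul_of_nonneg_left e6 (by positivity)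
      _ ≤ L * (1048576 * (2 ^ s * 8 ^ s)) := by
        have : (0 : ℝ) ≤ L * (2 ^ s * 8 ^ s) := by positivity
        linarith
  · obtain ⟨P, Q, h1, h2, h3, h4, h5, h6, _⟩ := exists_dist2 (u := us s) (t := 0) (p := 1) (Λ := 1)
      (by rw [us_eq]; omega) (by norm_num) le_rfl (by norm_num) (by
        have : (2 : ℝ) ^ 4 ≤ 2 ^ (4 * (us s)) :=
          pow_le_pow_right₀ (by norm_num) (by rw [us_eq]; omega)
        linarith)
    exact ⟨P, Q, h1, h2, h3, h4, h5, h6, fun _ h => absurd h hbig⟩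

end Pool.Agent.K7x.EQ
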