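import Pool.Agent.H9x.RT.Nest

/-!
# Restrictions of algorithms with nested questions
-/

set_option autoImplicit false
set_option linter.unusedSectionVars false

namespace Pool.Agent.K7x.EQ

open Finset H568R2 Pool.Agent.H676 Pool.Agent.H620R2.Gauge Pool.Agent.NPC Pool.Agent.H622R2.Exp
  Pool.Agent.H9x.RT

variable {I I' : Type*} [Fintype I] [DecidableEq I] [Fintype I'] [DecidableEq I']

/-- substituting constants and coordinates -/
theorem Adm.comap {m T : ℕ} {F : (I → Bool) → Oracle} (h : Adm m T F) {φ : (I' → Bool) → (I → Bool)}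
    (hφ : ∀ i, (∃ c, ∀ z, φ z i = c) ∨ ∃ i', ∀ z, φ z i = z i') :
    Adm m T (fun z => F (φ z)) where
  low q hq := by
    obtain ⟨c, hc⟩ := h.low q hq
    exact ⟨c, fun z => hc _⟩
  cls q hq := by
    rcases h.cls q hq with ⟨c, hc⟩ | ⟨i, hi⟩ | ⟨Y, M, N, h1, h2, h3⟩
    · exact Or.inl ⟨c, fun z => hc _⟩
    · rcases hφ i with ⟨c, hc⟩ | ⟨i', hi'⟩
      · exact Or.inl ⟨c, fun z => by rw [hi, hc]⟩
      · exact Or.inr (Or.inl ⟨i', fun z => by rw [hi, hi']⟩)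
    · exact Or.inr (Or.inr ⟨Y, M, N, h1, h2, fun z => h3 _⟩)

open Classical in
/-- **A random restriction makes an algorithm with nested questions a decision tree.** -/
theorem Adm.dtr_le {m T : ℕ} {F : (I → Bool) → Oracle} (hF : Adm m T F) {k J : ℕ} (hk : 1 ≤ k)
    (hT : 1 ≤ T) (hJ : T ≤ m ^ 2 ^ J)
    {Y : Set (List Bool)} {M : Alg} (hY : ∀ y ∈ Y, M.p.eval y.length ≤ T)
    {f : (I → Bool) → Bool}
    (hf : ∀ z, f z = true ↔ ∃ y ∈ Y, M.out (CC.cut T (F z)) y = some [true]) :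
    Ex (wq ((1 / (24 * ((T * k : ℕ) : ℝ))) ^ (J + 1))) (fun ρ : Restr I =>
      if ¬ DTr k (rs f ρ) then (1 : ℝ) else 0) ≤ (J + 1) * 2 ^ (T + 1) * (1 / 2) ^ (k + 1) := by
  set w : ℕ := T * k with hw
  have hw1 : 1 ≤ w := Nat.succ_le_of_lt (Nat.mul_pos hT hk)
  have hwR : (1 : ℝ) ≤ w := by exact_mod_cast hw1
  set q₀ : ℝ := 1 / (24 * w) with hq₀
  have h0 : 0 < q₀ := by positivity
  have h1 : q₀ ≤ 1 / 3 := by
    rw [hq₀]
    refine one_div_le_one_div_of_le (by norm_num) (by linarith)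
  have hhalf : 12 * (w : ℝ) * q₀ = 1 / 2 := by
    rw [hq₀]
    field_simp
    norm_num
  have hst := hF.steps hk hT h0.le h1 J
  rw [← hw, hhalf] at hst
  rw [pow_succ, wq_cmp]
  have hwj : ∀ a, 0 ≤ wq (q₀ ^ J) a :=
    wq_nonneg (pow_nonneg h0.le J) (pow_le_one₀ h0.le (by linarith))
  have hin : ∀ ρ : Restr I, Ex (wq q₀) (fun τ : Restr I =>
      if ¬ DTr k (rs f (cmp ρ τ)) then (1 : ℝ) else 0) ≤
      (if ¬ Gd F k (m ^ 2 ^ J) T ρ then (1 : ℝ) else 0) + (1 / 2) ^ (k + 1) := by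
    intro ρ
    by_cases hGd : Gd F k (m ^ 2 ^ J) T ρ
    · rw [if_neg (not_not.2 hGd), zero_add]
      have h2 := cert_alg hGd hJ le_rfl hY hf
      have h3 := switch (k := k) (Nat.succ_le_of_lt (Nat.mul_pos hT hk)) h0.le h1 h2
      rw [← hw, hhalf] at h3
      refine le_trans (le_of_eq ?_) h3
      congr 1
      funext τ
      rw [rs_cmp]
    · rw [if_pos hGd]
      have h2 : Ex (wq q₀) (fun τ : Restr I => if ¬ DTr k (rs f (cmp ρ τ)) then (1 : ℝ) else 0) ≤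
          Ex (wq q₀) (fun _ : Restr I => 1) :=
        Ex_mono (wq_nonneg h0.le (by linarith)) fun τ => by split_ifs <;> norm_num
      rw [Ex_const (wq_sum _)] at h2
      have : (0 : ℝ) ≤ (1 / 2) ^ (k + 1) := by positivity
      linarith
  refine (Ex_mono hwj hin).trans ?_
  rw [Ex_add, Ex_const (wq_sum _)]
  have h4 : (1 : ℝ) ≤ 2 ^ (T + 1) := one_le_pow₀ (by norm_num)
  have h5 : (0 : ℝ) ≤ (1 / 2) ^ (k + 1) := by positivity
  have h6 : (1 / 2 : ℝ) ^ (k + 1) ≤ 2 ^ (T + 1) * (1 / 2) ^ (k + 1) := by nlinarith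
  calc _ ≤ J * (2 ^ (T + 1) * (1 / 2 : ℝ) ^ (k + 1)) + 2 ^ (T + 1) * (1 / 2) ^ (k + 1) :=
        add_le_add hst h6
    _ = _ := by ring

end Pool.Agent.K7x.EQ
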