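import Pool.Agent.H9x.RT.Circ
import Pool.Agent.K7x.EQ.Cheb

/-!
# Operators given by Hadamard gates and phases; exact amplitude amplification
-/

set_option autoImplicit false
set_option linter.unusedSectionVars false

namespace Pool.Agent.K7x.EQ

open Finset Pool.Agent.H9x.RT

variable {T : Type*} [Fintype T] [DecidableEq T]

/-- the matrix entry of the Hadamard gate or of the identity -/
noncomputable def ks (s : Bool) (x y : Bool) : ℂ := if s then hk x y else if x = y then 1 else 0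

theorem ks_symm (s x y : Bool) : ks s x y = ks s y x := by
  unfold ks
  rw [hk_symm]
  simp only [eq_comm]

theorem ks_mul (s x y : Bool) : ∑ z, ks s x z * ks s z y = if x = y then 1 else 0 := by
  rw [Fintype.sum_bool]
  have h2 : s2 ≠ 0 := s2_ne
  have h3 : s2 ^ 2 = 2 := by rw [sq]; exact s2_sq
  cases s
  · cases x <;> cases y <;> simp [ks]
  · cases x <;> cases y <;> simp only [ks, hk, if_true, Bool.and_true, Bool.and_false,
      Bool.false_eq_true, if_false, Bool.and_self, Bool.true_eq_false] <;>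
      field_simp <;> rw [h3] <;> norm_num

/-- Hadamard gates on the coordinates where `S` is true -/
noncomputable def pw (S : T → Bool) : ((T → Bool) → ℂ) →ₗ[ℂ] ((T → Bool) → ℂ) where
  toFun a u := ∑ v, (∏ t, ks (S t) (u t) (v t)) * a v
  map_add' a b := by
    funext u
    simp only [Pi.add_apply, mul_add, sum_add_distrib]
  map_smul' c a := by
    funext u
    simp only [Pi.smul_apply, smul_eq_mul, RingHom.id_apply, mul_sum]
    exact sum_congr rfl fun v _ => by ring

theorem pw_apply (S : T → Bool) (a : (T → Bool) → ℂ) (u : T → Bool) :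
    pw S a u = ∑ v, (∏ t, ks (S t) (u t) (v t)) * a v := rfl

/-- a phase -/
noncomputable def ph (F : (T → Bool) → Bool) : ((T → Bool) → ℂ) →ₗ[ℂ] ((T → Bool) → ℂ) where
  toFun a u := sgc (F u) * a u
  map_add' a b := by
    funext u
    simp only [Pi.add_apply, mul_add]
  map_smul' c a := by
    funext u
    simp only [Pi.smul_apply, smul_eq_mul, RingHom.id_apply]
    ring

theorem ph_apply (F : (T → Bool) → Bool) (a : (T → Bool) → ℂ) (u : T → Bool) :
    ph F a u = sgc (F u) * a u := rfl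

/-- the bilinear form -/
noncomputable def ip (a b : (T → Bool) → ℂ) : ℂ := ∑ u, a u * b u

/-- a basis vector -/
noncomputable def ev (v : T → Bool) : (T → Bool) → ℂ := fun u => if u = v then 1 else 0

theorem ip_ev (v : T → Bool) (a : (T → Bool) → ℂ) : ip (ev v) a = a v := by
  unfold ip ev
  rw [sum_eq_single v]
  · simp
  · intro u _ hu
    simp [hu]
  · intro h
    exact absurd (mem_univ _) h

theorem ip_comm (a b : (T → Bool) → ℂ) : ip a b = ip b a :=
  sum_congr rfl fun u _ => mul_comm _ _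

theorem ip_add (a b c : (T → Bool) → ℂ) : ip a (b + c) = ip a b + ip a c := by
  unfold ip
  simp only [Pi.add_apply, mul_add, sum_add_distrib]

theorem ip_smul (a b : (T → Bool) → ℂ) (c : ℂ) : ip a (c • b) = c * ip a b := by
  unfold ip
  simp only [Pi.smul_apply, smul_eq_mul, mul_sum]
  exact sum_congr rfl fun u _ => by ring

/-- a map and its transpose, which is its inverse -/
structure AP (W W' : ((T → Bool) → ℂ) →ₗ[ℂ] ((T → Bool) → ℂ)) : Prop where
  adj : ∀ a b, ip (W a) b = ip a (W' b)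
  inv : ∀ a, W' (W a) = a
  inv' : ∀ a, W (W' a) = a

theorem AP.symm {W W' : ((T → Bool) → ℂ) →ₗ[ℂ] ((T → Bool) → ℂ)} (h : AP W W') : AP W' W where
  adj a b := by rw [ip_comm, ← h.adj, ip_comm]
  inv := h.inv'
  inv' := h.inv

theorem AP.comp {W W' V V' : ((T → Bool) → ℂ) →ₗ[ℂ] ((T → Bool) → ℂ)} (h : AP W W')
    (h' : AP V V') : AP (V ∘ₗ W) (W' ∘ₗ V') where
  adj a b := by
    simp only [LinearMap.comp_apply]
    rw [h'.adj, h.adj]
  inv a := by simp only [LinearMap.comp_apply]; rw [h'.inv, h.inv]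
  inv' a := by simp only [LinearMap.comp_apply]; rw [h.inv', h'.inv']

theorem AP.one : AP (LinearMap.id : ((T → Bool) → ℂ) →ₗ[ℂ] ((T → Bool) → ℂ)) LinearMap.id where
  adj a b := rfl
  inv a := rfl
  inv' a := rfl

theorem ap_pw (S : T → Bool) : AP (pw S) (pw S) := by
  have hinv : ∀ a : (T → Bool) → ℂ, pw S (pw S a) = a := by
    intro a
    funext u
    simp only [pw_apply, mul_sum]
    rw [sum_comm]
    have h1 : ∀ w : T → Bool, ∑ v : T → Bool, (∏ t, ks (S t) (u t) (v t)) *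
        ((∏ t, ks (S t) (v t) (w t)) * a w) = (if u = w then 1 else 0) * a w := by
      intro w
      have h2 : ∀ v : T → Bool, (∏ t, ks (S t) (u t) (v t)) * ((∏ t, ks (S t) (v t) (w t)) * a w) =
          (∏ t, (ks (S t) (u t) (v t) * ks (S t) (v t) (w t))) * a w := by
        intro v
        rw [prod_mul_distrib]
        ring
      rw [sum_congr rfl fun v _ => h2 v, ← sum_mul]
      congr 1
      have h3 := Finset.prod_univ_sum (fun _ : T => (univ : Finset Bool))
        (fun t z => ks (S t) (u t) z * ks (S t) z (w t))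
      rw [Fintype.piFinset_univ] at h3
      rw [← h3, prod_congr rfl fun t _ => ks_mul (S t) (u t) (w t), ← delta_prod]
    rw [sum_congr rfl fun w _ => h1 w, sum_eq_single u]
    · simp
    · intro w _ hw
      rw [if_neg (Ne.symm hw), zero_mul]
    · intro h
      exact absurd (mem_univ _) h
  refine ⟨fun a b => ?_, hinv, hinv⟩
  unfold ip
  simp only [pw_apply, mul_sum, sum_mul]
  rw [sum_comm]
  refine sum_congr rfl fun v _ => sum_congr rfl fun u _ => ?_
  have : ∏ t, ks (S t) (u t) (v t) = ∏ t, ks (S t) (v t) (u t) :=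
    prod_congr rfl fun t _ => ks_symm _ _ _
  rw [this]
  ring

theorem ap_ph (F : (T → Bool) → Bool) : AP (ph F) (ph F) := by
  have hinv : ∀ a : (T → Bool) → ℂ, ph F (ph F a) = a := by
    intro a
    funext u
    simp only [ph_apply, sgc]
    cases F u <;> simp
  refine ⟨fun a b => ?_, hinv, hinv⟩
  unfold ip
  refine sum_congr rfl fun u _ => ?_
  rw [ph_apply, ph_apply]
  ring

/-- the zero state -/
abbrev z0 : T → Bool := fun _ => false

/-- the phase of the zero state -/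
noncomputable def zt : ((T → Bool) → ℂ) →ₗ[ℂ] ((T → Bool) → ℂ) := ph fun u => decide (u = z0)

theorem zt_apply (a : (T → Bool) → ℂ) : zt a = a + (-(2 * a z0)) • ev z0 := by
  funext u
  unfold zt ev
  rw [ph_apply]
  simp only [Pi.add_apply, Pi.smul_apply, smul_eq_mul, sgc]
  by_cases h : u = z0
  · subst h
    simp
    ring
  · simp [h]

/-- one round -/
noncomputable def rd (W W' : ((T → Bool) → ℂ) →ₗ[ℂ] ((T → Bool) → ℂ)) :
    ((T → Bool) → ℂ) →ₗ[ℂ] ((T → Bool) → ℂ) := W ∘ₗ zt ∘ₗ W' ∘ₗ zt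

/-- one inverse round -/
noncomputable def rd' (W W' : ((T → Bool) → ℂ) →ₗ[ℂ] ((T → Bool) → ℂ)) :
    ((T → Bool) → ℂ) →ₗ[ℂ] ((T → Bool) → ℂ) := zt ∘ₗ W ∘ₗ zt ∘ₗ W'

/-- rounds of the amplification -/
noncomputable def rds (W W' : ((T → Bool) → ℂ) →ₗ[ℂ] ((T → Bool) → ℂ)) :
    ℕ → ((T → Bool) → ℂ) →ₗ[ℂ] ((T → Bool) → ℂ)
  | 0 => LinearMap.id
  | j + 1 => rd W W' ∘ₗ rds W W' j

/-- inverse rounds of the amplification -/
noncomputable def rds' (W W' : ((T → Bool) → ℂ) →ₗ[ℂ] ((T → Bool) → ℂ)) :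
    ℕ → ((T → Bool) → ℂ) →ₗ[ℂ] ((T → Bool) → ℂ)
  | 0 => LinearMap.id
  | j + 1 => rds' W W' j ∘ₗ rd' W W'

/-- the amplified map -/
noncomputable def am (W W' : ((T → Bool) → ℂ) →ₗ[ℂ] ((T → Bool) → ℂ)) (k : ℕ) :
    ((T → Bool) → ℂ) →ₗ[ℂ] ((T → Bool) → ℂ) := rds W W' k ∘ₗ W

/-- its inverse -/
noncomputable def am' (W W' : ((T → Bool) → ℂ) →ₗ[ℂ] ((T → Bool) → ℂ)) (k : ℕ) :
    ((T → Bool) → ℂ) →ₗ[ℂ] ((T → Bool) → ℂ) := W' ∘ₗ rds' W W' k

theorem ap_zt : AP (zt : ((T → Bool) → ℂ) →ₗ[ℂ] ((T → Bool) → ℂ)) zt := ap_ph _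

theorem AP.rd {W W' : ((T → Bool) → ℂ) →ₗ[ℂ] ((T → Bool) → ℂ)} (h : AP W W') :
    AP (rd W W') (rd' W W') := by
  have := ((ap_zt.comp h.symm).comp ap_zt).comp h
  exact this

theorem AP.rds {W W' : ((T → Bool) → ℂ) →ₗ[ℂ] ((T → Bool) → ℂ)} (h : AP W W') :
    ∀ j, AP (rds W W' j) (rds' W W' j)
  | 0 => AP.one
  | j + 1 => (AP.rds h j).comp h.rd

theorem AP.am {W W' : ((T → Bool) → ℂ) →ₗ[ℂ] ((T → Bool) → ℂ)} (h : AP W W') (k : ℕ) :
    AP (am W W' k) (am' W W' k) := h.comp (h.rds k)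

theorem ev_z0 : (ev z0 : (T → Bool) → ℂ) z0 = 1 := by simp [ev]

/-- **The amplitude after `k` rounds.** -/
theorem am_apply {W W' : ((T → Bool) → ℂ) →ₗ[ℂ] ((T → Bool) → ℂ)} (h : AP W W') {x : ℝ}
    (hx : W (ev z0) z0 = x) (k : ℕ) : am W W' k (ev z0) z0 = (Am k x : ℝ) := by
  have hx' : W' (ev z0) z0 = x := by
    have h0 := h.adj (ev z0) (ev z0)
    rw [ip_comm, ip_ev, ip_ev, hx] at h0
    exact h0.symm
  have h1 : ∀ j, rds W W' j (W (ev z0)) =
      (((PQ x j).1 : ℝ) : ℂ) • W (ev z0) + (((PQ x j).2 : ℝ) : ℂ) • ev z0 := by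
    intro j
    induction j with
    | zero => simp [EQ.rds, PQ]
    | succ j ih =>
      simp only [EQ.rds, LinearMap.comp_apply, ih, EQ.rd, map_add, map_smul]
      have e1 : zt (W (ev z0)) = W (ev z0) + (-(2 * (x : ℂ))) • ev z0 := by rw [zt_apply, hx]
      have e2 : zt (ev z0 : (T → Bool) → ℂ) = (-1 : ℂ) • ev z0 := by
        rw [zt_apply, ev_z0]
        funext u
        simp only [Pi.add_apply, Pi.smul_apply, smul_eq_mul]
        ring
      have e3 : zt (W' (ev z0)) = W' (ev z0) + (-(2 * (x : ℂ))) • ev z0 := by rw [zt_apply, hx']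
      simp only [e1, e2, map_add, map_smul, h.inv, h.inv', e3, PQ]
      funext u
      simp only [Pi.add_apply, Pi.smul_apply, smul_eq_mul]
      push_cast
      ring
  unfold am
  rw [LinearMap.comp_apply, h1]
  simp only [Pi.add_apply, Pi.smul_apply, smul_eq_mul, hx, ev_z0, Am]
  push_cast
  ring

theorem rd_fix {W W' : ((T → Bool) → ℂ) →ₗ[ℂ] ((T → Bool) → ℂ)} (h : AP W W')
    {b : (T → Bool) → ℂ} (hb : W b = b) (hb0 : b z0 = 0) : rd W W' b = b := by
  have h1 : zt b = b := by rw [zt_apply, hb0]; simp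
  have h2 : W' b = b := by
    have := h.inv b
    rwa [hb] at this
  simp only [rd, LinearMap.comp_apply, h1, h2, hb]

theorem am_fix {W W' : ((T → Bool) → ℂ) →ₗ[ℂ] ((T → Bool) → ℂ)} (h : AP W W')
    {b : (T → Bool) → ℂ} (hb : W b = b) (hb0 : b z0 = 0) (k : ℕ) : am W W' k b = b := by
  unfold am
  rw [LinearMap.comp_apply, hb]
  induction k with
  | zero => rfl
  | succ k ih => simp only [rds, LinearMap.comp_apply, ih]; exact rd_fix h hb hb0

/-- the map preserves the states in which the qubit `c` is zero -/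
def Sup (c : T) (W : ((T → Bool) → ℂ) →ₗ[ℂ] ((T → Bool) → ℂ)) : Prop :=
  ∀ a, (∀ u : T → Bool, u c = true → a u = 0) → ∀ u : T → Bool, u c = true → W a u = 0

theorem Sup.comp {c : T} {W V : ((T → Bool) → ℂ) →ₗ[ℂ] ((T → Bool) → ℂ)} (h : Sup c W)
    (h' : Sup c V) : Sup c (V ∘ₗ W) := fun a ha => h' _ (h a ha)

theorem sup_ph (c : T) (F : (T → Bool) → Bool) : Sup c (ph F) := fun a ha u hu => by
  rw [ph_apply, ha u hu, mul_zero]

theorem sup_pw {c : T} {S : T → Bool} (h : S c = false) : Sup c (pw S) := fun a ha u hu => by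
  rw [pw_apply]
  refine sum_eq_zero fun v _ => ?_
  cases hv : v c with
  | true => rw [ha v hv, mul_zero]
  | false =>
    have : ∏ t, ks (S t) (u t) (v t) = 0 := prod_eq_zero (mem_univ c) (by simp [ks, h, hu, hv])
    rw [this, zero_mul]

theorem Sup.am {c : T} {W W' : ((T → Bool) → ℂ) →ₗ[ℂ] ((T → Bool) → ℂ)} (h : Sup c W)
    (h' : Sup c W') (k : ℕ) : Sup c (am W W' k) := by
  have h1 : Sup c (rd W W') := (((sup_ph c _).comp h').comp (sup_ph c _)).comp h
  have h2 : ∀ j, Sup c (rds W W' j) := by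
    intro j
    induction j with
    | zero => exact fun a ha => ha
    | succ j ih => exact ih.comp h1
  exact h.comp (h2 k)

end Pool.Agent.K7x.EQ
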