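import Pool.Agent.K7x.EQ.Lvl
import Pool.Agent.K7x.EQ.Nest
import Pool.Agent.K7x.EQ.Fam
import Pool.Agent.H9x.RT.W1

/-!
# The oracle
-/

set_option autoImplicit false

namespace Pool.Agent.K7x.EQ

open Pool.Agent.NPC Pool.Agent.H622R2 Pool.Agent.H620R2.Gauge
  Pool.Agent.TH678.ETH Pool.Agent.TH678.SETH Pool.Agent.TH678.RS

open Pool.Agent.H622R2.Exp hiding Dat

open Pool.Agent.H9x.V1 (Ac ac_congr poly_rep poly_cS)

open Pool.Agent.H9x.RT (Dat lev lead frd lead_le frd_rep Kq cut_congr)

/-- the number of address bits -/
def LA (s : ℕ) : ℕ := 2 + KK (8 * us s * 2) (8 * us s) (m2e (us s))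

/-- indices of codes -/
inductive Ix (S N : ℕ → Polynomial ℕ) (b : ℕ → ℕ) : Type
  | far (p : IB S b) : Ix S N b
  | blk (e : ℕ) (x w : List Bool) (hw : w.length = LA ((S e).eval x.length)) : Ix S N b
  | np (e i : ℕ) (x : List Bool) (hi : (N e).eval x.length ^ 2 ≤ i) : Ix S N b

variable {S N : ℕ → Polynomial ℕ} {b : ℕ → ℕ}

/-- addresses of codes -/
def cI : Ix S N b → List Bool
  | .far p => true :: true :: cB S b p
  | .blk e x w _ => true :: false :: false :: cS e ((S e).eval x.length) (x ++ w)
  | .np e i x _ => true :: false :: true :: cS e i x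

theorem cI_inj : Function.Injective (cI : Ix S N b → List Bool) := by
  intro p q h
  cases p with
  | far p =>
    cases q with
    | far q =>
      simp only [cI, List.cons.injEq, true_and] at h
      rw [cB_inj S b h]
    | blk e x w hw => simp [cI] at h
    | np e i x hi => simp [cI] at h
  | blk e x w hw =>
    cases q with
    | far q => simp [cI] at h
    | blk e' x' w' hw' =>
      simp only [cI, List.cons.injEq, true_and] at h
      obtain ⟨h1, h2, h3⟩ := cS_inj h
      subst h1
      have h4 : w.length = w'.length := by rw [hw, hw', h2]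
      obtain ⟨h5, h6⟩ := List.append_inj' h3 h4
      subst h5
      subst h6
      rfl
    | np e' i' x' hi' => simp [cI] at h
  | np e i x hi =>
    cases q with
    | far q => simp [cI] at h
    | blk e' x' w' hw' => simp [cI] at h
    | np e' i' x' hi' =>
      simp only [cI, List.cons.injEq, true_and] at h
      obtain ⟨h1, h2, h3⟩ := cS_inj h
      subst h1
      subst h2
      subst h3
      rfl

open Classical in
/-- the base oracle -/
noncomputable def base (D : Dat) : Oracle
  | false :: false :: v => decide (∀ b ∈ v, b = false)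
  | false :: true :: u => frd D.fr u
  | _ => false

variable (g : ℕ → SAlg × Polynomial ℕ) (h : ℕ → Alg × Polynomial ℕ)

open Classical in
/-- the content of a code -/
def cont (D : Dat) : Ix S N b → Oracle → Prop
  | .far p, A => Ac g S p.1.1 p.1.2.2 A
  | .blk e x w _, A => D.bl (e, x) (decide (Ac g S e x A)) w = true
  | .np e _ x _, A => ∃ w : List Bool, w.length ≤ (h e).2.eval x.length ∧
      (h e).1.out (CC.cut ((N e).eval x.length) A) (pairBits w x) = some [true]

variable {g h}

theorem lt_far (hS : ∀ e n, n + e + 1 ≤ (S e).eval n) (p : IB S b) :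
    (S p.1.1).eval p.1.2.2.length < (cI (Ix.far p : Ix S N b)).length := by
  obtain ⟨⟨e, i, y⟩, h⟩ := p
  show (S e).eval y.length < (true :: true :: cS e i y).length
  have h1 : (S e).eval y.length ^ (b ((S e).eval y.length) + 1) ≤ i := h
  have h3 : (S e).eval y.length ≤ i := by
    have h1' : 1 ≤ (S e).eval y.length := le_trans (by omega) (hS e _)
    exact (Nat.le_self_pow (by omega) _).trans h1
  rw [List.length_cons, List.length_cons, length_cS]
  omega

theorem lt_blk (e : ℕ) (x w : List Bool) (hw : w.length = LA ((S e).eval x.length)) :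
    (S e).eval x.length < (cI (Ix.blk e x w hw : Ix S N b)).length := by
  show (S e).eval x.length < (true :: false :: false :: cS e _ (x ++ w)).length
  rw [List.length_cons, List.length_cons, List.length_cons, length_cS]
  omega

theorem lt_np (e i : ℕ) (x : List Bool) (hi : (N e).eval x.length ^ 2 ≤ i) :
    (N e).eval x.length < (cI (Ix.np e i x hi : Ix S N b)).length := by
  show (N e).eval x.length < (true :: false :: true :: cS e i x).length
  have h1 : (N e).eval x.length ≤ (N e).eval x.length ^ 2 := Nat.le_self_pow (by norm_num) _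
  rw [List.length_cons, List.length_cons, List.length_cons, length_cS]
  omega

theorem cont_congr (hS : ∀ e n, n + e + 1 ≤ (S e).eval n) (D : Dat) (p : Ix S N b) {A A' : Oracle}
    (hA : ∀ z : List Bool, z.length < (cI p).length → A z = A' z) :
    cont g h D p A ↔ cont g h D p A' := by
  cases p with
  | far p =>
    exact ac_congr fun z hz => hA z (lt_of_le_of_lt hz (lt_far hS p))
  | blk e x w hw =>
    have h1 : Ac g S e x A ↔ Ac g S e x A' :=
      ac_congr fun z hz => hA z (lt_of_le_of_lt hz (lt_blk e x w hw))
    show D.bl (e, x) (@decide (Ac g S e x A) (Classical.propDecidable _)) w = true ↔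
      D.bl (e, x) (@decide (Ac g S e x A') (Classical.propDecidable _)) w = true
    have h2 : @decide (Ac g S e x A) (Classical.propDecidable _) =
        @decide (Ac g S e x A') (Classical.propDecidable _) := by
      rw [decide_eq_decide]
      exact h1
    rw [h2]
  | np e i x hi =>
    show (∃ w : List Bool, _ ∧ _) ↔ (∃ w : List Bool, _ ∧ _)
    rw [cut_congr fun z hz => hA z (lt_of_le_of_lt hz (lt_np e i x hi))]

variable (g h S N b) in
/-- the oracle -/
noncomputable def orc (D : Dat) : Oracle :=
  C1.Phi (cI : Ix S N b → List Bool) (cont g h D) (base D)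

theorem orc_on (hS : ∀ e n, n + e + 1 ≤ (S e).eval n) (D : Dat) (p : Ix S N b) :
    orc S N b g h D (cI p) = true ↔ cont g h D p (orc S N b g h D) :=
  C1.Phi_code _ cI_inj _ _ (fun p _ _ hA => cont_congr hS D p hA) p

theorem orc_off (D : Dat) {y : List Bool} (hy : ∀ p : Ix S N b, y ≠ cI p) :
    orc S N b g h D y = base D y := C1.Phi_not _ _ _ _ hy

/-- the truth values are determined below the level of a block -/
theorem tv_congr {D D' : Dat} {e : ℕ} {x : List Bool}
    (hA : ∀ z : List Bool, z.length ≤ (S e).eval x.length →
      orc S N b g h D z = orc S N b g h D' z) :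
    Ac g S e x (orc S N b g h D) ↔ Ac g S e x (orc S N b g h D') := ac_congr hA

/-- **Locality.** -/
theorem orc_loc (hS : ∀ e n, n + e + 1 ≤ (S e).eval n) {n : ℕ} {D D' : Dat}
    (hb : ∀ c, lev S c < n → D.bl c = D'.bl c) (hf : ∀ s < n, D.fr s = D'.fr s) :
    ∀ (m : ℕ) (q : List Bool), q.length = m → m ≤ n →
      orc S N b g h D q = orc S N b g h D' q := by
  intro m
  induction m using Nat.strong_induction_on with
  | _ m ih =>
    intro q hq hqn
    by_cases hp : ∃ p : Ix S N b, q = cI p
    · obtain ⟨p, rfl⟩ := hp
      have hA : ∀ z : List Bool, z.length < (cI p).length →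
          orc S N b g h D z = orc S N b g h D' z :=
        fun z hz => ih z.length (by omega) z rfl (by omega)
      rw [Bool.eq_iff_iff, orc_on hS, orc_on hS, cont_congr hS D p hA]
      cases p with
      | far p => exact Iff.rfl
      | blk e x w hw =>
        show D.bl (e, x) _ w = true ↔ D'.bl (e, x) _ w = true
        have h1 := lt_blk (N := N) (b := b) e x w hw
        rw [hb (e, x) (by show (S e).eval x.length < n; omega)]
      | np e i x hi => exact Iff.rfl
    · push Not at hp
      rw [orc_off D hp, orc_off D' hp]
      rcases q with _ | ⟨c₁, _ | ⟨c₂, u⟩⟩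
      · rfl
      · cases c₁ <;> rfl
      · cases c₁
        · cases c₂
          · rfl
          · show frd D.fr u = frd D'.fr u
            unfold frd
            have h1 := lead_le u
            have h2 : (false :: true :: u).length = m := hq
            rw [List.length_cons, List.length_cons] at h2
            rw [hf (lead u) (by omega)]
        · cases c₂ <;> rfl

end Pool.Agent.K7x.EQ
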