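import Pool.Agent.H9x.RT.Lvl

/-!
# Decision trees cannot see the sum of many signs
-/

set_option autoImplicit false
set_option linter.unusedSectionVars false

namespace Pool.Agent.K7x.EQ

open Finset H568R2 Pool.Agent.H676 Pool.Agent.H9x.RT

variable {I : Type*} [Fintype I] [DecidableEq I]

/-- the sign of a bit as an integer -/
def sgi (b : Bool) : ℤ := if b then -1 else 1

theorem sgi_cast (b : Bool) : ((sgi b : ℤ) : ℝ) = sg b := by cases b <;> simp [sgi, sg]

/-- the sum of the signs in `R` -/
def ssum (R : Finset I) (a : I → Bool) : ℤ := ∑ i ∈ R, sgi (a i)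

/-- the sum of `F` over the points of the slice -/
noncomputable def TS (R : Finset I) (s : ℤ) (F : (I → Bool) → ℝ) : ℝ :=
  ∑ a, if ssum R a = s then F a else 0

theorem TS_mono {R : Finset I} {s : ℤ} {F G : (I → Bool) → ℝ} (h : ∀ a, F a ≤ G a) :
    TS R s F ≤ TS R s G := by
  unfold TS
  refine sum_le_sum fun a _ => ?_
  split_ifs
  · exact h a
  · exact le_rfl

theorem TS_nonneg {R : Finset I} {s : ℤ} {F : (I → Bool) → ℝ} (h : ∀ a, 0 ≤ F a) :
    0 ≤ TS R s F := by
  unfold TS
  refine sum_nonneg fun a _ => ?_
  split_ifs
  · exact h a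
  · exact le_rfl

theorem TS_const (R : Finset I) (s : ℤ) (c : ℝ) : TS R s (fun _ => c) = TS R s (fun _ => 1) * c := by
  unfold TS
  rw [sum_mul]
  refine sum_congr rfl fun a _ => ?_
  split_ifs <;> ring

theorem ssum_update_of_notMem {R : Finset I} {i : I} (hi : i ∉ R) (a : I → Bool) (b : Bool) :
    ssum R (Function.update a i b) = ssum R a := by
  unfold ssum
  refine sum_congr rfl fun j hj => ?_
  rw [Function.update_of_ne]
  rintro rfl
  exact hi hj

theorem ssum_erase {R : Finset I} {i : I} (hi : i ∈ R) (a : I → Bool) :
    ssum R a = sgi (a i) + ssum (R.erase i) a := by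
  unfold ssum
  rw [← add_sum_erase _ _ hi]

theorem TS_free {R : Finset I} {i : I} (hi : i ∉ R) (s : ℤ) (F : (I → Bool) → ℝ) :
    TS R s F = (1 / 2) * ∑ b : Bool, TS R s (fun a => F (Function.update a i b)) := by
  unfold TS
  rw [sum_update i]
  congr 1
  refine sum_congr rfl fun b _ => sum_congr rfl fun a _ => ?_
  rw [ssum_update_of_notMem hi]

theorem TS_split {R : Finset I} {i : I} (hi : i ∈ R) (s : ℤ) (F : (I → Bool) → ℝ) :
    TS R s F = (1 / 2) * ∑ b : Bool, TS (R.erase i) (s - sgi b)
      (fun a => F (Function.update a i b)) := by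
  unfold TS
  rw [sum_update i]
  congr 1
  refine sum_congr rfl fun b _ => sum_congr rfl fun a _ => ?_
  rw [ssum_erase hi, Function.update_self, ssum_update_of_notMem (notMem_erase i R)]
  congr 1
  exact propext ⟨fun h => by omega, fun h => by omega⟩

theorem ssum_swap {R : Finset I} {i j : I} (hi : i ∈ R) (hj : j ∈ R) (a : I → Bool) :
    ssum R (fun k => a (Equiv.swap i j k)) = ssum R a := by
  unfold ssum
  refine sum_bij' (fun k _ => Equiv.swap i j k) (fun k _ => Equiv.swap i j k) ?_ ?_ ?_ ?_ ?_
  · intro k hk
    rcases Equiv.swap_apply_eq_iff (x := i) (y := j) (z := k) (w := Equiv.swap i j k) |>.1 rfl with _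
    by_cases h1 : k = i
    · subst h1; rw [Equiv.swap_apply_left]; exact hj
    · by_cases h2 : k = j
      · subst h2; rw [Equiv.swap_apply_right]; exact hi
      · rw [Equiv.swap_apply_of_ne_of_ne h1 h2]; exact hk
  · intro k hk
    by_cases h1 : k = i
    · subst h1; rw [Equiv.swap_apply_left]; exact hj
    · by_cases h2 : k = j
      · subst h2; rw [Equiv.swap_apply_right]; exact hi
      · rw [Equiv.swap_apply_of_ne_of_ne h1 h2]; exact hk
  · intro k _
    exact Equiv.swap_apply_self i j k
  · intro k _
    exact Equiv.swap_apply_self i j k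
  · intro k _
    rfl

/-- all coordinates have the same mean on a slice -/
theorem TS_coord {R : Finset I} {i : I} (hi : i ∈ R) (s : ℤ) :
    (R.card : ℝ) * TS R s (fun a => sg (a i)) = s * TS R s (fun _ => 1) := by
  have h1 : ∀ j ∈ R, TS R s (fun a => sg (a j)) = TS R s (fun a => sg (a i)) := by
    intro j hj
    unfold TS
    rw [← Equiv.sum_comp (Equiv.arrowCongr (Equiv.swap i j) (Equiv.refl Bool))]
    refine sum_congr rfl fun a _ => ?_
    have h2 : (Equiv.arrowCongr (Equiv.swap i j) (Equiv.refl Bool)) a =
        fun k => a (Equiv.swap i j k) := by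
      funext k
      simp [Equiv.arrowCongr]
    rw [h2, ssum_swap hi hj]
    simp only [Equiv.swap_apply_right]
  have h2 : ∑ j ∈ R, TS R s (fun a => sg (a j)) = s * TS R s (fun _ => 1) := by
    unfold TS
    rw [sum_comm, mul_sum]
    refine sum_congr rfl fun a _ => ?_
    by_cases h : ssum R a = s
    · simp only [if_pos h]
      rw [← h]
      unfold ssum
      push_cast
      rw [mul_one]
      exact sum_congr rfl fun j _ => (sgi_cast _).symm
    · simp only [if_neg h]
      simp
  rw [← h2, sum_congr rfl h1, sum_const, nsmul_eq_mul]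

/-- the number of points of a slice with a given coordinate -/
theorem TS_count {R : Finset I} {i : I} (hi : i ∈ R) (s : ℤ) (b : Bool) :
    (R.card : ℝ) * TS (R.erase i) (s - sgi b) (fun _ => 1) =
      (R.card + sg b * s) * TS R s (fun _ => 1) := by
  have h1 := TS_coord hi s
  have h2 := TS_split hi s (fun a => (1 + sg b * sg (a i)) / 2)
  have h3 : ∀ c : Bool, TS (R.erase i) (s - sgi c)
      (fun a => (1 + sg b * sg (Function.update a i c i)) / 2) =
      if c = b then TS (R.erase i) (s - sgi b) (fun _ => 1) else 0 := by
    intro c
    simp only [Function.update_self]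
    by_cases hc : c = b
    · subst hc
      rw [if_pos rfl]
      congr 1
      funext a
      rw [sg_sq]; norm_num
    · rw [if_neg hc]
      unfold TS
      refine sum_eq_zero fun a _ => ?_
      have : sg b * sg c = -1 := by cases b <;> cases c <;> simp_all [sg]
      rw [this]
      simp
  simp only [h3] at h2
  rw [sum_ite_eq' univ b, if_pos (mem_univ b)] at h2
  have h4 : TS R s (fun a => (1 + sg b * sg (a i)) / 2) =
      (1 / 2) * TS R s (fun _ => 1) + (sg b / 2) * TS R s (fun a => sg (a i)) := by
    unfold TS
    rw [mul_sum, mul_sum, ← sum_add_distrib]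
    refine sum_congr rfl fun a _ => ?_
    split_ifs <;> ring
  rw [h4] at h2
  have h5 : TS (R.erase i) (s - sgi b) (fun _ => 1) = TS R s (fun _ => 1) +
      sg b * TS R s (fun a => sg (a i)) := by linarith
  rw [h5]
  linear_combination (sg b) * h1

theorem ml_zero_split (i : I) (F : (I → Bool) → ℝ) :
    ml F 0 = (1 / 2) * ∑ b : Bool, ml (fun a => F (Function.update a i b)) 0 := by
  simp only [ml_zero]
  rw [sum_update i, ← sum_div]
  ring

theorem ml_br_mem (f : (I → Bool) → Bool) : 0 ≤ ml (br f) 0 ∧ ml (br f) 0 ≤ 1 := by
  have hc : ∀ i : I, |(0 : I → ℝ) i| ≤ 1 := fun i => by simp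
  constructor
  · have := ml_mono (F := fun _ => (0 : ℝ)) (G := br f) (fun a => by
      unfold br; split_ifs <;> norm_num) hc
    rwa [ml_const] at this
  · have := ml_mono (F := br f) (G := fun _ => (1 : ℝ)) (fun a => by
      unfold br; split_ifs <;> norm_num) hc
    rwa [ml_const] at this

/-- **A decision tree has nearly the same mean on a slice.** -/
theorem slice_dtr {κ : ℝ} (hκ : 0 ≤ κ) : ∀ (t : ℕ) (R : Finset I) (s : ℤ)
    (f : (I → Bool) → Bool), DTr t f → t ≤ R.card →
    |(s : ℝ)| + (t : ℝ) ≤ κ * (R.card - t) →
      |TS R s (br f) - TS R s (fun _ => 1) * ml (br f) 0| ≤ TS R s (fun _ => 1) * (t * κ) := by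
  have hconst : ∀ (t : ℕ) (R : Finset I) (s : ℤ) (f : (I → Bool) → Bool), (∃ c, ∀ x, f x = c) →
      |TS R s (br f) - TS R s (fun _ => 1) * ml (br f) 0| ≤ TS R s (fun _ => 1) * (t * κ) := by
    rintro t R s f ⟨c, hc⟩
    have h1 : br f = fun _ => (if c then (1 : ℝ) else 0) := by
      funext x; unfold br; rw [hc]
    rw [h1, ml_const, TS_const R s (if c then (1 : ℝ) else 0), sub_self, abs_zero]
    exact mul_nonneg (TS_nonneg fun _ => zero_le_one) (by positivity)
  intro t
  induction t with
  | zero => intro R s f h _ _; exact hconst 0 R s f h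
  | succ t ih =>
    intro R s f h hR hs
    rcases h with h | ⟨i, h⟩
    · exact hconst _ R s f h
    · have hN : 0 ≤ TS R s (fun _ : I → Bool => (1 : ℝ)) := TS_nonneg fun _ => zero_le_one
      by_cases hi : i ∈ R
      · have hRc : (R.erase i).card = R.card - 1 := card_erase_of_mem hi
        have hR1 : 1 ≤ R.card := by omega
        have hRr : ((R.erase i).card : ℝ) = R.card - 1 := by
          rw [hRc]; push_cast [hR1]; ring
        have hRpos : (0 : ℝ) < R.card := by exact_mod_cast hR1
        have habs : ∀ b : Bool, |((s - sgi b : ℤ) : ℝ)| ≤ |(s : ℝ)| + 1 := by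
          intro b
          push_cast
          rw [sgi_cast]
          refine (abs_sub (s : ℝ) (sg b)).trans ?_
          rw [abs_sg]
        have h1 : ∀ b : Bool, |TS (R.erase i) (s - sgi b) (br fun a => f (Function.update a i b)) -
            TS (R.erase i) (s - sgi b) (fun _ => 1) * ml (br fun a => f (Function.update a i b)) 0| ≤
            TS (R.erase i) (s - sgi b) (fun _ => 1) * (t * κ) := by
          intro b
          refine ih _ _ _ (h b) (by omega) ?_
          rw [hRr]
          have := habs b
          push_cast at hs
          linarith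
        have h2 : ∀ b : Bool, TS (R.erase i) (s - sgi b) (fun _ => 1) - TS R s (fun _ => 1) =
            sg b * (s / R.card) * TS R s (fun _ => 1) := by
          intro b
          have := TS_count hi s b
          field_simp
          linarith
        have hsR : |(s : ℝ) / R.card| ≤ κ := by
          rw [abs_div, abs_of_pos hRpos, div_le_iff₀ hRpos]
          push_cast at hs ⊢
          have e2 : 0 ≤ κ * ((t : ℝ) + 1) := by positivity
          have e3 : (0 : ℝ) ≤ t := by positivity
          nlinarith
        have h3 : TS R s (br f) - TS R s (fun _ => 1) * ml (br f) 0 =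
            (1 / 2) * ∑ b : Bool, ((TS (R.erase i) (s - sgi b)
              (br fun a => f (Function.update a i b)) -
              TS (R.erase i) (s - sgi b) (fun _ => 1) *
                ml (br fun a => f (Function.update a i b)) 0) +
              sg b * (s / R.card) * TS R s (fun _ => 1) *
                ml (br fun a => f (Function.update a i b)) 0) := by
          rw [TS_split hi s (br f), ml_zero_split i (br f)]
          simp only [← h2]
          rw [mul_left_comm, ← mul_sub, mul_sum, ← sum_sub_distrib]
          congr 1
          refine sum_congr rfl fun b _ => ?_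
          have e1 : (fun a => br f (Function.update a i b)) =
              br fun a => f (Function.update a i b) := rfl
          rw [e1]
          ring
        rw [h3, abs_mul, abs_of_pos (by norm_num : (0 : ℝ) < 1 / 2)]
        have h4 : ∑ b : Bool, TS (R.erase i) (s - sgi b) (fun _ => 1) =
            2 * TS R s (fun _ => 1) := by
          have := TS_split hi s (fun _ => (1 : ℝ))
          linarith
        have h5 : |∑ b : Bool, ((TS (R.erase i) (s - sgi b)
              (br fun a => f (Function.update a i b)) -
              TS (R.erase i) (s - sgi b) (fun _ => 1) *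
                ml (br fun a => f (Function.update a i b)) 0) +
              sg b * (s / R.card) * TS R s (fun _ => 1) *
                ml (br fun a => f (Function.update a i b)) 0)| ≤
            ∑ b : Bool, (TS (R.erase i) (s - sgi b) (fun _ => 1) * (t * κ) +
              κ * TS R s (fun _ => 1)) := by
          refine (abs_sum_le_sum_abs _ _).trans (sum_le_sum fun b _ => ?_)
          refine (abs_add_le _ _).trans (add_le_add (h1 b) ?_)
          obtain ⟨e1, e2⟩ := ml_br_mem (fun a => f (Function.update a i b))
          rw [abs_mul, abs_mul, abs_mul, abs_sg, one_mul, abs_of_nonneg hN, abs_of_nonneg e1]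
          calc |(s : ℝ) / R.card| * TS R s (fun _ => 1) *
              ml (br fun a => f (Function.update a i b)) 0 ≤
              (κ * TS R s (fun _ => 1)) * 1 :=
                mul_le_mul (mul_le_mul_of_nonneg_right hsR hN) e2 e1 (mul_nonneg hκ hN)
            _ = κ * TS R s (fun _ => 1) := mul_one _
        have h6 : ∑ b : Bool, (TS (R.erase i) (s - sgi b) (fun _ => 1) * (t * κ) +
              κ * TS R s (fun _ => 1)) = 2 * TS R s (fun _ => 1) * (t * κ) +
              2 * (κ * TS R s (fun _ => 1)) := by
          rw [sum_add_distrib, ← sum_mul, h4]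
          simp
        rw [h6] at h5
        push_cast
        nlinarith
      · have h1 : ∀ b : Bool, |TS R s (br fun a => f (Function.update a i b)) -
            TS R s (fun _ => 1) * ml (br fun a => f (Function.update a i b)) 0| ≤
            TS R s (fun _ => 1) * (t * κ) := by
          intro b
          refine ih _ _ _ (h b) (by omega) ?_
          push_cast at hs
          nlinarith
        have h3 : TS R s (br f) - TS R s (fun _ => 1) * ml (br f) 0 =
            (1 / 2) * ∑ b : Bool, (TS R s (br fun a => f (Function.update a i b)) -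
              TS R s (fun _ => 1) * ml (br fun a => f (Function.update a i b)) 0) := by
          rw [TS_free hi s (br f), ml_zero_split i (br f), mul_left_comm, ← mul_sub, mul_sum,
            ← sum_sub_distrib]
          rfl
        rw [h3, abs_mul, abs_of_pos (by norm_num : (0 : ℝ) < 1 / 2)]
        have h5 := (abs_sum_le_sum_abs (fun b : Bool => TS R s
          (br fun a => f (Function.update a i b)) -
              TS R s (fun _ => 1) * ml (br fun a => f (Function.update a i b)) 0) univ).trans
          (sum_le_sum fun b _ => h1 b)
        simp only [sum_const, card_univ, Fintype.card_bool, nsmul_eq_mul] at h5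
        push_cast at h5 ⊢
        nlinarith [mul_nonneg hN hκ]

end Pool.Agent.K7x.EQ
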