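import Pool.Agent.K7x.EQ.Stp

/-!
# Upper bounds relative to the oracle
-/

set_option autoImplicit false

namespace Pool.Agent.K7x.EQ

open Pool.Agent.NPC Pool.Agent.H622R2 Pool.Agent.H620R2.Gauge
  Pool.Agent.TH678.ETH Pool.Agent.TH678.SETH Pool.Agent.TH678.RS Pool.Agent.H9x.Q

open Pool.Agent.H622R2.Exp hiding Dat

open Pool.Agent.H9x.V1 (Ac ac_congr poly_rep poly_cS IsTime)

open Pool.Agent.H9x.RT (Dat lev lead frd lead_le frd_rep Kq code_true)

variable {S N : ℕ → Polynomial ℕ} {b : ℕ → ℕ} {g : ℕ → SAlg × Polynomial ℕ}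
  {h : ℕ → Alg × Polynomial ℕ}

/-- **Polynomial space in nearly polynomial time.** -/
theorem time_of_pspace {α : ℕ → ℕ} (hα : Monotone α) (hg : Function.Surjective g)
    (hc : Kq g h S N) (D : Dat) {L : Set (List Bool)}
    (hL : IsPSPACE (orc S N (bt α) g h D) L) : IsTime α (orc S N (bt α) g h D) L := by
  obtain ⟨e, he⟩ := code_true hg hc _ hL
  obtain ⟨C, hC⟩ := Pool.Agent.Y626.WX.time_bound hα (S e)
  have hx : Poly (fun y => (unpair y).2) := Poly.snd poly_unpair
  have hw : Poly (fun y => (unpair y).1) := Poly.fst poly_unpair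
  have h1 : Poly (fun z => true :: true :: cS e (unpair z).1.length (unpair z).2) :=
    Poly.cons (NPC.Poly.const true) (Poly.cons (NPC.Poly.const true)
      (poly_cS e (UPoly.length hw) hx))
  refine ⟨C, _, TH678.WP.isFP_ask' _ h1, fun x => ?_⟩
  simp only [unpair_pairBits, List.cons.injEq, and_true, List.length_replicate]
  have h4 : (S e).eval x.length ^ (bt α ((S e).eval x.length) + 1) ≤
      (x.length + 2) ^ (C * (α x.length + 1)) := hC x.length
  have h5 := orc_on (g := g) (h := h) hc.big D (Ix.far ⟨(e, _, x), h4⟩ : Ix S N (bt α))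
  rw [← he x]
  exact h5.symm

/-- the number of pairs of qubits -/
noncomputable def Pj (p : Polynomial ℕ) : Polynomial ℕ := Polynomial.C 8 * (p + Polynomial.C 5)

/-- the number of qubits of the second mask -/
noncomputable def Pm (p : Polynomial ℕ) : Polynomial ℕ :=
  Polynomial.C 24 * (p + Polynomial.C 5) * (Polynomial.C 1024 * (p + Polynomial.C 5) + 1) +
    Polynomial.C 4

/-- the number of rounds -/
noncomputable def Pk (p : Polynomial ℕ) : Polynomial ℕ := Polynomial.C 512 * (p + Polynomial.C 5)

theorem Pj_eval (p : Polynomial ℕ) (n : ℕ) : (Pj p).eval n = 8 * us (p.eval n) := by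
  unfold Pj
  rw [us_eq]
  simp

theorem Pm_eval (p : Polynomial ℕ) (n : ℕ) : (Pm p).eval n = m2e (us (p.eval n)) := by
  unfold Pm m2e
  rw [us_eq]
  simp

theorem Pk_eval (p : Polynomial ℕ) (n : ℕ) : (Pk p).eval n = 512 * us (p.eval n) := by
  unfold Pk
  rw [us_eq]
  simp

/-- the questions about the zero string -/
theorem base_Z (D : Dat) {K : ℕ} (u : Fin K → Bool) :
    orc S N b g h D ([false, false] ++ List.ofFn u) = true ↔ u = fun _ => false := by
  have h1 : [false, false] ++ List.ofFn u = false :: false :: List.ofFn u := rfl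
  rw [h1, orc_off D (fun p hp => by cases p <;> simp [cI] at hp)]
  show decide (∀ b ∈ List.ofFn u, b = false) = true ↔ _
  rw [decide_eq_true_iff]
  constructor
  · intro h2
    funext t
    exact h2 _ (List.mem_ofFn.2 ⟨t, rfl⟩)
  · rintro rfl b hb
    obtain ⟨t, rfl⟩ := List.mem_ofFn.1 hb
    rfl

/-- **A criterion for the membership in exact quantum polynomial time.** -/
theorem eqp_of_cont {D : Dat} {L : Set (List Bool)} (pre : List Bool → List Bool)
    (p : Polynomial ℕ) (hpre : Poly fun u : List Bool => pre u)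
    (hpre' : ∀ u v : List Bool, u.length = v.length → pre u = pre v)
    {c : List Bool → List Bool → Bool}
    (hc : ∀ x w : List Bool, w.length = LA (p.eval x.length) →
      orc S N b g h D (pre x ++ (x ++ w)) = c x w)
    (hL : ∀ x : List Bool, (x ∈ L → Yes (p.eval x.length) (c x)) ∧
      (x ∉ L → No (p.eval x.length) (c x))) :
    IsEQP (orc S N b g h D) L := by
  refine isEQP_of pre (fun _ => [false, false]) (Pj p) (Pj p) (Pm p) (Pk p) hpre
    (NPC.Poly.const _) hpre' (fun _ _ _ => rfl) (fun x u => base_Z D u) fun x => ?_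
  have key : ∀ v : ℝ, (∃ z, Rp (us (p.eval x.length)) (c x) z ∧
      va (us (p.eval x.length)) z = v) →
      ∃ z : Ig ((Pj p).eval x.length * 2) ((Pj p).eval x.length) ((Pm p).eval x.length) → Bool,
      (∀ a b' (u : Fin (KK ((Pj p).eval x.length * 2) ((Pj p).eval x.length)
        ((Pm p).eval x.length)) → Bool),
        orc S N b g h D (pre x ++ (x ++ (a :: b' :: List.ofFn u))) = Cn z a b' (u ∘ pos _ _ _)) ∧
      Am ((Pk p).eval x.length) ((fo z + m1 z) / 2) + m2 z = v := by
    rintro v ⟨z, hz, hz'⟩
    rw [Pj_eval, Pm_eval, Pk_eval]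
    refine ⟨z, fun a b' u => ?_, hz'⟩
    rw [hc x (a :: b' :: List.ofFn u) (by
      rw [List.length_cons, List.length_cons, List.length_ofFn]
      unfold LA
      omega)]
    exact hz a b' u
  by_cases hx : x ∈ L
  · obtain ⟨z, h1, h2⟩ := key 1 ((hL x).1 hx)
    exact ⟨z, h1, fun _ => h2, fun h3 => absurd hx h3⟩
  · obtain ⟨z, h1, h2⟩ := key 0 ((hL x).2 hx)
    exact ⟨z, h1, fun h3 => absurd h3 hx, fun _ => h2⟩

/-- **Polynomial space in exact quantum polynomial time.** -/
theorem eqp_of_pspace (hg : Function.Surjective g) (hc : Kq g h S N) {D : Dat} (hD : Good S D)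
    {L : Set (List Bool)} (hL : IsPSPACE (orc S N b g h D) L) :
    IsEQP (orc S N b g h D) L := by
  obtain ⟨e, he⟩ := code_true hg hc _ hL
  have hlen : UPoly (fun u : List Bool => u.length) := UPoly.length Poly.id
  have hSe : UPoly (fun u : List Bool => (S e).eval u.length) := hlen.eval (S e)
  refine eqp_of_cont (fun u => true :: false :: false :: cS e ((S e).eval u.length) []) (S e)
    ?_ (fun u v huv => by simp only [huv]) (c := fun x w => D.bl (e, x)
      (@decide (Ac g S e x (orc S N b g h D)) (Classical.propDecidable _)) w) (fun x w hw => ?_)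
    fun x => ?_
  · exact Poly.cons (NPC.Poly.const _) (Poly.cons (NPC.Poly.const _) (Poly.cons (NPC.Poly.const _)
      (poly_cS e hSe (NPC.Poly.const []))))
  · have h1 : (true :: false :: false :: cS e ((S e).eval x.length) []) ++ (x ++ w) =
        cI (Ix.blk e x w hw : Ix S N b) := by
      show _ = true :: false :: false :: cS e ((S e).eval x.length) (x ++ w)
      simp [cS, pr]
    rw [h1, Bool.eq_iff_iff, orc_on hc.big]
    rfl
  · have hb := hD.bl (e, x)
    constructor
    · intro hx
      have h2 : @decide (Ac g S e x (orc S N b g h D)) (Classical.propDecidable _) = true := by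
        exact (@decide_eq_true_iff _ (Classical.propDecidable _)).2 ((he x).2 hx)
      rw [h2]
      exact hb.1
    · intro hx
      have h2 : @decide (Ac g S e x (orc S N b g h D)) (Classical.propDecidable _) = false := by
        exact (@decide_eq_false_iff_not _ (Classical.propDecidable _)).2
          fun h3 => hx ((he x).1 h3)
      rw [h2]
      exact hb.2

/-- the language of the free blocks -/
def LF (D : Dat) : Set (List Bool) := {x | Yes x.length (D.fr x.length)}

/-- **The language is in exact quantum polynomial time.** -/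
theorem eqp_LF {D : Dat} (hD : Good S D) : IsEQP (orc S N b g h D) (LF D) := by
  have hlen : UPoly (fun u : List Bool => u.length) := UPoly.length Poly.id
  refine eqp_of_cont (fun u => false :: true :: (List.replicate u.length true ++ [false]))
    Polynomial.X ?_ (fun u v huv => by simp only [huv]) (c := fun x w => D.fr x.length w)
    (fun x w _ => ?_) fun x => ?_
  · exact Poly.cons (NPC.Poly.const _) (Poly.cons (NPC.Poly.const _)
      (Poly.append (poly_rep hlen) (NPC.Poly.const [false])))
  · have h1 : (false :: true :: (List.replicate x.length true ++ [false])) ++ (x ++ w) =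
        false :: true :: (List.replicate x.length true ++ false :: (x ++ w)) := by simp
    rw [h1, orc_off D (fun p hp => by cases p <;> simp [cI] at hp)]
    exact frd_rep _ _ _ _ rfl
  · rw [Polynomial.eval_X]
    refine ⟨fun hx => hx, fun hx => ?_⟩
    rcases hD.fr x.length with h2 | h2
    · exact absurd h2 hx
    · exact h2

/-- **`NP` is in `P`.** -/
theorem p_of_np (hh : Function.Surjective h) (hc : Kq g h S N) (D : Dat)
    {L : Set (List Bool)} (hL : IsNP (orc S N b g h D) L) : IsP (orc S N b g h D) L := by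
  obtain ⟨V, p, ⟨M, hM⟩, hx⟩ := hL
  obtain ⟨e, he⟩ := hh (M, p)
  have hlen : UPoly (fun u : List Bool => u.length) := UPoly.length Poly.id
  have h1 : Poly (fun x : List Bool => true :: false :: true :: cS e ((N e ^ 2).eval x.length) x) :=
    Poly.cons (NPC.Poly.const _) (Poly.cons (NPC.Poly.const _) (Poly.cons (NPC.Poly.const _)
      (poly_cS e (hlen.eval (N e ^ 2)) Poly.id)))
  refine ⟨_, TH678.WP.isFP_ask' _ h1, fun x => ?_⟩
  simp only [List.cons.injEq, and_true]
  have h2 : (N e).eval x.length ^ 2 ≤ (N e ^ 2).eval x.length := by simp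
  have h3 := orc_on (g := g) (h := h) hc.big D (Ix.np e _ x h2 : Ix S N b)
  rw [hx]
  refine Iff.trans ?_ h3.symm
  show _ ↔ ∃ w : List Bool, w.length ≤ (h e).2.eval x.length ∧
      (h e).1.out (CC.cut ((N e).eval x.length) (orc S N b g h D)) (pairBits w x) = some [true]
  refine exists_congr fun w => ?_
  rw [he]
  refine and_congr_right fun hw => ?_
  have h4 := hc.hloc e x w (orc S N b g h D) (by rw [he]; exact hw)
  rw [he] at h4
  rw [h4, hM]
  simp

end Pool.Agent.K7x.EQ
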