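import Pool.Agent.K7x.EQ.Op
import Pool.Agent.H9x.RT.Had

/-!
# The amplitude computed by the circuit
-/

set_option autoImplicit false
set_option linter.unusedSectionVars false

namespace Pool.Agent.K7x.EQ

open Finset Pool.Agent.H9x.RT

/-- Hadamard gates on a part of the register -/
theorem pw_ext {T J : Type*} [Fintype T] [DecidableEq T] [Fintype J] [DecidableEq J] {σ : J → T}
    (hσ : Function.Injective σ) {S : T → Bool} (hS : ∀ t, S t = true ↔ ∃ j, σ j = t)
    (a : (T → Bool) → ℂ) (u : T → Bool) :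
    pw S a u = ∑ y : J → Bool, (∏ j, hk (u (σ j)) (y j)) * a (Function.extend σ y u) := by
  rw [pw_apply]
  symm
  refine Fintype.sum_of_injective (fun y => Function.extend σ y u) ?_ _ _ ?_ ?_
  · intro y y' h
    funext j
    have := congrFun h (σ j)
    simp only [hσ.extend_apply] at this
    exact this
  · intro v hv
    have h1 : ∃ t, (¬ ∃ j, σ j = t) ∧ v t ≠ u t := by
      by_contra hcon
      push Not at hcon
      apply hv
      refine ⟨fun j => v (σ j), ?_⟩
      funext t
      show Function.extend σ (fun j => v (σ j)) u t = v t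
      by_cases ht : ∃ j, σ j = t
      · obtain ⟨j, rfl⟩ := ht
        rw [hσ.extend_apply]
      · rw [Function.extend_apply' _ _ _ ht]
        exact (hcon t (by push Not at ht; exact ht)).symm
    obtain ⟨t, ht, hvt⟩ := h1
    have hSt : S t = false := by
      cases h : S t
      · rfl
      · exact absurd ((hS t).1 h) ht
    have : ∏ t, ks (S t) (u t) (v t) = 0 :=
      prod_eq_zero (mem_univ t) (by simp [ks, hSt, Ne.symm hvt])
    rw [this, zero_mul]
  · intro y
    congr 1
    refine Fintype.prod_of_injective σ hσ _ _ (fun t ht => ?_) (fun j => ?_)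
    · have ht' : ¬ ∃ j, σ j = t := fun ⟨j, hj⟩ => ht ⟨j, hj⟩
      have hSt : S t = false := by
        cases h : S t
        · rfl
        · exact absurd ((hS t).1 h) ht'
      rw [Function.extend_apply' _ _ _ ht']
      simp [ks, hSt]
    · rw [hσ.extend_apply]
      have : S (σ j) = true := (hS _).2 ⟨j, rfl⟩
      simp [ks, this]

theorem pw_ev {T : Type*} [Fintype T] [DecidableEq T] (S : T → Bool) (v u : T → Bool) :
    pw S (ev v) u = ∏ t, ks (S t) (u t) (v t) := by
  rw [pw_apply, sum_eq_single v]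
  · simp [ev]
  · intro w _ hw
    simp [ev, hw]
  · intro h
    exact absurd (mem_univ _) h

/-- the qubits of the register -/
abbrev Rg (l r m : ℕ) : Type := Fin 2 ⊕ ((Fin l ⊕ Fin r) ⊕ Fin m)

variable {l r m : ℕ}

/-- the contents of the register -/
def mkv (c₂ c : Bool) (y : Fin l → Bool) (z : Fin r → Bool) (y₂ : Fin m → Bool) : Rg l r m → Bool :=
  Sum.elim ![c₂, c] (Sum.elim (Sum.elim y z) y₂)

/-- the parts of the register -/
def yv (v : Rg l r m → Bool) : Fin l → Bool := fun i => v (.inr (.inl (.inl i)))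

/-- the parts of the register -/
def zv (v : Rg l r m → Bool) : Fin r → Bool := fun i => v (.inr (.inl (.inr i)))

/-- the parts of the register -/
def y2v (v : Rg l r m → Bool) : Fin m → Bool := fun i => v (.inr (.inr i))

theorem mkv_eta (v : Rg l r m → Bool) :
    mkv (v (.inl 0)) (v (.inl 1)) (yv v) (zv v) (y2v v) = v := by
  funext t
  rcases t with t | ((t | t) | t)
  · fin_cases t <;> rfl
  · rfl
  · rfl
  · rfl

theorem mkv_0 (c₂ c : Bool) (y : Fin l → Bool) (z : Fin r → Bool) (y₂ : Fin m → Bool) :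
    mkv c₂ c y z y₂ (.inl 0) = c₂ := rfl

theorem mkv_1 (c₂ c : Bool) (y : Fin l → Bool) (z : Fin r → Bool) (y₂ : Fin m → Bool) :
    mkv c₂ c y z y₂ (.inl 1) = c := rfl

theorem yv_mkv (c₂ c : Bool) (y : Fin l → Bool) (z : Fin r → Bool) (y₂ : Fin m → Bool) :
    yv (mkv c₂ c y z y₂) = y := rfl

theorem zv_mkv (c₂ c : Bool) (y : Fin l → Bool) (z : Fin r → Bool) (y₂ : Fin m → Bool) :
    zv (mkv c₂ c y z y₂) = z := rfl

theorem y2v_mkv (c₂ c : Bool) (y : Fin l → Bool) (z : Fin r → Bool) (y₂ : Fin m → Bool) :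
    y2v (mkv c₂ c y z y₂) = y₂ := rfl

theorem mkv_inj {c₂ c c₂' c' : Bool} {y y' : Fin l → Bool} {z z' : Fin r → Bool}
    {y₂ y₂' : Fin m → Bool} (h : mkv c₂ c y z y₂ = mkv c₂' c' y' z' y₂') :
    c₂ = c₂' ∧ c = c' ∧ y = y' ∧ z = z' ∧ y₂ = y₂' :=
  ⟨congrFun h (.inl 0), congrFun h (.inl 1), congrArg yv h, congrArg zv h, congrArg y2v h⟩

theorem prod_rg (F : Rg l r m → ℂ) : ∏ t, F t = F (.inl 0) * F (.inl 1) *
    ((∏ i, F (.inr (.inl (.inl i)))) * (∏ i, F (.inr (.inl (.inr i)))) *
      ∏ i, F (.inr (.inr i))) := by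
  rw [Fintype.prod_sum_type, Fintype.prod_sum_type, Fintype.prod_sum_type, Fin.prod_univ_two]

/-- the sets of Hadamard gates -/
def SB : Rg l r m → Bool
  | .inl 0 => false
  | .inl 1 => true
  | .inr (.inl _) => true
  | .inr (.inr _) => false

/-- the sets of Hadamard gates -/
def SL : Rg l r m → Bool
  | .inr (.inl (.inl _)) => true
  | _ => false

/-- the sets of Hadamard gates -/
def SM : Rg l r m → Bool
  | .inr (.inr _) => true
  | _ => false

/-- the sets of Hadamard gates -/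
def SC : Rg l r m → Bool
  | .inl 0 => true
  | _ => false

/-- the state with the flag `b` -/
noncomputable def eb (l r m : ℕ) (b : Bool) : (Rg l r m → Bool) → ℂ :=
  ev (mkv b false z0 z0 z0)

theorem z0_eq : (z0 : Rg l r m → Bool) = mkv false false z0 z0 z0 := by
  rw [← mkv_eta (z0 : Rg l r m → Bool)]
  rfl

theorem hk_false (x : Bool) : hk x false = 1 / s2 := by
  unfold hk
  simp

theorem pw_SB (b c₂ c : Bool) (y : Fin l → Bool) (z : Fin r → Bool) (y₂ : Fin m → Bool) :
    pw SB (eb l r m b) (mkv c₂ c y z y₂) =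
      if c₂ = b ∧ y₂ = z0 then (1 / s2) ^ (1 + l + r) else 0 := by
  unfold eb
  rw [pw_ev, prod_rg]
  have e1 : ∏ i, ks (SB (.inr (.inl (.inl i)) : Rg l r m)) (mkv c₂ c y z y₂ (.inr (.inl (.inl i))))
      (mkv b false z0 z0 z0 (.inr (.inl (.inl i)) : Rg l r m)) = (1 / s2) ^ l := by
    have : ∀ i, ks (SB (.inr (.inl (.inl i)) : Rg l r m)) (mkv c₂ c y z y₂ (.inr (.inl (.inl i))))
      (mkv b false z0 z0 z0 (.inr (.inl (.inl i)) : Rg l r m)) = 1 / s2 := fun i => by
      show ks true (y i) false = _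
      unfold ks
      rw [if_pos rfl, hk_false]
    rw [prod_congr rfl fun i _ => this i, prod_const, card_univ, Fintype.card_fin]
  have e2 : ∏ i, ks (SB (.inr (.inl (.inr i)) : Rg l r m)) (mkv c₂ c y z y₂ (.inr (.inl (.inr i))))
      (mkv b false z0 z0 z0 (.inr (.inl (.inr i)) : Rg l r m)) = (1 / s2) ^ r := by
    have : ∀ i, ks (SB (.inr (.inl (.inr i)) : Rg l r m)) (mkv c₂ c y z y₂ (.inr (.inl (.inr i))))
      (mkv b false z0 z0 z0 (.inr (.inl (.inr i)) : Rg l r m)) = 1 / s2 := fun i => by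
      show ks true (z i) false = _
      unfold ks
      rw [if_pos rfl, hk_false]
    rw [prod_congr rfl fun i _ => this i, prod_const, card_univ, Fintype.card_fin]
  have e3 : ∏ i, ks (SB (.inr (.inr i) : Rg l r m)) (mkv c₂ c y z y₂ (.inr (.inr i)))
      (mkv b false z0 z0 z0 (.inr (.inr i) : Rg l r m)) = if y₂ = z0 then 1 else 0 := by
    rw [delta_prod]
    rfl
  have e4 : ks (SB (.inl 0 : Rg l r m)) (mkv c₂ c y z y₂ (.inl 0))
      (mkv b false z0 z0 z0 (.inl 0 : Rg l r m)) = if c₂ = b then 1 else 0 := rfl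
  have e5 : ks (SB (.inl 1 : Rg l r m)) (mkv c₂ c y z y₂ (.inl 1))
      (mkv b false z0 z0 z0 (.inl 1 : Rg l r m)) = 1 / s2 := by
    show ks true c false = _
    unfold ks
    rw [if_pos rfl, hk_false]
  rw [e1, e2, e3, e4, e5]
  by_cases h1 : c₂ = b
  · by_cases h2 : y₂ = z0
    · rw [if_pos h1, if_pos h2, if_pos ⟨h1, h2⟩, pow_add, pow_add, pow_one]
      ring
    · simp only [h2, and_false, if_false, mul_zero]
  · simp only [h1, false_and, if_false, zero_mul]

theorem pw_SL (a : (Rg l r m → Bool) → ℂ) (c₂ c : Bool) (y : Fin l → Bool) (z : Fin r → Bool)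
    (y₂ : Fin m → Bool) : pw SL a (mkv c₂ c y z y₂) =
      ∑ y' : Fin l → Bool, (∏ i, hk (y i) (y' i)) * a (mkv c₂ c y' z y₂) := by
  have hσ : Function.Injective (fun i : Fin l => (.inr (.inl (.inl i)) : Rg l r m)) := by
    intro i j h
    simpa using h
  rw [pw_ext hσ (S := SL) (fun t => by
    rcases t with t | ((t | t) | t)
    · fin_cases t <;> simp [SL]
    · simp [SL]
    · simp [SL]
    · simp [SL])]
  refine sum_congr rfl fun y' _ => ?_
  congr 2
  funext t
  by_cases ht : ∃ i : Fin l, (.inr (.inl (.inl i)) : Rg l r m) = t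
  · obtain ⟨i, rfl⟩ := ht
    exact hσ.extend_apply _ _ i
  · rw [Function.extend_apply' _ _ _ ht]
    rcases t with t | ((t | t) | t)
    · fin_cases t <;> rfl
    · exact absurd ⟨t, rfl⟩ ht
    · rfl
    · rfl

theorem pw_SM (a : (Rg l r m → Bool) → ℂ) (c₂ c : Bool) (y : Fin l → Bool) (z : Fin r → Bool)
    (y₂ : Fin m → Bool) : pw SM a (mkv c₂ c y z y₂) =
      ∑ y' : Fin m → Bool, (∏ i, hk (y₂ i) (y' i)) * a (mkv c₂ c y z y') := by
  have hσ : Function.Injective (fun i : Fin m => (.inr (.inr i) : Rg l r m)) := by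
    intro i j h
    simpa using h
  rw [pw_ext hσ (S := SM) (fun t => by
    rcases t with t | ((t | t) | t)
    · fin_cases t <;> simp [SM]
    · simp [SM]
    · simp [SM]
    · simp [SM])]
  refine sum_congr rfl fun y' _ => ?_
  congr 2
  funext t
  by_cases ht : ∃ i : Fin m, (.inr (.inr i) : Rg l r m) = t
  · obtain ⟨i, rfl⟩ := ht
    exact hσ.extend_apply _ _ i
  · rw [Function.extend_apply' _ _ _ ht]
    rcases t with t | ((t | t) | t)
    · fin_cases t <;> rfl
    · rfl
    · rfl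
    · exact absurd ⟨t, rfl⟩ ht

theorem pw_SC : pw SC (eb l r m false) = (1 / s2) • (eb l r m false + eb l r m true) := by
  funext u
  unfold eb
  rw [pw_ev, prod_rg]
  simp only [Pi.smul_apply, Pi.add_apply, smul_eq_mul]
  have e1 : ∏ i, ks (SC (.inr (.inl (.inl i)) : Rg l r m)) (u (.inr (.inl (.inl i))))
      (mkv false false z0 z0 z0 (.inr (.inl (.inl i)) : Rg l r m)) = if yv u = z0 then 1 else 0 := by
    rw [delta_prod]
    rfl
  have e2 : ∏ i, ks (SC (.inr (.inl (.inr i)) : Rg l r m)) (u (.inr (.inl (.inr i))))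
      (mkv false false z0 z0 z0 (.inr (.inl (.inr i)) : Rg l r m)) = if zv u = z0 then 1 else 0 := by
    rw [delta_prod]
    rfl
  have e3 : ∏ i, ks (SC (.inr (.inr i) : Rg l r m)) (u (.inr (.inr i)))
      (mkv false false z0 z0 z0 (.inr (.inr i) : Rg l r m)) = if y2v u = z0 then 1 else 0 := by
    rw [delta_prod]
    rfl
  have e4 : ks (SC (.inl 0 : Rg l r m)) (u (.inl 0))
      (mkv false false z0 z0 z0 (.inl 0 : Rg l r m)) = 1 / s2 := by
    show ks true (u (.inl 0)) false = _
    unfold ks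
    rw [if_pos rfl, hk_false]
  have e5 : ks (SC (.inl 1 : Rg l r m)) (u (.inl 1))
      (mkv false false z0 z0 z0 (.inl 1 : Rg l r m)) = if u (.inl 1) = false then 1 else 0 := rfl
  rw [e1, e2, e3, e4, e5]
  have key : ∀ b : Bool, (ev (mkv b false z0 z0 z0) u : ℂ) = if (u (.inl 0) = b ∧ u (.inl 1) = false ∧
      yv u = z0 ∧ zv u = z0 ∧ y2v u = z0) then 1 else 0 := by
    intro b
    unfold ev
    congr 1
    refine propext ⟨fun h => ?_, fun h => ?_⟩
    · subst h
      exact ⟨rfl, rfl, rfl, rfl, rfl⟩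
    · obtain ⟨h1, h2, h3, h4, h5⟩ := h
      rw [← mkv_eta u, h1, h2, h3, h4, h5]
  rw [key, key]
  by_cases h2 : u (.inl 1) = false
  · by_cases h3 : yv u = z0
    · by_cases h4 : zv u = z0
      · by_cases h5 : y2v u = z0
        · cases h1 : u (.inl 0) <;> simp [h2, h3, h4, h5]
        · simp [h5]
      · simp [h4]
    · simp [h3]
  · simp [h2]

end Pool.Agent.K7x.EQ
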